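import Pool.Agent.Work.MP_a60482_exo.Interface

/-!
# Block GRA: the new grading is a grading
-/

open CategoryTheory MonoidalCategory CartesianMonoidalCategory

universe u v w x

namespace Pool.KC

variable {V : Type u} [Category.{v} V] [CartesianMonoidalCategory V]

namespace GRAAux

open WeilData

variable {D : WeilData.{u, v, w, 0} V ℂ} (hD : D.IsWeil)

/-- generators of the new grading -/
def gen (T : D.Fam) (X : V) (j : ℕ) : Set (D.H X) :=
  {a | ∃ (k : ℕ) (m : ℤ), a ∈ D.deg X k ∧ T X a = (m : ℂ) • a ∧ (k : ℤ) + 2 * m = j}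

theorem rdeg_eq (T : D.Fam) (X : V) (j : ℕ) :
    D.rdeg T X j = Submodule.span ℂ (gen T X j) := rfl

include hD in
theorem comm_proj {T : D.Fam} (hT : D.MotDer T) (X : V) (k : ℕ) (a : D.H X) :
    T X ((toCoh hD).proj X k a) = (toCoh hD).proj X k (T X a) := by
  refine (toCoh hD).hind (X := X)
    (P := fun a => T X ((toCoh hD).proj X k a) = (toCoh hD).proj X k (T X a)) ?_ ?_ ?_ a
  · rw [map_zero, map_zero, map_zero]
  · intro i a ha
    have hTa : T X a ∈ (toCoh hD).deg X i := hT.deg X i a ha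
    by_cases hik : i = k
    · subst hik
      rw [(toCoh hD).proj_same ha, (toCoh hD).proj_same hTa]
    · rw [(toCoh hD).proj_ne ha hik, (toCoh hD).proj_ne hTa hik, map_zero]
  · intro a b ha hb
    rw [map_add, map_add, map_add, map_add, ha, hb]

/-- multiplication by the degree -/
noncomputable def degOp (X : V) : Module.End ℂ (D.H X) :=
  ∑ k ∈ Finset.range (2 * D.dim X + 1), (k : ℂ) • (toCoh hD).proj X k

theorem degOp_apply (X : V) (k : ℕ) (a : D.H X) (ha : a ∈ D.deg X k) :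
    degOp hD X a = (k : ℂ) • a := by
  have h1 : degOp hD X a =
      ∑ i ∈ Finset.range (2 * D.dim X + 1), (i : ℂ) • (toCoh hD).proj X i a := by
    unfold degOp
    rw [LinearMap.sum_apply]
    rfl
  rw [h1]
  by_cases hk : k < 2 * D.dim X + 1
  · rw [Finset.sum_eq_single k]
    · rw [(toCoh hD).proj_same ha]
    · intro i _ hik
      rw [(toCoh hD).proj_ne ha (Ne.symm hik), smul_zero]
    · intro h; exact absurd (Finset.mem_range.2 hk) h
  · have h0 : a = 0 := (toCoh hD).deg_eq_zero (i := k) ha (by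
      change 2 * D.dim X < k
      omega)
    subst h0
    rw [smul_zero]
    refine Finset.sum_eq_zero fun i _ => ?_
    rw [map_zero, smul_zero]

/-- the operator whose eigenspaces are the new parts -/
noncomputable def NOp (T : D.Fam) (X : V) : Module.End ℂ (D.H X) :=
  degOp hD X + (2 : ℂ) • T X

include hD in
theorem rdeg_le (T : D.Fam) (X : V) (j : ℕ) :
    D.rdeg T X j ≤ (NOp hD T X).eigenspace (j : ℂ) := by
  rw [rdeg_eq, Submodule.span_le]
  rintro a ⟨k, m, ha, hTa, hj⟩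
  rw [SetLike.mem_coe, Module.End.mem_eigenspace_iff]
  change degOp hD X a + (2 : ℂ) • T X a = _
  rw [degOp_apply hD X k a ha, hTa, smul_smul, ← add_smul]
  congr 1
  exact_mod_cast congrArg (fun z : ℤ => (z : ℂ)) hj

include hD in
theorem indep (T : D.Fam) (X : V) : iSupIndep (D.rdeg T X) := by
  have h1 : iSupIndep (NOp hD T X).eigenspace := Module.End.eigenspaces_iSupIndep _
  have h2 : iSupIndep fun j : ℕ => (NOp hD T X).eigenspace (j : ℂ) :=
    h1.comp Nat.cast_injective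
  exact h2.mono (fun j => rdeg_le hD T X j)

include hD in
theorem sup_top {d : ℕ} {T : D.Fam} (hd : 3 ≤ d) (hT : D.MotDer T) (hdiag : D.Diag T)
    (hs : D.Small d T) (X : V) : (⨆ j, D.rdeg T X j) = ⊤ := by
  rw [eq_top_iff, ← hdiag X]
  refine iSup_le fun μ => ?_
  intro a ha
  rw [Module.End.mem_eigenspace_iff] at ha
  obtain ⟨s, hsum⟩ := (toCoh hD).sum_proj (X := X) a
  rw [← hsum s (Finset.Subset.refl s)]
  refine Submodule.sum_mem _ fun k _ => ?_
  set b : D.H X := (toCoh hD).proj X k a with hb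
  have hbk : b ∈ D.deg X k := (toCoh hD).proj_mem k a
  have hTb : T X b = μ • b := by
    rw [hb, comm_proj hD hT, ha, map_smul]
  by_cases h0 : b = 0
  · rw [h0]; exact zero_mem _
  obtain ⟨m, hm, h1, _⟩ := hs X k b hbk h0 μ hTb
  have h2 : 0 ≤ (k : ℤ) + 2 * m := by
    have h3 : (3 : ℤ) * |m| ≤ (d : ℤ) * |m| :=
      mul_le_mul_of_nonneg_right (by exact_mod_cast hd) (abs_nonneg m)
    have h4 := neg_abs_le m
    have h5 := abs_nonneg m
    linarith
  refine Submodule.mem_iSup_of_mem ((k : ℤ) + 2 * m).toNat ?_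
  rw [rdeg_eq]
  refine Submodule.subset_span ⟨k, m, hbk, ?_, ?_⟩
  · rw [hTb, hm]
  · rw [Int.toNat_of_nonneg h2]

theorem mul_ind {X : V} (S₁ S₂ : Set (D.H X)) (Q : D.H X → D.H X → Prop)
    (h : ∀ a ∈ S₁, ∀ b ∈ S₂, Q a b)
    (hz1 : ∀ b, Q 0 b) (hz2 : ∀ a, Q a 0)
    (ha1 : ∀ a a' b, Q a b → Q a' b → Q (a + a') b)
    (ha2 : ∀ a b b', Q a b → Q a b' → Q a (b + b'))
    (hs1 : ∀ (c : ℂ) a b, Q a b → Q (c • a) b)
    (hs2 : ∀ (c : ℂ) a b, Q a b → Q a (c • b)) :
    ∀ a ∈ Submodule.span ℂ S₁, ∀ b ∈ Submodule.span ℂ S₂, Q a b := by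
  intro a ha b hb
  refine Submodule.span_induction (p := fun a _ => Q a b) ?_ (hz1 b)
    (fun x y _ _ hx hy => ha1 x y b hx hy) (fun c x _ hx => hs1 c x b hx) ha
  intro x hx
  exact Submodule.span_induction (p := fun b _ => Q x b) (fun y hy => h x hx y hy) (hz2 x)
    (fun y z _ _ hy hz => ha2 x y z hy hz) (fun c y _ hy => hs2 c x y hy) hb

include hD in
theorem mul_mem {T : D.Fam}
    (hL : ∀ (X : V) (a b : D.H X), T X (a * b) = T X a * b + a * T X b) (X : V) (i j : ℕ) :
    ∀ a ∈ D.rdeg T X i, ∀ b ∈ D.rdeg T X j, a * b ∈ D.rdeg T X (i + j) := by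
  rw [rdeg_eq, rdeg_eq]
  refine mul_ind _ _ (fun a b => a * b ∈ D.rdeg T X (i + j)) ?_ ?_ ?_ ?_ ?_ ?_ ?_
  · rintro a ⟨k, m, ha, hTa, hi⟩ b ⟨l, m', hb, hTb, hj⟩
    rw [rdeg_eq]
    refine Submodule.subset_span ⟨k + l, m + m', (toCoh hD).mul_deg ha hb, ?_, ?_⟩
    · rw [hL, hTa, hTb, smul_mul_assoc, mul_smul_comm, ← add_smul]
      congr 1
      push_cast
      rfl
    · push_cast
      linarith
  · intro b; rw [zero_mul]; exact zero_mem _
  · intro a; rw [mul_zero]; exact zero_mem _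
  · intro a a' b h1 h2; rw [add_mul]; exact add_mem h1 h2
  · intro a b b' h1 h2; rw [mul_add]; exact add_mem h1 h2
  · intro c a b h; rw [smul_mul_assoc]; exact Submodule.smul_mem _ _ h
  · intro c a b h; rw [mul_smul_comm]; exact Submodule.smul_mem _ _ h

theorem comm' (T : D.Fam) (X : V) (i j : ℕ) :
    ∀ a ∈ D.rdeg T X i, ∀ b ∈ D.rdeg T X j, a * b = (-1) ^ (i * j) * (b * a) := by
  rw [rdeg_eq, rdeg_eq]
  refine mul_ind _ _ (fun a b => a * b = (-1) ^ (i * j) * (b * a)) ?_ ?_ ?_ ?_ ?_ ?_ ?_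
  · rintro a ⟨k, m, ha, _, hi⟩ b ⟨l, m', hb, _, hj⟩
    rw [(D.R X).comm k l a b ha hb]
    congr 1
    have h1 : k % 2 = i % 2 := by omega
    have h2 : l % 2 = j % 2 := by omega
    rw [neg_one_pow_eq_pow_mod_two (n := k * l), neg_one_pow_eq_pow_mod_two (n := i * j)]
    congr 1
    rw [Nat.mul_mod, h1, h2, ← Nat.mul_mod]
  · intro b; rw [zero_mul, mul_zero, mul_zero]
  · intro a; rw [zero_mul, mul_zero, mul_zero]
  · intro a a' b h1 h2; rw [add_mul, mul_add, mul_add, h1, h2]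
  · intro a b b' h1 h2; rw [mul_add, add_mul, mul_add, h1, h2]
  · intro c a b h; rw [smul_mul_assoc, mul_smul_comm, mul_smul_comm, h]
  · intro c a b h; rw [smul_mul_assoc, mul_smul_comm, mul_smul_comm, h]

end GRAAux

open GRAAux WeilData

theorem blk_GRA {D : WeilData.{u, v, w, 0} V ℂ} (hD : D.IsWeil) : Stmt_BAS D → Stmt_GRA D := by
  intro hBAS d T hd hT hdiag hs
  have hL : ∀ (X : V) (a b : D.H X), T X (a * b) = T X a * b + a * T X b :=
    hBAS.2.2.2.2.1 T hT
  have hone : ∀ X : V, T X (1 : D.H X) = 0 := by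
    intro X
    have h := hL X 1 1
    rw [mul_one, one_mul, mul_one] at h
    exact left_eq_add.1 h
  have hint : ∀ X : V, DirectSum.IsInternal (D.rdeg T X) := fun X =>
    (DirectSum.isInternal_submodule_iff_iSupIndep_and_iSup_eq_top _).2
      ⟨indep hD T X, sup_top hD hd hT hdiag hs X⟩
  refine ⟨{ deg := D.rdeg T, grad := fun X => ?_, comm := ?_ }, fun X j => rfl⟩
  · exact
      { one_mem := by
          rw [rdeg_eq]
          refine Submodule.subset_span ⟨0, 0, (toCoh hD).one_deg, ?_, by norm_num⟩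
          rw [hone X, Int.cast_zero, zero_smul]
        mul_mem := fun {i j a b} ha hb => GRAAux.mul_mem hD hL X i j a ha b hb
        toDecomposition := (hint X).chooseDecomposition }
  · intro X i j a b ha hb
    exact comm' T X i j a ha b hb

end Pool.KC
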