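import Pool.Agent.Work.MP_a60482_exo.Interface

/-!
# Block REG: the regraded theory is a Weil cohomology theory
-/

open CategoryTheory MonoidalCategory CartesianMonoidalCategory

universe u v w x

namespace Pool.KC

variable {V : Type u} [Category.{v} V] [CartesianMonoidalCategory V]

namespace REGAux

open WeilData

variable {D : WeilData.{u, v, w, 0} V ℂ}

theorem rdeg_ind {T : D.Fam} {X : V} {j : ℕ} {Q : D.H X → Prop}
    (h : ∀ (a : D.H X) (k : ℕ) (m : ℤ), a ∈ D.deg X k → T X a = (m : ℂ) • a →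
      (k : ℤ) + 2 * m = j → Q a)
    (h0 : Q 0) (ha : ∀ a b, Q a → Q b → Q (a + b)) (hs : ∀ (c : ℂ) a, Q a → Q (c • a)) :
    ∀ a ∈ D.rdeg T X j, Q a := by
  intro a haj
  unfold rdeg at haj
  induction haj using Submodule.span_induction with
  | mem a hm =>
    obtain ⟨k, m, h1, h2, h3⟩ := hm
    exact h a k m h1 h2 h3
  | zero => exact h0
  | add a b _ _ h1 h2 => exact ha a b h1 h2
  | smul c a _ h1 => exact hs c a h1

theorem mem_rdeg {T : D.Fam} {X : V} {j k : ℕ} {m : ℤ} {a : D.H X} (h1 : a ∈ D.deg X k)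
    (h2 : T X a = (m : ℂ) • a) (h3 : (k : ℤ) + 2 * m = j) : a ∈ D.rdeg T X j :=
  Submodule.subset_span ⟨k, m, h1, h2, h3⟩

theorem mem_rdeg_zero {T : D.Fam} {X : V} {j : ℕ} {a : D.H X} (h1 : a ∈ D.deg X j)
    (h2 : T X a = 0) : a ∈ D.rdeg T X j := by
  refine mem_rdeg (m := 0) h1 ?_ (by simp)
  rw [h2, Int.cast_zero, zero_smul]

theorem comm_proj (hD : D.IsWeil) {T : D.Fam} (hT : D.MotDer T) (X : V) (k : ℕ) (a : D.H X) :
    T X ((toCoh hD).proj X k a) = (toCoh hD).proj X k (T X a) := by
  refine (toCoh hD).hind (X := X)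
    (P := fun a => T X ((toCoh hD).proj X k a) = (toCoh hD).proj X k (T X a)) ?_ ?_ ?_ a
  · rw [map_zero, map_zero, map_zero]
  · intro i a ha
    have hTa : T X a ∈ (toCoh hD).deg X i := hT.deg X i a ha
    by_cases hik : i = k
    · subst hik
      rw [(toCoh hD).proj_same ha, (toCoh hD).proj_same hTa]
    · rw [(toCoh hD).proj_ne ha hik, (toCoh hD).proj_ne hTa hik, map_zero]
  · intro a b ha hb
    rw [map_add, map_add, map_add, map_add, ha, hb]

/-- the eigenvalue of a nonzero eigenvector, in integers -/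
theorem small_int {d : ℕ} {T : D.Fam} (hs : D.Small d T) {X : V} {k : ℕ} {m : ℤ} {a : D.H X}
    (ha : a ∈ D.deg X k) (h0 : a ≠ 0) (hTa : T X a = (m : ℂ) • a) :
    (d : ℤ) * |m| ≤ k ∧ (d : ℤ) * |m| ≤ 2 * D.dim X - k := by
  obtain ⟨m', h1, h2, h3⟩ := hs X k a ha h0 m hTa
  have h4 : m = m' := by exact_mod_cast h1
  rw [h4]
  exact ⟨h2, h3⟩

theorem mul_abs_ge {d : ℕ} (hd : 3 ≤ d) (m : ℤ) : 3 * |m| ≤ (d : ℤ) * |m| :=
  mul_le_mul_of_nonneg_right (by exact_mod_cast hd) (abs_nonneg m)

theorem low_zero (hD : D.IsWeil) {d : ℕ} {T : D.Fam} (hT : D.MotDer T) (hdiag : D.Diag T)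
    (hs : D.Small d T) {X : V} {j : ℕ} (hj : j + 2 < d) {a : D.H X} (ha : a ∈ D.deg X j) :
    T X a = 0 := by
  have h1 : ∀ x : D.H X, T X ((toCoh hD).proj X j x) = 0 := by
    intro x
    have hx : x ∈ ⨆ μ : ℂ, Module.End.eigenspace (T X) μ := by
      rw [hdiag X]
      exact Submodule.mem_top
    refine Submodule.iSup_induction (fun μ : ℂ => Module.End.eigenspace (T X) μ)
      (motive := fun x => T X ((toCoh hD).proj X j x) = 0) hx ?_ ?_ ?_
    · intro μ y hy
      rw [Module.End.mem_eigenspace_iff] at hy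
      have hb : (toCoh hD).proj X j y ∈ D.deg X j := (toCoh hD).proj_mem j y
      have hTb : T X ((toCoh hD).proj X j y) = μ • (toCoh hD).proj X j y := by
        rw [comm_proj hD hT, hy, map_smul]
      by_cases h0 : (toCoh hD).proj X j y = 0
      · rw [h0, map_zero]
      obtain ⟨m, hm, h2, _⟩ := hs X j _ hb h0 μ hTb
      have h3 : m = 0 := by
        by_contra hne
        have h4 : 1 ≤ |m| := Int.one_le_abs hne
        have h5 : (d : ℤ) * 1 ≤ (d : ℤ) * |m| :=
          mul_le_mul_of_nonneg_left h4 (by positivity)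
        have h6 : (j : ℤ) + 2 < d := by exact_mod_cast hj
        linarith
      rw [hTb, hm, h3, Int.cast_zero, zero_smul]
    · rw [map_zero, map_zero]
    · intro x y hx hy
      rw [map_add, map_add, hx, hy, add_zero]
  have h2 := h1 a
  rwa [(toCoh hD).proj_same ha] at h2

theorem pull_axioms (hD : D.IsWeil) {T : D.Fam} {g : D.Regrading} (hT : D.MotDer T)
    (hg : ∀ (X : V) (j : ℕ), g.deg X j = D.rdeg T X j) : (D.regrade g).PullAxioms where
  id := hD.pull.id
  comp := hD.pull.comp
  deg := by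
    intro X Y f i a ha
    change D.pb f (a : D.H Y) ∈ g.deg X i
    have ha' : (a : D.H Y) ∈ D.rdeg T Y i := by
      rw [← hg]
      exact ha
    rw [hg]
    refine rdeg_ind (D := D) (T := T) (X := Y) (j := i) (Q := fun a => D.pb f a ∈ D.rdeg T X i)
      ?_ ?_ ?_ ?_ a ha'
    · intro a k m h1 h2 h3
      refine mem_rdeg (hD.pull.deg _ _ f _ _ h1) ?_ h3
      rw [hT.pull, h2]
      exact map_smul (D.pull f) _ _
    · have : D.pb f (0 : D.H Y) = 0 := map_zero (D.pull f)
      rw [this]
      exact zero_mem _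
    · intro a b h1 h2
      have : D.pb f (a + b) = D.pb f a + D.pb f b := map_add (D.pull f) a b
      rw [this]
      exact add_mem h1 h2
    · intro c a h1
      have : D.pb f (c • a) = c • D.pb f a := map_smul (D.pull f) c a
      rw [this]
      exact Submodule.smul_mem _ _ h1

theorem trace_axioms (hD : D.IsWeil) {d : ℕ} {T : D.Fam} {g : D.Regrading} (hd : 3 ≤ d)
    (hs : D.Small d T) (hg : ∀ (X : V) (j : ℕ), g.deg X j = D.rdeg T X j) :
    (D.regrade g).TraceAxioms where
  deg := by
    intro X i a ha hi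
    change D.int (a : D.H X) = 0
    change i ≠ 2 * D.dim X at hi
    have ha' : (a : D.H X) ∈ D.rdeg T X i := by
      rw [← hg]
      exact ha
    refine rdeg_ind (D := D) (T := T) (X := X) (j := i) (Q := fun a => D.int a = 0)
      ?_ ?_ ?_ ?_ a ha'
    · intro a k m h1 h2 h3
      by_cases hk : k = 2 * D.dim X
      · by_cases h0 : a = 0
        · rw [h0]
          exact map_zero (D.tr X)
        exfalso
        obtain ⟨_, h5⟩ := small_int hs h1 h0 h2
        have h6 := mul_abs_ge hd m
        have h7 := abs_nonneg m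
        have h8 : |m| = 0 := by
          have : (k : ℤ) = 2 * D.dim X := by exact_mod_cast hk
          omega
        have h9 : m = 0 := abs_eq_zero.1 h8
        apply hi
        omega
      · exact hD.trace.deg X k a h1 hk
    · exact map_zero (D.tr X)
    · intro a b h1 h2
      have : D.int (a + b) = D.int a + D.int b := map_add (D.tr X) a b
      rw [this, h1, h2, add_zero]
    · intro c a h1
      have : D.int (c • a) = c * D.int a := map_smul (D.tr X) c a
      rw [this, h1, mul_zero]
  duality := hD.trace.duality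
  cross := hD.trace.cross
  iso := hD.trace.iso

theorem cycle_axioms (hD : D.IsWeil) {T : D.Fam} {g : D.Regrading} (hT : D.MotDer T)
    (hg : ∀ (X : V) (j : ℕ), g.deg X j = D.rdeg T X j) : (D.regrade g).CycleAxioms where
  deg := by
    intro X i
    change (D.C X i : Submodule ℂ (D.H X)) ≤ g.deg X (2 * i)
    rw [hg]
    intro a ha
    exact mem_rdeg_zero (hD.cycle.deg X i ha) (hT.alg X i a ha)
  one := hD.cycle.one
  mul := hD.cycle.mul

end REGAux

open REGAux WeilData

theorem blk_REG {D : WeilData.{u, v, w, 0} V ℂ} (hD : D.IsWeil) (hcon : D.Connected) :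
    Stmt_BAS D → Stmt_REG D := by
  intro _ d T g hd hT hdiag hs hg
  refine ⟨⟨pull_axioms hD hT hg, ?_, trace_axioms hD hd hs hg, cycle_axioms hD hT hg, ?_, ?_⟩,
    ?_, ?_⟩
  · exact ⟨hD.kunneth.dim, hD.kunneth.span, hD.kunneth.finrank, hD.kunneth.push⟩
  · exact ⟨hD.functor.pull, hD.functor.push⟩
  · exact ⟨hD.diagonal.mem, hD.diagonal.spec⟩
  · intro X a ha
    change ∃ c : ℂ, (a : D.H X) = c • (1 : D.H X)
    have ha' : (a : D.H X) ∈ D.rdeg T X 0 := by
      rw [← hg]
      exact ha
    refine rdeg_ind (D := D) (T := T) (X := X) (j := 0)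
      (Q := fun a => ∃ c : ℂ, a = c • (1 : D.H X)) ?_ ?_ ?_ ?_ a ha'
    · intro a k m h1 h2 h3
      by_cases h0 : a = 0
      · exact ⟨0, by rw [h0, zero_smul]⟩
      obtain ⟨h4, _⟩ := small_int hs h1 h0 h2
      have h6 := mul_abs_ge hd m
      have h7 := abs_nonneg m
      have h8 := neg_abs_le m
      have h9 : k = 0 := by
        push_cast at h3
        omega
      subst h9
      exact hcon X a h1
    · exact ⟨0, by rw [zero_smul]⟩
    · rintro a b ⟨c, h1⟩ ⟨e, h2⟩
      exact ⟨c + e, by rw [h1, h2, add_smul]⟩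
    · rintro c a ⟨e, h1⟩
      exact ⟨c * e, by rw [h1, smul_smul]⟩
  · intro X j hj
    rw [hg]
    apply le_antisymm
    · intro a ha
      refine rdeg_ind (D := D) (T := T) (X := X) (j := j) (Q := fun a => a ∈ D.deg X j)
        ?_ (zero_mem _) (fun a b h1 h2 => add_mem h1 h2)
        (fun c a h1 => Submodule.smul_mem _ c h1) a ha
      intro a k m h1 h2 h3
      by_cases h0 : a = 0
      · rw [h0]
        exact zero_mem _
      obtain ⟨h4, _⟩ := small_int hs h1 h0 h2
      have h5 : m = 0 := by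
        by_contra hne
        have h6 : 1 ≤ |m| := Int.one_le_abs hne
        have h7 : (j : ℤ) + 2 < d := by exact_mod_cast hj
        have h8 := neg_abs_le m
        have h9 : ((d : ℤ) - 2) * 1 ≤ ((d : ℤ) - 2) * |m| :=
          mul_le_mul_of_nonneg_left h6 (by omega)
        have h10 : ((d : ℤ) - 2) * |m| = d * |m| - 2 * |m| := by ring
        linarith
      have h6 : k = j := by
        rw [h5] at h3
        omega
      rw [← h6]
      exact h1
    · intro a ha
      exact mem_rdeg_zero ha (low_zero hD hT hdiag hs hj ha)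

end Pool.KC
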