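import Pool.Agent.Work.MP_a60482_exo.Interface

/-! Block BAS: elementary properties of `MotDer`. -/

open CategoryTheory MonoidalCategory CartesianMonoidalCategory

universe u v w x

namespace Pool.KC

namespace BASAux

variable {V : Type u} [Category.{v} V] [CartesianMonoidalCategory V]
variable {D : WeilData.{u, v, w, 0} V ℂ}

theorem pb_add {X Y : V} (f : X ⟶ Y) (a b : D.H Y) : D.pb f (a + b) = D.pb f a + D.pb f b :=
  map_add (D.pull f) a b

theorem pb_sub {X Y : V} (f : X ⟶ Y) (a b : D.H Y) : D.pb f (a - b) = D.pb f a - D.pb f b :=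
  map_sub (D.pull f) a b

theorem pb_mul {X Y : V} (f : X ⟶ Y) (a b : D.H Y) : D.pb f (a * b) = D.pb f a * D.pb f b :=
  map_mul (D.pull f) a b

theorem pb_smul {X Y : V} (f : X ⟶ Y) (c : ℂ) (a : D.H Y) : D.pb f (c • a) = c • D.pb f a :=
  map_smul (D.pull f) c a

theorem pb_zero {X Y : V} (f : X ⟶ Y) : D.pb f (0 : D.H Y) = 0 :=
  map_zero (D.pull f)

theorem int_add {X : V} (a b : D.H X) : D.int (a + b) = D.int a + D.int b :=
  map_add (D.tr X) a b

theorem int_sub {X : V} (a b : D.H X) : D.int (a - b) = D.int a - D.int b :=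
  map_sub (D.tr X) a b

theorem int_smul {X : V} (c : ℂ) (a : D.H X) : D.int (c • a) = c * D.int a :=
  map_smul (D.tr X) c a

theorem int_zero {X : V} : D.int (0 : D.H X) = 0 := map_zero (D.tr X)

theorem pf_add {X Y : V} (a b : D.H (X ⊗ Y)) : D.pf (a + b) = D.pf a + D.pf b :=
  map_add (D.push X Y) a b

theorem pf_smul {X Y : V} (c : ℂ) (a : D.H (X ⊗ Y)) : D.pf (c • a) = c • D.pf a :=
  map_smul (D.push X Y) c a

theorem pf_zero {X Y : V} : D.pf (0 : D.H (X ⊗ Y)) = 0 := map_zero (D.push X Y)

theorem cross_add_left {X Y : V} (a b : D.H X) (c : D.H Y) :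
    D.cross (a + b) c = D.cross a c + D.cross b c := by
  unfold WeilData.cross
  rw [pb_add, add_mul]

theorem cross_add_right {X Y : V} (a : D.H X) (b c : D.H Y) :
    D.cross a (b + c) = D.cross a b + D.cross a c := by
  unfold WeilData.cross
  rw [pb_add, mul_add]

theorem cross_sub_left {X Y : V} (a b : D.H X) (c : D.H Y) :
    D.cross (a - b) c = D.cross a c - D.cross b c := by
  unfold WeilData.cross
  rw [pb_sub, sub_mul]

theorem cross_sub_right {X Y : V} (a : D.H X) (b c : D.H Y) :
    D.cross a (b - c) = D.cross a b - D.cross a c := by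
  unfold WeilData.cross
  rw [pb_sub, mul_sub]

theorem cross_smul_left {X Y : V} (t : ℂ) (a : D.H X) (c : D.H Y) :
    D.cross (t • a) c = t • D.cross a c := by
  unfold WeilData.cross
  rw [pb_smul, smul_mul_assoc]

theorem cross_smul_right {X Y : V} (t : ℂ) (a : D.H X) (c : D.H Y) :
    D.cross a (t • c) = t • D.cross a c := by
  unfold WeilData.cross
  rw [pb_smul, mul_smul_comm]

theorem cross_zero_left {X Y : V} (c : D.H Y) : D.cross (0 : D.H X) c = 0 := by
  unfold WeilData.cross
  rw [pb_zero, zero_mul]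

theorem cross_zero_right {X Y : V} (a : D.H X) : D.cross a (0 : D.H Y) = 0 := by
  unfold WeilData.cross
  rw [pb_zero, mul_zero]

theorem cross_ind (hD : D.IsWeil) {X Y : V} {p : D.H (X ⊗ Y) → Prop}
    (h1 : ∀ a b, p (D.cross a b)) (h2 : ∀ z z', p z → p z' → p (z + z')) (z : D.H (X ⊗ Y)) :
    p z := by
  have hz : z ∈ Submodule.span ℂ {t | ∃ (a : D.H X) (b : D.H Y), D.cross a b = t} := by
    rw [hD.kunneth.span X Y]
    exact Submodule.mem_top
  have h0 : p 0 := by
    have := h1 (0 : D.H X) (0 : D.H Y)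
    rwa [cross_zero_left] at this
  have h3 : ∀ c : ℂ, p (c • z) := by
    induction hz using Submodule.span_induction with
    | mem z hz =>
      obtain ⟨a, b, rfl⟩ := hz
      intro c
      rw [← cross_smul_left]
      exact h1 _ _
    | zero =>
      intro c
      rw [smul_zero]
      exact h0
    | add z z' _ _ hz hz' =>
      intro c
      rw [smul_add]
      exact h2 _ _ (hz c) (hz' c)
    | smul e z _ hz =>
      intro c
      rw [smul_smul]
      exact hz _
  have := h3 1
  rwa [one_smul] at this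

theorem mot_zero : D.MotDer 0 where
  deg X i a _ := by
    change (0 : D.H X) ∈ _
    exact zero_mem _
  pull X Y f a := by
    change (0 : D.H X) = D.pb f (0 : D.H Y)
    rw [pb_zero]
  cross X Y a b := by
    change (0 : D.H (X ⊗ Y)) = D.cross (0 : D.H X) b + D.cross a (0 : D.H Y)
    rw [cross_zero_left, cross_zero_right, add_zero]
  alg X i a _ := rfl
  int X a := int_zero

theorem mot_add (T S : D.Fam) (hT : D.MotDer T) (hS : D.MotDer S) : D.MotDer (T + S) where
  deg X i a ha := by
    change T X a + S X a ∈ _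
    exact add_mem (hT.deg X i a ha) (hS.deg X i a ha)
  pull X Y f a := by
    change T X (D.pb f a) + S X (D.pb f a) = D.pb f (T Y a + S Y a)
    rw [hT.pull, hS.pull, pb_add]
  cross X Y a b := by
    change T (X ⊗ Y) (D.cross a b) + S (X ⊗ Y) (D.cross a b) =
      D.cross (T X a + S X a) b + D.cross a (T Y b + S Y b)
    rw [hT.cross, hS.cross, cross_add_left, cross_add_right]
    abel
  alg X i a ha := by
    change T X a + S X a = 0
    rw [hT.alg X i a ha, hS.alg X i a ha, add_zero]
  int X a := by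
    change D.int (T X a + S X a) = 0
    rw [int_add, hT.int, hS.int, add_zero]

theorem mot_smul (c : ℂ) (T : D.Fam) (hT : D.MotDer T) : D.MotDer (c • T) where
  deg X i a ha := by
    change c • T X a ∈ _
    exact Submodule.smul_mem _ _ (hT.deg X i a ha)
  pull X Y f a := by
    change c • T X (D.pb f a) = D.pb f (c • T Y a)
    rw [hT.pull, pb_smul]
  cross X Y a b := by
    change c • T (X ⊗ Y) (D.cross a b) = D.cross (c • T X a) b + D.cross a (c • T Y b)
    rw [hT.cross, cross_smul_left, cross_smul_right, smul_add]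
  alg X i a ha := by
    change c • T X a = 0
    rw [hT.alg X i a ha, smul_zero]
  int X a := by
    change D.int (c • T X a) = 0
    rw [int_smul, hT.int, mul_zero]

theorem mot_comm (T S : D.Fam) (hT : D.MotDer T) (hS : D.MotDer S) :
    D.MotDer (T * S - S * T) where
  deg X i a ha := by
    change T X (S X a) - S X (T X a) ∈ _
    exact sub_mem (hT.deg X i _ (hS.deg X i a ha)) (hS.deg X i _ (hT.deg X i a ha))
  pull X Y f a := by
    change T X (S X (D.pb f a)) - S X (T X (D.pb f a)) = D.pb f (T Y (S Y a) - S Y (T Y a))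
    rw [hT.pull, hS.pull, hT.pull, hS.pull, pb_sub]
  cross X Y a b := by
    change T (X ⊗ Y) (S (X ⊗ Y) (D.cross a b)) - S (X ⊗ Y) (T (X ⊗ Y) (D.cross a b)) =
      D.cross (T X (S X a) - S X (T X a)) b + D.cross a (T Y (S Y b) - S Y (T Y b))
    rw [hT.cross, hS.cross, map_add, map_add, hT.cross, hT.cross, hS.cross, hS.cross,
      cross_sub_left, cross_sub_right]
    abel
  alg X i a ha := by
    change T X (S X a) - S X (T X a) = 0
    rw [hT.alg X i a ha, hS.alg X i a ha, map_zero, map_zero, sub_zero]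
  int X a := by
    change D.int (T X (S X a) - S X (T X a)) = 0
    rw [int_sub, hT.int, hS.int, sub_zero]

theorem mul_eq (hD : D.IsWeil) {X : V} (a b : D.H X) :
    D.pb (lift (𝟙 X) (𝟙 X)) (D.cross a b) = a * b := by
  unfold WeilData.cross
  rw [pb_mul, ← hD.pull.comp, ← hD.pull.comp, lift_fst, lift_snd, hD.pull.id, hD.pull.id]

theorem leibniz (hD : D.IsWeil) (T : D.Fam) (hT : D.MotDer T) (X : V) (a b : D.H X) :
    T X (a * b) = T X a * b + a * T X b := by
  rw [← mul_eq hD a b, hT.pull, hT.cross, pb_add, mul_eq hD, mul_eq hD]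

theorem pf_comm (hD : D.IsWeil) (T : D.Fam) (hT : D.MotDer T) (X Y : V) (z : D.H (X ⊗ Y)) :
    T Y (D.pf z) = D.pf (T (X ⊗ Y) z) := by
  refine cross_ind hD (p := fun z => T Y (D.pf z) = D.pf (T (X ⊗ Y) z)) ?_ ?_ z
  · intro a b
    rw [hD.kunneth.push, map_smul, hT.cross, pf_add, hD.kunneth.push, hD.kunneth.push, hT.int,
      zero_smul, zero_add]
  · intro z z' h1 h2
    rw [pf_add, map_add, h1, h2, map_add, pf_add]

theorem act_comm (hD : D.IsWeil) (T : D.Fam) (hT : D.MotDer T) (X Y : V) (z : D.H (X ⊗ Y))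
    (a : D.H X) (hz : T (X ⊗ Y) z = 0) : T Y (D.act z a) = D.act z (T X a) := by
  unfold WeilData.act
  rw [pf_comm hD T hT, leibniz hD T hT, hz, mul_zero, add_zero, hT.pull]

end BASAux

variable {V : Type u} [Category.{v} V] [CartesianMonoidalCategory V]
variable {D : WeilData.{u, v, w, 0} V ℂ}

open BASAux in
theorem blk_BAS (hD : D.IsWeil) : Stmt_BAS D :=
  ⟨mot_zero, mot_add, mot_smul, mot_comm, leibniz hD, pf_comm hD, act_comm hD⟩

end Pool.KC
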