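import Pool.Agent.Work.MP_a60482_exo.Interface2

/-!
# Block CNJ
-/

open CategoryTheory MonoidalCategory CartesianMonoidalCategory

universe u v w x

namespace Pool.KC

variable {V : Type u} [Category.{v} V] [CartesianMonoidalCategory V]

namespace CNJAux

variable {D : WeilData.{u, v, w, 0} V ℂ} {P : HodgeTheory D}

/-- every class is a complex combination of rational ones -/
theorem rat_ind (hr : P.RatAxioms) {X : V} {p : D.H X → Prop}
    (h0 : ∀ (c : ℂ), ∀ x ∈ P.rat X, p (c • x)) (h1 : ∀ a b, p a → p b → p (a + b))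
    (a : D.H X) : p a := by
  obtain ⟨n, b, hb⟩ := hr.basis X
  have hz : p 0 := by
    have := h0 0 0 (P.rat X).zero_mem
    rwa [smul_zero] at this
  have hbm : ∀ i, b i ∈ P.rat X := by
    intro i
    rw [hb]
    intro j
    rw [Module.Basis.repr_self, Finsupp.single_apply]
    split_ifs
    · exact ⟨1, by simp⟩
    · exact ⟨0, by simp⟩
  rw [← b.sum_repr a]
  have key : ∀ s : Finset (Fin n), p (∑ i ∈ s, b.repr a i • b i) := by
    intro s
    induction s using Finset.induction_on with
    | empty => rw [Finset.sum_empty]; exact hz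
    | insert i s hi ih =>
      rw [Finset.sum_insert hi]
      exact h1 _ _ (h0 _ _ (hbm i)) ih
  exact key Finset.univ

theorem int_smul {X : V} (c : ℂ) (a : D.H X) : D.int (c • a) = c * D.int a :=
  (map_smul (D.tr X) c a).trans (smul_eq_mul _ _)

theorem int_add {X : V} (a b : D.H X) : D.int (a + b) = D.int a + D.int b :=
  map_add (D.tr X) a b

theorem pb_smul {X Y : V} (f : X ⟶ Y) (c : ℂ) (a : D.H Y) : D.pb f (c • a) = c • D.pb f a :=
  map_smul (D.pull f) c a

theorem pb_add {X Y : V} (f : X ⟶ Y) (a b : D.H Y) : D.pb f (a + b) = D.pb f a + D.pb f b :=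
  map_add (D.pull f) a b

theorem bar_rat (hr : P.RatAxioms) {X : V} (c : ℂ) {x : D.H X} (hx : x ∈ P.rat X) :
    P.bar X (c • x) = starRingEnd ℂ c • x := by
  rw [LinearMap.map_smulₛₗ, hr.bar X x hx]

end CNJAux

open CNJAux in
theorem blk_CNJ {D : WeilData.{u, v, w, 0} V ℂ} {P : HodgeTheory D} (_hD : D.IsWeil)
    (hr : P.RatAxioms) (_h : P.toHodgeData.HodgeAxioms) : P.toHodgeData.ConjAxioms := by
  constructor
  · intro X a
    refine rat_ind hr (p := fun a => P.bar X (P.bar X a) = a) ?_ ?_ a
    · intro c x hx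
      rw [bar_rat hr c hx, bar_rat hr _ hx, Complex.conj_conj]
    · intro a b ha hb
      rw [map_add, map_add, ha, hb]
  · intro X a b
    refine rat_ind hr (p := fun a => P.bar X (a * b) = P.bar X a * P.bar X b) ?_ ?_ a
    · intro c x hx
      refine rat_ind hr (p := fun b => P.bar X (c • x * b) = P.bar X (c • x) * P.bar X b) ?_ ?_ b
      · intro d y hy
        rw [smul_mul_smul_comm, bar_rat hr _ (hr.mul X x hx y hy), bar_rat hr _ hx,
          bar_rat hr _ hy, smul_mul_smul_comm, map_mul]
      · intro b b' hb hb'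
        rw [mul_add, map_add, map_add, mul_add, hb, hb']
    · intro a a' ha ha'
      rw [add_mul, map_add, map_add, add_mul, ha, ha']
  · intro X Y f a
    refine rat_ind hr (p := fun a => P.bar X (D.pb f a) = D.pb f (P.bar Y a)) ?_ ?_ a
    · intro c x hx
      rw [pb_smul, bar_rat hr _ (hr.pull X Y f x hx), bar_rat hr _ hx, pb_smul]
    · intro a a' ha ha'
      rw [pb_add, map_add, map_add, pb_add, ha, ha']
  · intro X a
    refine rat_ind hr (p := fun a => D.int (P.bar X a) = starRingEnd ℂ (D.int a)) ?_ ?_ a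
    · intro c x hx
      obtain ⟨q, hq⟩ := hr.int X x hx
      rw [bar_rat hr _ hx, int_smul, int_smul, hq, map_mul]
      congr 1
      exact (Complex.conj_ofReal (q : ℝ)).symm.trans (by simp)
    · intro a a' ha ha'
      rw [map_add, int_add, int_add, map_add, ha, ha']
  · intro X i a ha
    have h1 := hr.alg X i ha
    induction h1 using Submodule.span_induction with
    | mem x hx => rw [hr.bar X x hx.2]; exact hx.1
    | zero => rw [map_zero]; exact zero_mem _
    | add x y hx hy ihx ihy =>
      rw [map_add]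
      have hle : Submodule.span ℂ {x | x ∈ D.C X i ∧ x ∈ P.rat X} ≤ D.C X i := by
        rw [Submodule.span_le]
        exact fun x hx => hx.1
      exact add_mem (ihx (hle hx)) (ihy (hle hy))
    | smul c x hx ih =>
      have hle : Submodule.span ℂ {x | x ∈ D.C X i ∧ x ∈ P.rat X} ≤ D.C X i := by
        rw [Submodule.span_le]
        exact fun x hx => hx.1
      rw [LinearMap.map_smulₛₗ]
      exact Submodule.smul_mem _ _ (ih (hle hx))

end Pool.KC
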