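import Pool.Agent.Work.MP_a60482_exo.Interface

/-!
# Block EIG
-/

open CategoryTheory MonoidalCategory CartesianMonoidalCategory

universe u v w x

namespace Pool.KC

variable {V : Type u} [Category.{v} V] [CartesianMonoidalCategory V]

namespace EIGAux

variable {D : WeilData.{u, v, w, 0} V ℂ} {P : HodgeData D}

open HodgeData

theorem int_add {X : V} (a b : D.H X) : D.int (a + b) = D.int a + D.int b := map_add (D.tr X) a b

theorem int_smul {X : V} (c : ℂ) (a : D.H X) : D.int (c • a) = c * D.int a :=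
  (map_smul (D.tr X) c a).trans (smul_eq_mul _ _)

theorem int_zero {X : V} : D.int (0 : D.H X) = 0 := map_zero (D.tr X)

/-- the trace of a product of classes of types `(p, q)`, `(r, s)` -/
theorem int_type (hD : D.IsWeil) (h : P.HodgeAxioms) {X : V} {p q r s : ℕ} {a b : D.H X}
    (ha : a ∈ P.hodge X p q) (hb : b ∈ P.hodge X r s)
    (hne : p + r ≠ q + s ∨ p + r + (q + s) ≠ 2 * D.dim X) : D.int (a * b) = 0 := by
  have hab := h.mul X p q r s a ha b hb
  rcases hne with hne | hne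
  · exact h.int X _ _ hne _ hab
  · exact hD.trace.deg X _ _ (h.deg X _ _ hab) hne

/-- projection to the part of type `(p, q)` -/
noncomputable def pj (h : P.HodgeAxioms) (p q : ℕ) : D.Fam :=
  P.hop h fun r s => if r = p ∧ s = q then 1 else 0

theorem pj_same (h : P.HodgeAxioms) {X : V} {p q : ℕ} {a : D.H X} (ha : a ∈ P.hodge X p q) :
    pj h p q X a = a := by
  unfold pj
  rw [hop_apply h _ ha, if_pos ⟨rfl, rfl⟩, one_smul]

theorem pj_ne (h : P.HodgeAxioms) {X : V} {p q r s : ℕ} {a : D.H X} (ha : a ∈ P.hodge X r s)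
    (hne : ¬ (r = p ∧ s = q)) : pj h p q X a = 0 := by
  unfold pj
  rw [hop_apply h _ ha, if_neg hne, zero_smul]

theorem pj_mem (h : P.HodgeAxioms) {X : V} (p q : ℕ) (a : D.H X) :
    pj h p q X a ∈ P.hodge X p q := by
  refine hodge_ind h (p := fun a => pj h p q X a ∈ P.hodge X p q) ?_ ?_ a
  · intro r s a ha
    by_cases hrs : r = p ∧ s = q
    · obtain ⟨rfl, rfl⟩ := hrs
      rw [pj_same h ha]
      exact ha
    · rw [pj_ne h ha hrs]
      exact zero_mem _
  · intro a b ha hb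
    rw [map_add]
    exact add_mem ha hb

theorem pj_sum (h : P.HodgeAxioms) {X : V} (a : D.H X) :
    ∃ S : Finset (ℕ × ℕ), ∀ S' : Finset (ℕ × ℕ), S ⊆ S' →
      ∑ i ∈ S', pj h i.1 i.2 X a = a := by
  classical
  refine hodge_ind h (p := fun a => ∃ S : Finset (ℕ × ℕ), ∀ S' : Finset (ℕ × ℕ), S ⊆ S' →
      ∑ i ∈ S', pj h i.1 i.2 X a = a) ?_ ?_ a
  · intro r s a ha
    refine ⟨{(r, s)}, fun S' hS' => ?_⟩
    rw [Finset.sum_eq_single (r, s)]
    · exact pj_same h ha
    · rintro ⟨p, q⟩ _ hne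
      refine pj_ne h ha ?_
      rintro ⟨rfl, rfl⟩
      exact hne rfl
    · intro hn
      exact absurd (hS' (Finset.mem_singleton_self _)) hn
  · rintro a b ⟨S, hS⟩ ⟨S', hS'⟩
    refine ⟨S ∪ S', fun S'' h'' => ?_⟩
    simp only [map_add, Finset.sum_add_distrib]
    rw [hS _ (Finset.union_subset_left h''), hS' _ (Finset.union_subset_right h'')]

theorem exists_pj (h : P.HodgeAxioms) {X : V} {a : D.H X} (ha : a ≠ 0) :
    ∃ p q, pj h p q X a ≠ 0 := by
  by_contra hcon
  push Not at hcon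
  obtain ⟨S, hS⟩ := pj_sum h a
  apply ha
  rw [← hS S (Finset.Subset.refl _)]
  exact Finset.sum_eq_zero fun i _ => hcon _ _

theorem pj_hodgeOp (h : P.HodgeAxioms) {X : V} (p q : ℕ) (a : D.H X) :
    pj h p q X (P.hodgeOp h X a) = ((p : ℂ) - q) • pj h p q X a := by
  refine hodge_ind h
    (p := fun a => pj h p q X (P.hodgeOp h X a) = ((p : ℂ) - q) • pj h p q X a) ?_ ?_ a
  · intro r s a ha
    rw [hodgeOp_apply h ha, map_smul]
    by_cases hrs : r = p ∧ s = q
    · obtain ⟨rfl, rfl⟩ := hrs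
      rfl
    · rw [pj_ne h ha hrs, smul_zero, smul_zero]
  · intro a b ha hb
    rw [map_add, map_add, map_add, ha, hb, smul_add]

/-- no classes of type `(p, q)` with `p > n` or `q > n` -/
theorem type_le (hD : D.IsWeil) (h : P.HodgeAxioms) {X : V} {p q : ℕ} {a : D.H X}
    (ha : a ∈ P.hodge X p q) (h0 : a ≠ 0) : p ≤ D.dim X ∧ q ≤ D.dim X := by
  by_contra hcon
  apply h0
  apply hD.trace.duality X a
  intro b
  refine hodge_ind h (p := fun b => D.int (b * a) = 0) ?_ ?_ b
  · intro r s b hb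
    refine int_type hD h hb ha ?_
    omega
  · intro b c hb hc
    rw [add_mul, int_add, hb, hc, add_zero]

end EIGAux

open EIGAux in
theorem blk_EIG {D : WeilData.{u, v, w, 0} V ℂ} {P : HodgeData D} (hD : D.IsWeil)
    (h : P.HodgeAxioms) : Stmt_HPA P h → Stmt_EIG P h := by
  rintro ⟨-, -, h3, -⟩ X k a ha ha0 μ hμ
  obtain ⟨p, q, hpq⟩ := exists_pj h ha0
  have hk : p + q = k := by
    by_contra hne
    apply hpq
    refine h3 X k (fun a => pj h p q X a = 0) ?_ ?_ (map_zero _) a ha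
    · intro r s hrs a ha
      exact pj_ne h ha (by rintro ⟨rfl, rfl⟩; exact hne hrs)
    · intro a b ha hb
      rw [map_add, ha, hb, add_zero]
  obtain ⟨hp, hq⟩ := type_le hD h (pj_mem h p q a) hpq
  have h1 := pj_hodgeOp h p q a
  rw [hμ, map_smul] at h1
  have h2 : μ = (p : ℂ) - q := smul_left_injective ℂ hpq h1
  have h4 : μ.re = (p : ℝ) - q := by rw [h2]; simp
  rw [h4]
  have hk' : (p : ℝ) + q = k := by exact_mod_cast hk
  have hp' : (p : ℝ) ≤ D.dim X := by exact_mod_cast hp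
  have hq' : (q : ℝ) ≤ D.dim X := by exact_mod_cast hq
  have hp0 : (0 : ℝ) ≤ p := Nat.cast_nonneg p
  have hq0 : (0 : ℝ) ≤ q := Nat.cast_nonneg q
  constructor
  · rw [abs_le]
    constructor <;> linarith
  · rw [abs_le]
    constructor <;> linarith

end Pool.KC
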