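import Pool.Agent.Work.MP_a60482_exo.Interface

/-! Block HPA: elementary properties of operators diagonal for the Hodge decomposition. -/

open CategoryTheory MonoidalCategory CartesianMonoidalCategory

universe u v w x

namespace Pool.KC

namespace HPAAux

variable {V : Type u} [Category.{v} V] [CartesianMonoidalCategory V]
variable {D : WeilData.{u, v, w, 0} V ℂ} {P : HodgeData D}

theorem pb_add {X Y : V} (f : X ⟶ Y) (a b : D.H Y) : D.pb f (a + b) = D.pb f a + D.pb f b :=
  map_add (D.pull f) a b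

theorem pb_smul {X Y : V} (f : X ⟶ Y) (c : ℂ) (a : D.H Y) : D.pb f (c • a) = c • D.pb f a :=
  map_smul (D.pull f) c a

theorem int_add {X : V} (a b : D.H X) : D.int (a + b) = D.int a + D.int b :=
  map_add (D.tr X) a b

theorem int_smul {X : V} (c : ℂ) (a : D.H X) : D.int (c • a) = c * D.int a :=
  map_smul (D.tr X) c a

theorem int_zero {X : V} : D.int (0 : D.H X) = 0 := map_zero (D.tr X)

/-- the part of degree `k` of a class -/
noncomputable def prj (X : V) (k : ℕ) : D.H X →ₗ[ℂ] D.H X := GradedAlgebra.proj (D.R X).deg k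

theorem prj_same {X : V} {k : ℕ} {a : D.H X} (ha : a ∈ D.deg X k) : prj X k a = a := by
  unfold prj
  rw [GradedAlgebra.proj_apply]
  exact DirectSum.decompose_of_mem_same _ ha

theorem prj_ne {X : V} {i k : ℕ} {a : D.H X} (ha : a ∈ D.deg X i) (hik : i ≠ k) :
    prj X k a = 0 := by
  unfold prj
  rw [GradedAlgebra.proj_apply]
  exact DirectSum.decompose_of_mem_ne _ ha hik

theorem deg_ind (h : P.HodgeAxioms) (X : V) (k : ℕ) (p : D.H X → Prop)
    (h1 : ∀ r s : ℕ, r + s = k → ∀ a ∈ P.hodge X r s, p a)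
    (h2 : ∀ a b, p a → p b → p (a + b)) (h0 : p 0) (a : D.H X) (ha : a ∈ D.deg X k) : p a := by
  have hall : ∀ a : D.H X, p (prj X k a) := by
    intro a
    refine HodgeData.hodge_ind (P := P) h (p := fun a => p (prj X k a)) ?_ ?_ a
    · intro r s b hb
      have hd := h.deg X r s hb
      by_cases hk : r + s = k
      · have hd' : b ∈ D.deg X k := by rwa [← hk]
        rw [prj_same hd']
        exact h1 r s hk b hb
      · rw [prj_ne hd hk]
        exact h0
    · intro a b ha hb
      rw [map_add]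
      exact h2 _ _ ha hb
  have := hall a
  rwa [prj_same ha] at this

theorem hop_mul (h : P.HodgeAxioms) (φ : ℕ → ℕ → ℂ)
    (hφ : ∀ p q p' q', φ (p + p') (q + q') = φ p q * φ p' q') (X : V) (a b : D.H X) :
    P.hop h φ X (a * b) = P.hop h φ X a * P.hop h φ X b := by
  refine HodgeData.hodge_ind (P := P) h
    (p := fun a => P.hop h φ X (a * b) = P.hop h φ X a * P.hop h φ X b) ?_ ?_ a
  · intro r s a ha
    refine HodgeData.hodge_ind (P := P) h
      (p := fun b => P.hop h φ X (a * b) = P.hop h φ X a * P.hop h φ X b) ?_ ?_ b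
    · intro r' s' b hb
      rw [HodgeData.hop_apply h φ (h.mul X r s r' s' a ha b hb), HodgeData.hop_apply h φ ha,
        HodgeData.hop_apply h φ hb, hφ, smul_mul_smul_comm]
    · intro b b' hb hb'
      rw [mul_add, map_add, hb, hb', map_add, mul_add]
  · intro a a' ha ha'
    rw [add_mul, map_add, ha, ha', map_add, add_mul]

theorem hop_pb (h : P.HodgeAxioms) (φ : ℕ → ℕ → ℂ) (X Y : V) (f : X ⟶ Y) (a : D.H Y) :
    P.hop h φ X (D.pb f a) = D.pb f (P.hop h φ Y a) := by
  refine HodgeData.hodge_ind (P := P) h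
    (p := fun a => P.hop h φ X (D.pb f a) = D.pb f (P.hop h φ Y a)) ?_ ?_ a
  · intro r s a ha
    rw [HodgeData.hop_apply h φ (h.pull X Y f r s a ha), HodgeData.hop_apply h φ ha, pb_smul]
  · intro a a' ha ha'
    rw [pb_add, map_add, ha, ha', map_add, pb_add]

theorem hop_deg (h : P.HodgeAxioms) (φ : ℕ → ℕ → ℂ) (X : V) (k : ℕ) (a : D.H X)
    (ha : a ∈ D.deg X k) : P.hop h φ X a ∈ D.deg X k := by
  refine deg_ind h X k (fun a => P.hop h φ X a ∈ D.deg X k) ?_ ?_ ?_ a ha
  · intro r s hrs b hb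
    rw [HodgeData.hop_apply h φ hb]
    have hd : b ∈ D.deg X k := by
      rw [← hrs]
      exact h.deg X r s hb
    exact Submodule.smul_mem _ _ hd
  · intro a b ha hb
    rw [map_add]
    exact add_mem ha hb
  · rw [map_zero]
    exact zero_mem _

theorem hop_int (h : P.HodgeAxioms) (φ : ℕ → ℕ → ℂ) (hφ : ∀ i, φ i i = 1) (X : V)
    (a : D.H X) : D.int (P.hop h φ X a) = D.int a := by
  refine HodgeData.hodge_ind (P := P) h
    (p := fun a => D.int (P.hop h φ X a) = D.int a) ?_ ?_ a
  · intro r s a ha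
    rw [HodgeData.hop_apply h φ ha, int_smul]
    by_cases hrs : r = s
    · subst hrs
      rw [hφ, one_mul]
    · rw [h.int X r s hrs a ha, mul_zero]
  · intro a a' ha ha'
    rw [map_add, int_add, ha, ha', int_add]

theorem bar_deg (h : P.HodgeAxioms) (X : V) (k : ℕ) (a : D.H X) (ha : a ∈ D.deg X k) :
    P.bar X a ∈ D.deg X k := by
  refine deg_ind h X k (fun a => P.bar X a ∈ D.deg X k) ?_ ?_ ?_ a ha
  · intro r s hrs a ha
    have h1 := h.deg X s r (h.bar X r s a ha)
    rwa [add_comm, hrs] at h1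
  · intro a b ha hb
    rw [map_add]
    exact add_mem ha hb
  · rw [map_zero]
    exact zero_mem _

theorem I_mul (i : ℕ) : Complex.I ^ i * (-Complex.I) ^ i = 1 := by
  rw [← mul_pow, mul_neg, Complex.I_mul_I, neg_neg, one_pow]

theorem hop_hop (h : P.HodgeAxioms) (φ ψ : ℕ → ℕ → ℂ) (hφ : ∀ p q, φ p q * ψ p q = 1)
    (X : V) (a : D.H X) : P.hop h φ X (P.hop h ψ X a) = a := by
  refine HodgeData.hodge_ind (P := P) h
    (p := fun a => P.hop h φ X (P.hop h ψ X a) = a) ?_ ?_ a
  · intro r s a ha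
    rw [HodgeData.hop_apply h ψ ha, map_smul, HodgeData.hop_apply h φ ha, smul_smul,
      mul_comm, hφ, one_smul]
  · intro a a' ha ha'
    rw [map_add, map_add, ha, ha']

theorem bar_weil (h : P.HodgeAxioms) (X : V) (a : D.H X) :
    P.bar X (P.weilOp h X a) = P.weilOp h X (P.bar X a) := by
  refine HodgeData.hodge_ind (P := P) h
    (p := fun a => P.bar X (P.weilOp h X a) = P.weilOp h X (P.bar X a)) ?_ ?_ a
  · intro r s a ha
    rw [HodgeData.weilOp_apply h ha, HodgeData.weilOp_apply h (h.bar X r s a ha),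
      LinearMap.map_smulₛₗ]
    congr 1
    rw [map_mul, map_pow, map_pow, map_neg, Complex.conj_I, neg_neg, mul_comm]
  · intro a a' ha ha'
    rw [map_add, map_add, ha, ha', map_add, map_add]

theorem weil_weil (h : P.HodgeAxioms) (X : V) (k : ℕ) (a : D.H X) (ha : a ∈ D.deg X k) :
    P.weilOp h X (P.weilOp h X a) = (-1 : ℂ) ^ k • a := by
  refine deg_ind h X k (fun a => P.weilOp h X (P.weilOp h X a) = (-1 : ℂ) ^ k • a) ?_ ?_ ?_ a ha
  · intro r s hrs a ha
    rw [HodgeData.weilOp_apply h ha, map_smul, HodgeData.weilOp_apply h ha, smul_smul]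
    congr 1
    subst hrs
    have h1 : (Complex.I ^ r * (-Complex.I) ^ s) * (Complex.I ^ r * (-Complex.I) ^ s) =
        (Complex.I * Complex.I) ^ r * ((-Complex.I) * (-Complex.I)) ^ s := by
      rw [mul_pow, mul_pow]
      ring
    rw [h1, neg_mul_neg, Complex.I_mul_I, pow_add]
  · intro a b ha hb
    rw [map_add, map_add, ha, hb, smul_add]
  · rw [map_zero, map_zero, smul_zero]

theorem hodgeOp_mul (h : P.HodgeAxioms) (X : V) (a b : D.H X) :
    P.hodgeOp h X (a * b) = P.hodgeOp h X a * b + a * P.hodgeOp h X b := by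
  refine HodgeData.hodge_ind (P := P) h
    (p := fun a => P.hodgeOp h X (a * b) = P.hodgeOp h X a * b + a * P.hodgeOp h X b) ?_ ?_ a
  · intro r s a ha
    refine HodgeData.hodge_ind (P := P) h
      (p := fun b => P.hodgeOp h X (a * b) = P.hodgeOp h X a * b + a * P.hodgeOp h X b)
      ?_ ?_ b
    · intro r' s' b hb
      rw [HodgeData.hodgeOp_apply h (h.mul X r s r' s' a ha b hb), HodgeData.hodgeOp_apply h ha,
        HodgeData.hodgeOp_apply h hb, smul_mul_assoc, mul_smul_comm, ← add_smul]
      congr 1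
      push_cast
      ring
    · intro b b' hb hb'
      rw [mul_add, map_add, hb, hb', map_add, mul_add, mul_add]
      abel
  · intro a a' ha ha'
    rw [add_mul, map_add, ha, ha', map_add, add_mul, add_mul]
    abel

theorem mot_hodgeOp (h : P.HodgeAxioms) : D.MotDer (P.hodgeOp h) where
  deg X i a ha := hop_deg h _ X i a ha
  pull X Y f a := hop_pb h _ X Y f a
  cross X Y a b := by
    have hpb : ∀ (X Y : V) (f : X ⟶ Y) (a : D.H Y),
        P.hodgeOp h X (D.pb f a) = D.pb f (P.hodgeOp h Y a) :=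
      fun X Y f a => hop_pb h _ X Y f a
    unfold WeilData.cross
    rw [hodgeOp_mul, hpb, hpb]
  alg X i a ha := by
    rw [HodgeData.hodgeOp_apply h (h.alg X i ha), sub_self, zero_smul]
  int X a := by
    refine HodgeData.hodge_ind (P := P) h
      (p := fun a => D.int (P.hodgeOp h X a) = 0) ?_ ?_ a
    · intro r s a ha
      rw [HodgeData.hodgeOp_apply h ha, int_smul]
      by_cases hrs : r = s
      · subst hrs
        rw [sub_self, zero_mul]
      · rw [h.int X r s hrs a ha, mul_zero]
    · intro a a' ha ha'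
      rw [map_add, int_add, ha, ha', add_zero]

end HPAAux

variable {V : Type u} [Category.{v} V] [CartesianMonoidalCategory V]
variable {D : WeilData.{u, v, w, 0} V ℂ} {P : HodgeData D}

open HPAAux in
theorem blk_HPA (_hD : D.IsWeil) (_hc : P.ConjAxioms) (h : P.HodgeAxioms) : Stmt_HPA P h := by
  refine ⟨hop_mul h, hop_pb h, deg_ind h, hop_deg h, hop_int h, bar_deg h, ?_, ?_,
    bar_weil h, weil_weil h, mot_hodgeOp h⟩
  · intro X a
    refine hop_hop h _ _ ?_ X a
    intro p q
    have h1 := I_mul p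
    have h2 := I_mul q
    calc (-Complex.I) ^ p * Complex.I ^ q * (Complex.I ^ p * (-Complex.I) ^ q)
        = (Complex.I ^ p * (-Complex.I) ^ p) * (Complex.I ^ q * (-Complex.I) ^ q) := by ring
      _ = 1 := by rw [h1, h2, one_mul]
  · intro X a
    refine hop_hop h _ _ ?_ X a
    intro p q
    have h1 := I_mul p
    have h2 := I_mul q
    calc Complex.I ^ p * (-Complex.I) ^ q * ((-Complex.I) ^ p * Complex.I ^ q)
        = (Complex.I ^ p * (-Complex.I) ^ p) * (Complex.I ^ q * (-Complex.I) ^ q) := by ring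
      _ = 1 := by rw [h1, h2, one_mul]

end Pool.KC
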