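import Pool.Agent.Work.MP_a60482_exo.Interface

/-! Block HPB: `MotDer` is stable under complex conjugation and under `T ↦ T^#`. -/

open CategoryTheory MonoidalCategory CartesianMonoidalCategory

universe u v w x

namespace Pool.KC

namespace HPBAux

variable {V : Type u} [Category.{v} V] [CartesianMonoidalCategory V]
variable {D : WeilData.{u, v, w, 0} V ℂ} {P : HodgeData D}

theorem bar_cross (hc : P.ConjAxioms) {X Y : V} (a : D.H X) (b : D.H Y) :
    P.bar (X ⊗ Y) (D.cross a b) = D.cross (P.bar X a) (P.bar Y b) := by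
  unfold WeilData.cross
  rw [hc.mul, hc.pull, hc.pull]

theorem mot_cbar (hc : P.ConjAxioms) (hdeg : ∀ (X : V) (k : ℕ), ∀ a ∈ D.deg X k,
    P.bar X a ∈ D.deg X k) (T : D.Fam) (hT : D.MotDer T) : D.MotDer (P.cbar T) where
  deg X i a ha := by
    rw [P.cbar_apply]
    exact hdeg X i _ (hT.deg X i _ (hdeg X i a ha))
  pull X Y f a := by
    rw [P.cbar_apply, P.cbar_apply, hc.pull, hT.pull, hc.pull]
  cross X Y a b := by
    rw [P.cbar_apply, P.cbar_apply, P.cbar_apply, bar_cross hc, hT.cross, map_add,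
      bar_cross hc, bar_cross hc, hc.invol, hc.invol]
  alg X i a ha := by
    rw [P.cbar_apply, hT.alg X i _ (hc.alg X i a ha), map_zero]
  int X a := by
    rw [P.cbar_apply, hc.int, hT.int, map_zero]

theorem mot_neg (T : D.Fam) (hT : D.MotDer T) : D.MotDer (-T) where
  deg X i a ha := by
    change -(T X a) ∈ _
    exact neg_mem (hT.deg X i a ha)
  pull X Y f a := by
    change -(T X (D.pb f a)) = D.pull f (-(T Y a))
    rw [hT.pull, map_neg]
    rfl
  cross X Y a b := by
    change -(T (X ⊗ Y) (D.cross a b)) =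
      D.pull (fst X Y) (-(T X a)) * D.pull (snd X Y) b +
        D.pull (fst X Y) a * D.pull (snd X Y) (-(T Y b))
    rw [hT.cross, map_neg, map_neg, neg_mul, mul_neg, neg_add]
    rfl
  alg X i a ha := by
    change -(T X a) = 0
    rw [hT.alg X i a ha, neg_zero]
  int X a := by
    change D.tr X (-(T X a)) = 0
    rw [map_neg, neg_eq_zero]
    exact hT.int X a

theorem mot_conj (S A B : D.Fam) (hS : D.MotDer S)
    (hAm : ∀ (X : V) (a b : D.H X), A X (a * b) = A X a * A X b)
    (hBm : ∀ (X : V) (a b : D.H X), B X (a * b) = B X a * B X b)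
    (hAp : ∀ (X Y : V) (f : X ⟶ Y) (a : D.H Y), A X (D.pb f a) = D.pb f (A Y a))
    (hBp : ∀ (X Y : V) (f : X ⟶ Y) (a : D.H Y), B X (D.pb f a) = D.pb f (B Y a))
    (hAd : ∀ (X : V) (k : ℕ), ∀ a ∈ D.deg X k, A X a ∈ D.deg X k)
    (hBd : ∀ (X : V) (k : ℕ), ∀ a ∈ D.deg X k, B X a ∈ D.deg X k)
    (hAi : ∀ (X : V) (a : D.H X), D.int (A X a) = D.int a)
    (hBC : ∀ (X : V) (i : ℕ), ∀ a ∈ D.C X i, B X a = a)
    (hAB : ∀ (X : V) (a : D.H X), A X (B X a) = a) : D.MotDer (A * S * B) where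
  deg X i a ha := by
    change A X (S X (B X a)) ∈ _
    exact hAd X i _ (hS.deg X i _ (hBd X i a ha))
  pull X Y f a := by
    change A X (S X (B X (D.pb f a))) = D.pb f (A Y (S Y (B Y a)))
    rw [hBp, hS.pull, hAp]
  cross X Y a b := by
    have hA : ∀ (a : D.H X) (b : D.H Y),
        A (X ⊗ Y) (D.cross a b) = D.cross (A X a) (A Y b) := by
      intro a b
      unfold WeilData.cross
      rw [hAm, hAp, hAp]
    have hB : ∀ (a : D.H X) (b : D.H Y),
        B (X ⊗ Y) (D.cross a b) = D.cross (B X a) (B Y b) := by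
      intro a b
      unfold WeilData.cross
      rw [hBm, hBp, hBp]
    change A (X ⊗ Y) (S (X ⊗ Y) (B (X ⊗ Y) (D.cross a b))) =
      D.cross (A X (S X (B X a))) b + D.cross a (A Y (S Y (B Y b)))
    rw [hB, hS.cross, map_add, hA, hA, hAB, hAB]
  alg X i a ha := by
    change A X (S X (B X a)) = 0
    rw [hBC X i a ha, hS.alg X i a ha, map_zero]
  int X a := by
    change D.int (A X (S X (B X a))) = 0
    rw [hAi, hS.int]

theorem I_mul (i : ℕ) : Complex.I ^ i * (-Complex.I) ^ i = 1 := by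
  rw [← mul_pow, mul_neg, Complex.I_mul_I, neg_neg, one_pow]

end HPBAux

variable {V : Type u} [Category.{v} V] [CartesianMonoidalCategory V]
variable {D : WeilData.{u, v, w, 0} V ℂ} {P : HodgeData D}

open HPBAux in
theorem blk_HPB (_hD : D.IsWeil) (hc : P.ConjAxioms) (h : P.HodgeAxioms) :
    Stmt_HPA P h → Stmt_HPB P h := by
  rintro ⟨h1, h2, _, h4, h5, h6, h7, _, _, _, _⟩
  have hcb : ∀ T : D.Fam, D.MotDer T → D.MotDer (P.cbar T) := fun T hT => mot_cbar hc h6 T hT
  refine ⟨hcb, ?_, ?_⟩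
  · intro T hT
    unfold HodgeData.sharp
    apply mot_neg
    refine mot_conj (P.cbar T) (P.weilInv h) (P.weilOp h) (hcb T hT) ?_ ?_ (h2 _) (h2 _)
      (h4 _) (h4 _) ?_ ?_ h7
    · exact h1 _ fun p q p' q' => by rw [pow_add, pow_add]; ring
    · exact h1 _ fun p q p' q' => by rw [pow_add, pow_add]; ring
    · exact h5 _ fun i => by rw [mul_comm]; exact I_mul i
    · intro X i a ha
      rw [HodgeData.weilOp_apply h (h.alg X i ha), I_mul, one_smul]
  · intro d Y T hT x hx
    have hx' : P.weilOp h Y x ∈ D.deg Y d := h4 _ Y d x hx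
    rw [P.sharp_apply, hT _ (h6 Y d _ hx'), map_zero, map_zero, neg_zero]

end Pool.KC
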