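import Pool.Agent.Work.MP_a60482_exo.Interface

/-! Block NC: `C(Y)` fails for the regraded theory. -/

open CategoryTheory MonoidalCategory CartesianMonoidalCategory

universe u v w x

namespace Pool.KC

variable {V : Type u} [Category.{v} V] [CartesianMonoidalCategory V]

open WeilData in
theorem blk_NC {D : WeilData.{u, v, w, 0} V ℂ} (hD : D.IsWeil) : Stmt_BAS D → Stmt_NC D := by
  intro hB g Y T η ω i j hR hT hη hω hij hω0 hTη hC
  obtain ⟨-, -, -, -, -, -, hact⟩ := hB
  have h1 : (toWeil hR).ConjC Y := (conjC_iff' hR Y).1 hC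
  rw [(toWeil hR).conjC_iff] at h1
  obtain ⟨z, hz, hzp⟩ := (toWeil hR).mem_ops.1 (h1 i)
  have hTz : T (Y ⊗ Y) z = 0 := hT.alg _ _ z hz
  have hp : ∀ a : D.H Y, D.act z a = (toWeil hR).proj Y i a := by
    intro a
    rw [← hzp]
    exact (act_eq hR z a).symm
  have h2 := hact T hT Y Y z η hTz
  rw [hp η, hTη, hp ω] at h2
  have h3 : (toWeil hR).proj Y i η = η := (toWeil hR).proj_same hη
  have h4 : (toWeil hR).proj Y i ω = 0 := (toWeil hR).proj_ne hω (Ne.symm hij)
  rw [h3, h4, hTη] at h2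
  exact hω0 h2

end Pool.KC
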