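import Pool.Agent.Work.MP_a60482_exo.Interface

/-!
# The Kuenneth conjecture fails for regraded theories: block SLB
-/

universe w

namespace Pool.KC

namespace SLBAux

theorem sum_re_neg (s : Multiset ℂ) (hs : ∀ z ∈ s, z.re < 0) (hs0 : s ≠ 0) : s.sum.re < 0 := by
  induction s using Multiset.induction with
  | empty => exact absurd rfl hs0
  | cons a s ih =>
    rw [Multiset.sum_cons, Complex.add_re]
    have h1 := hs a (Multiset.mem_cons_self a s)
    by_cases h : s = 0
    · subst h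
      simpa using h1
    · have h2 := ih (fun z hz => hs z (Multiset.mem_cons_of_mem hz)) h
      linarith

/-- an endomorphism with trace zero has an eigenvalue with nonnegative real part -/
theorem exists_re_nonneg {U : Type w} [AddCommGroup U] [Module ℂ U] [FiniteDimensional ℂ U]
    [Nontrivial U] (z : Module.End ℂ U) (hz : LinearMap.trace ℂ U z = 0) :
    ∃ (ζ : ℂ) (v : U), 0 ≤ ζ.re ∧ v ≠ 0 ∧ z v = ζ • v := by
  by_contra hcon
  push Not at hcon
  have hs : z.charpoly.Splits := IsAlgClosed.splits _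
  have h1 := Module.End.trace_eq_sum_roots_charpoly_of_splits hs
  have h2 : ∀ ζ ∈ z.charpoly.roots, ζ.re < 0 := by
    intro ζ hζ
    have h3 : z.HasEigenvalue ζ := by
      rw [Module.End.hasEigenvalue_iff_isRoot_charpoly]
      exact Polynomial.isRoot_of_mem_roots hζ
    obtain ⟨v, hv⟩ := h3.exists_hasEigenvector
    by_contra h4
    exact hcon ζ v (not_lt.mp h4) hv.2 hv.apply_eq_smul
  have h3 : z.charpoly.roots ≠ 0 := by
    intro h0
    have h4 : z.charpoly.natDegree = Multiset.card z.charpoly.roots := hs.natDegree_eq_card_roots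
    rw [h0, Multiset.card_zero, LinearMap.charpoly_natDegree] at h4
    exact (Module.finrank_pos (R := ℂ) (M := U)).ne' h4
  have h4 := sum_re_neg _ h2 h3
  rw [← h1, hz] at h4
  exact lt_irrefl _ h4

variable {W : Type w} [AddCommGroup W] [Module ℂ W] [FiniteDimensional ℂ W]

theorem bound_aux (N P h : Module.End ℂ W) (n : ℕ) (a b : Fin n → Module.End ℂ W)
    (c : Fin n → ℂ) (d : ℕ) (κ : ℝ)
    (hN : N = (d : ℂ) • h + ∑ i, c i • (a i * b i - b i * a i) + P)
    (hev : ∀ (μ : ℂ) (v : W), v ≠ 0 → N v = μ • v → |μ.re| ≤ κ)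
    (U : Submodule ℂ W) (hU : U ≠ ⊥) (ha : ∀ i, ∀ x ∈ U, a i x ∈ U)
    (hb : ∀ i, ∀ x ∈ U, b i x ∈ U)
    (ν δ : ℂ) (hh : ∀ x ∈ U, h x = ν • x) (hP : ∀ x ∈ U, P x = δ • x) :
    d * ν.re + δ.re ≤ κ := by
  have : Nontrivial U := Submodule.nontrivial_iff_ne_bot.mpr hU
  let aU : Fin n → Module.End ℂ U := fun i => (a i).restrict (ha i)
  let bU : Fin n → Module.End ℂ U := fun i => (b i).restrict (hb i)
  let z : Module.End ℂ U := ∑ i, c i • (aU i * bU i - bU i * aU i)
  have hz : LinearMap.trace ℂ U z = 0 := by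
    simp only [z, map_sum, map_smul, map_sub]
    refine Finset.sum_eq_zero fun i _ => ?_
    rw [LinearMap.trace_mul_comm, sub_self, smul_zero]
  obtain ⟨ζ, v, h0, hv, hzv⟩ := exists_re_nonneg z hz
  have h1 : ((z v : U) : W) = (∑ i, c i • (a i * b i - b i * a i)) (v : W) := by
    simp only [z, LinearMap.sum_apply, Submodule.coe_sum, LinearMap.smul_apply, Submodule.coe_smul,
      LinearMap.sub_apply, Submodule.coe_sub, Module.End.mul_apply]
    rfl
  have h2 : N (v : W) = ((d : ℂ) * ν + ζ + δ) • (v : W) := by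
    rw [hN, LinearMap.add_apply, LinearMap.add_apply, LinearMap.smul_apply, ← h1, hzv,
      hh _ v.2, hP _ v.2, Submodule.coe_smul, add_smul, add_smul, mul_smul]
  have h3 := hev _ (v : W) (fun h => hv (Subtype.ext h)) h2
  have h4 : ((d : ℂ) * ν + ζ + δ).re = d * ν.re + ζ.re + δ.re := by
    simp [Complex.add_re, Complex.mul_re]
  rw [h4] at h3
  linarith [(abs_le.mp h3).2]

theorem bound (N P h : Module.End ℂ W) (n : ℕ) (a b : Fin n → Module.End ℂ W)
    (c : Fin n → ℂ) (d : ℕ) (κ : ℝ)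
    (hN : N = (d : ℂ) • h + ∑ i, c i • (a i * b i - b i * a i) + P)
    (hev : ∀ (μ : ℂ) (v : W), v ≠ 0 → N v = μ • v → |μ.re| ≤ κ)
    (U : Submodule ℂ W) (hU : U ≠ ⊥) (ha : ∀ i, ∀ x ∈ U, a i x ∈ U)
    (hb : ∀ i, ∀ x ∈ U, b i x ∈ U)
    (ν δ : ℂ) (hh : ∀ x ∈ U, h x = ν • x) (hP : ∀ x ∈ U, P x = δ • x) :
    |d * ν.re + δ.re| ≤ κ := by
  rw [abs_le]
  refine ⟨?_, bound_aux N P h n a b c d κ hN hev U hU ha hb ν δ hh hP⟩
  have h1 := bound_aux (-N) (-P) h n a b (fun i => -(c i)) d κ
  have h2 := bound_aux (-N) (-P) (-h) n a b (fun i => -(c i)) d κ (by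
    rw [hN]
    simp only [neg_smul, Finset.sum_neg_distrib, smul_neg]
    abel) (fun μ v hv hμ => by
      have h3 := hev (-μ) v hv (by rw [neg_smul, ← hμ, LinearMap.neg_apply, neg_neg])
      rwa [Complex.neg_re, abs_neg] at h3) U hU ha hb (-ν) (-δ)
    (fun x hx => by rw [LinearMap.neg_apply, hh x hx, neg_smul])
    (fun x hx => by rw [LinearMap.neg_apply, hP x hx, neg_smul])
  rw [Complex.neg_re, Complex.neg_re] at h2
  linarith

attribute [local instance 100] LieRing.ofAssociativeRing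

theorem half (e f h N P : Module.End ℂ W) (n : ℕ) (a b : Fin n → Module.End ℂ W)
    (c : Fin n → ℂ) (d : ℕ) (κ : ℝ) (h1 : e * f - f * e = h) (h2 : h * e - e * h = 2 • e)
    (h3 : h * f - f * h = -(2 • f))
    (hab : ∀ i, a i * e = e * a i ∧ a i * f = f * a i ∧ b i * e = e * b i ∧ b i * f = f * b i ∧
      a i * P = P * a i ∧ b i * P = P * b i)
    (heP : e * P = P * e) (hfP : f * P = P * f)
    (hN : N = (d : ℂ) • h + ∑ i, c i • (a i * b i - b i * a i) + P)
    (hev : ∀ (μ : ℂ) (v : W), v ≠ 0 → N v = μ • v → |μ.re| ≤ κ)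
    (μ : ℂ) (v : W) (hv : v ≠ 0) (hμ : h v = μ • v) : ∃ m : ℤ, μ = m ∧ (d : ℝ) * m ≤ κ := by
  have hkey : ∀ x : Module.End ℂ W, x * e = e * x → x * f = f * x → x * h = h * x := by
    intro x hxe hxf
    rw [← h1, mul_sub, sub_mul, ← mul_assoc, hxe, mul_assoc, hxf, ← mul_assoc, ← mul_assoc, hxf,
      mul_assoc f, hxe, ← mul_assoc]
  by_cases hh : h = 0
  · have h4 : μ = 0 := by
      rw [hh, LinearMap.zero_apply] at hμ
      exact (smul_eq_zero.mp hμ.symm).resolve_right hv
    have : Nontrivial W := ⟨v, 0, hv⟩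
    obtain ⟨ν, hν⟩ := Module.End.exists_eigenvalue N
    obtain ⟨u, hu⟩ := hν.exists_hasEigenvector
    have h5 := hev ν u hu.2 hu.apply_eq_smul
    exact ⟨0, by simpa using h4, by simpa using (abs_nonneg _).trans h5⟩
  · have t : IsSl2Triple h e f := ⟨hh, by rw [Ring.lie_def]; exact h1,
      by rw [Ring.lie_def]; exact h2, by rw [Ring.lie_def]; exact h3⟩
    have h4 : ∀ j : ℕ, h ((e ^ j) v) = (μ + 2 * j) • (e ^ j) v := by
      intro j
      induction j with
      | zero => simpa using hμ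
      | succ j ih =>
        have h5 : h * e = e * h + 2 • e := by rw [← h2]; abel
        rw [pow_succ', Module.End.mul_apply, ← Module.End.mul_apply h e, h5, LinearMap.add_apply,
          Module.End.mul_apply, ih, map_smul, LinearMap.smul_apply, ← Nat.cast_smul_eq_nsmul ℂ,
          ← add_smul]
        congr 1
        push_cast
        ring
    have h5 : ∃ j : ℕ, (e ^ j) v = 0 := by
      by_contra hcon
      push Not at hcon
      have h6 : ∀ j : ℕ, h.HasEigenvalue (μ + 2 * j) := fun j =>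
        Module.End.hasEigenvalue_of_hasEigenvector (x := (e ^ j) v)
          (Module.End.hasEigenvector_iff.mpr
            ⟨Module.End.mem_eigenspace_iff.mpr (h4 j), hcon j⟩)
      have h7 : (Set.range fun j : ℕ => μ + 2 * (j : ℂ)).Infinite :=
        Set.infinite_range_of_injective (fun x y hxy => by simpa using hxy)
      exact h7 ((Module.End.finite_hasEigenvalue h).subset (by
        rintro _ ⟨j, rfl⟩
        exact h6 j))
    obtain ⟨j, hj1, hj2⟩ := Nat.exists_not_and_succ_of_not_zero_of_exists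
      (p := fun j => (e ^ j) v = 0) (by simpa using hv) h5
    have hp : t.HasPrimitiveVectorWith ((e ^ j) v) (μ + 2 * j) :=
      ⟨hj1, h4 j, by
        have h6 : (e ^ (j + 1)) v = 0 := hj2
        rwa [pow_succ', Module.End.mul_apply] at h6⟩
    obtain ⟨m, hm⟩ := hp.exists_nat
    -- the eigenspace
    let E : Submodule ℂ W := LinearMap.ker e ⊓ Module.End.eigenspace h (m : ℂ)
    have hE : ∀ x : Module.End ℂ W, x * e = e * x → x * f = f * x → ∀ y ∈ E, x y ∈ E := by
      intro x hxe hxf y hy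
      refine Submodule.mem_inf.mpr ⟨?_, ?_⟩
      · rw [LinearMap.mem_ker, ← Module.End.mul_apply, ← hxe, Module.End.mul_apply,
          LinearMap.mem_ker.mp hy.1, map_zero]
      · rw [Module.End.mem_eigenspace_iff, ← Module.End.mul_apply, ← hkey x hxe hxf,
          Module.End.mul_apply, Module.End.mem_eigenspace_iff.mp hy.2, map_smul]
    have hw : (e ^ j) v ∈ E := ⟨LinearMap.mem_ker.mpr hp.lie_e,
      Module.End.mem_eigenspace_iff.mpr (by rw [h4 j, hm])⟩
    have : Nontrivial E := ⟨⟨_, hw⟩, 0, fun h => hj1 (congrArg Subtype.val h)⟩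
    obtain ⟨δ, hδ⟩ := Module.End.exists_eigenvalue (P.restrict (hE P heP.symm hfP.symm))
    obtain ⟨u, hu⟩ := hδ.exists_hasEigenvector
    have hu0 : (u : W) ≠ 0 := fun h => hu.2 (Subtype.ext h)
    have hu1 : P (u : W) = δ • (u : W) := congrArg Subtype.val hu.apply_eq_smul
    have b1 := bound N P h n a b c d κ hN hev (E ⊓ Module.End.eigenspace P δ)
      (by
        intro h0
        have h6 : (u : W) ∈ E ⊓ Module.End.eigenspace P δ :=
          ⟨u.2, Module.End.mem_eigenspace_iff.mpr hu1⟩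
        rw [h0] at h6
        exact hu0 h6)
      (fun i x hx => ⟨hE _ (hab i).1 (hab i).2.1 x hx.1, Module.End.mem_eigenspace_iff.mpr (by
        rw [← Module.End.mul_apply, ← (hab i).2.2.2.2.1, Module.End.mul_apply,
          Module.End.mem_eigenspace_iff.mp hx.2, map_smul])⟩)
      (fun i x hx => ⟨hE _ (hab i).2.2.1 (hab i).2.2.2.1 x hx.1,
        Module.End.mem_eigenspace_iff.mpr (by
        rw [← Module.End.mul_apply, ← (hab i).2.2.2.2.2, Module.End.mul_apply,
          Module.End.mem_eigenspace_iff.mp hx.2, map_smul])⟩)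
      (m : ℂ) δ (fun x hx => Module.End.mem_eigenspace_iff.mp hx.1.2)
      (fun x hx => Module.End.mem_eigenspace_iff.mp hx.2)
    have hp2 : t.HasPrimitiveVectorWith (u : W) (m : ℂ) :=
      ⟨hu0, Module.End.mem_eigenspace_iff.mp u.2.2, LinearMap.mem_ker.mp u.2.1⟩
    have h7 : ((f ^ m) (u : W)) ≠ 0 := hp2.pow_toEnd_f_ne_zero_of_eq_nat rfl le_rfl
    have h8 : h ((f ^ m) (u : W)) = (-(m : ℂ)) • (f ^ m) (u : W) := by
      have h9 := hp2.lie_h_pow_toEnd_f m
      have h10 : (m : ℂ) - 2 * m = -m := by ring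
      rw [h10] at h9
      exact h9
    have h9 : P ((f ^ m) (u : W)) = δ • (f ^ m) (u : W) := by
      have h10 : P * f ^ m = f ^ m * P := ((show Commute f P from hfP).pow_left m).symm
      rw [← Module.End.mul_apply, h10, Module.End.mul_apply, hu1, map_smul]
    have b2 := bound N P h n a b c d κ hN hev
      (Module.End.eigenspace h (-(m : ℂ)) ⊓ Module.End.eigenspace P δ)
      (by
        intro h0
        have h6 : ((f ^ m) (u : W)) ∈
            Module.End.eigenspace h (-(m : ℂ)) ⊓ Module.End.eigenspace P δ :=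
          ⟨Module.End.mem_eigenspace_iff.mpr h8, Module.End.mem_eigenspace_iff.mpr h9⟩
        rw [h0] at h6
        exact h7 h6)
      (fun i x hx => ⟨Module.End.mem_eigenspace_iff.mpr (by
        rw [← Module.End.mul_apply, ← hkey _ (hab i).1 (hab i).2.1, Module.End.mul_apply,
          Module.End.mem_eigenspace_iff.mp hx.1, map_smul]), Module.End.mem_eigenspace_iff.mpr (by
        rw [← Module.End.mul_apply, ← (hab i).2.2.2.2.1, Module.End.mul_apply,
          Module.End.mem_eigenspace_iff.mp hx.2, map_smul])⟩)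
      (fun i x hx => ⟨Module.End.mem_eigenspace_iff.mpr (by
        rw [← Module.End.mul_apply, ← hkey _ (hab i).2.2.1 (hab i).2.2.2.1, Module.End.mul_apply,
          Module.End.mem_eigenspace_iff.mp hx.1, map_smul]), Module.End.mem_eigenspace_iff.mpr (by
        rw [← Module.End.mul_apply, ← (hab i).2.2.2.2.2, Module.End.mul_apply,
          Module.End.mem_eigenspace_iff.mp hx.2, map_smul])⟩)
      (-(m : ℂ)) δ (fun x hx => Module.End.mem_eigenspace_iff.mp hx.1)
      (fun x hx => Module.End.mem_eigenspace_iff.mp hx.2)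
    rw [Complex.natCast_re] at b1
    rw [Complex.neg_re, Complex.natCast_re] at b2
    have b3 := (abs_le.mp b1).2
    have b4 := (abs_le.mp b2).1
    refine ⟨(m : ℤ) - 2 * j, ?_, ?_⟩
    · push_cast
      rw [← hm]
      ring
    · push_cast
      have h11 : (0 : ℝ) ≤ (d : ℝ) * (2 * j) := by positivity
      nlinarith

end SLBAux

open SLBAux

theorem blk_SLB : Stmt_SLB.{w} := by
  intro W _ _ _ e f h N P n a b c d κ h1 h2 h3 hab heP hfP hN hev μ v hv hμ
  obtain ⟨m, hm, hm1⟩ := half e f h N P n a b c d κ h1 h2 h3 hab heP hfP hN hev μ v hv hμ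
  obtain ⟨m', hm', hm1'⟩ := half f e (-h) (-N) (-P) n a b (fun i => -(c i)) d κ
    (by rw [← h1]; abel)
    (by rw [neg_mul, mul_neg, ← neg_sub_neg, sub_neg_eq_add, neg_neg]
        have h4 := congrArg Neg.neg h3
        rw [neg_neg] at h4
        rw [← h4]; abel)
    (by rw [← h2]; simp only [neg_mul, mul_neg]; abel)
    (fun i => ⟨(hab i).2.1, (hab i).1, (hab i).2.2.2.1, (hab i).2.2.1,
      by rw [mul_neg, neg_mul, (hab i).2.2.2.2.1], by rw [mul_neg, neg_mul, (hab i).2.2.2.2.2]⟩)
    (by rw [mul_neg, neg_mul, hfP]) (by rw [mul_neg, neg_mul, heP])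
    (by
      rw [hN]
      simp only [neg_smul, Finset.sum_neg_distrib, smul_neg]
      abel)
    (fun μ v hv hμ => by
      have h3 := hev (-μ) v hv (by rw [neg_smul, ← hμ, LinearMap.neg_apply, neg_neg])
      rwa [Complex.neg_re, abs_neg] at h3)
    (-μ) v hv (by rw [LinearMap.neg_apply, hμ, neg_smul])
  refine ⟨m, hm, ?_⟩
  have h5 : m' = -m := by
    have h6 : (m' : ℂ) = ((-m : ℤ) : ℂ) := by rw [← hm', hm]; push_cast; ring
    exact_mod_cast h6
  rw [h5] at hm1'
  push_cast at hm1'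
  rcases abs_cases (m : ℝ) with ⟨h6, _⟩ | ⟨h6, _⟩
  · rw [h6]; exact hm1
  · rw [h6]; exact hm1'

end Pool.KC
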