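import Pool.Agent.Work.MP_a60482_exo.Defs

/-!
# Rational Hodge structures

`HodgeTheory`: rational classes, complex conjugation, `H^{p,q}`, ample classes.
`HodgeTheory.IsHodgeTheory`: `H` takes values in polarizable effective rational Hodge structures.
`HodgeTheory.Sp`: the Hodge group of `H(Y)` acts on `H^d(Y)` as the symplectic group.
-/

open CategoryTheory MonoidalCategory CartesianMonoidalCategory

universe u v w x

namespace Pool.KC

section

variable {W : Type w} [AddCommGroup W] [Module ℂ W]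

/-- A linear space of operators, stable under commutators. -/
def LieClosed (L : Submodule ℂ (Module.End ℂ W)) : Prop :=
  ∀ s ∈ L, ∀ s' ∈ L, s * s' - s' * s ∈ L

/-- A linear space of operators, spanned by operators preserving the group `Q` (of rational
vectors). -/
def RatSpanned (Q : AddSubgroup W) (L : Submodule ℂ (Module.End ℂ W)) : Prop :=
  L ≤ Submodule.span ℂ {s | s ∈ L ∧ ∀ x ∈ Q, s x ∈ Q}

end

variable {V : Type u} [Category.{v} V] [CartesianMonoidalCategory V]

/-- Complex conjugation, the groups `H^{p,q}(X)`, ample classes, and the groups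
`H(X, ℚ)` of rational classes. -/
structure HodgeTheory (D : WeilData.{u, v, w, 0} V ℂ) extends HodgeData D where
  rat : ∀ X : V, AddSubgroup (D.H X)

namespace HodgeTheory

variable {D : WeilData.{u, v, w, 0} V ℂ} (P : HodgeTheory D)

/-- The rational classes are the rational combinations of some basis of `H(X)`; their
homogeneous components, products, pull-backs and traces are rational, the algebraic classes are
spanned by rational ones, and `bar` is the complex conjugation. -/
structure RatAxioms : Prop where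
  basis : ∀ X : V, ∃ (n : ℕ) (b : Module.Basis (Fin n) ℂ (D.H X)), ∀ x : D.H X,
    x ∈ P.rat X ↔ ∀ i, ∃ q : ℚ, b.repr x i = q
  deg : ∀ (X : V) (i : ℕ), ∀ x ∈ P.rat X, GradedAlgebra.proj (D.R X).deg i x ∈ P.rat X
  mul : ∀ X : V, ∀ x ∈ P.rat X, ∀ y ∈ P.rat X, x * y ∈ P.rat X
  pull : ∀ (X Y : V) (f : X ⟶ Y), ∀ x ∈ P.rat Y, D.pb f x ∈ P.rat X
  int : ∀ X : V, ∀ x ∈ P.rat X, ∃ q : ℚ, D.int x = q
  alg : ∀ (X : V) (i : ℕ), D.C X i ≤ Submodule.span ℂ {x | x ∈ D.C X i ∧ x ∈ P.rat X}
  bar : ∀ X : V, ∀ x ∈ P.rat X, P.bar X x = x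

/-- `H` takes values in polarizable effective rational Hodge structures. -/
structure IsHodgeTheory : Prop where
  rat : P.RatAxioms
  hodge : P.toHodgeData.HodgeAxioms
  lefschetz : P.toHodgeData.LefschetzAxioms

/-- `f` is multiplication by `p - q` on all `H^{p,q}(Y)`. -/
def IsHodgeOp (Y : V) (f : Module.End ℂ (D.H Y)) : Prop :=
  ∀ (p q : ℕ), ∀ a ∈ P.hodge Y p q, f a = ((p : ℂ) - q) • a

/-- `t` belongs to the complexification of the smallest rational Lie algebra of operators on
`H(Y)` which contains, after complexification, the operator equal to `p - q` on `H^{p,q}(Y)`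
(this is the Lie algebra of the Hodge group of `H(Y)`). -/
def InHodgeLie (Y : V) (t : Module.End ℂ (D.H Y)) : Prop :=
  ∀ L : Submodule ℂ (Module.End ℂ (D.H Y)), LieClosed L → RatSpanned (P.rat Y) L →
    (∀ f : Module.End ℂ (D.H Y), P.IsHodgeOp Y f → f ∈ L) → t ∈ L

/-- `Y` has dimension `d`, `H^{d,0}(Y)` is a line, and the Hodge group of `H(Y)` acts on
`H^d(Y)` as the symplectic group (`d` odd): its Lie algebra contains operators which act on
`H^d(Y)` as `x ↦ Q(u, x) v + Q(v, x) u`, `Q(u, x) = ∫ u x`, for all `u`, `v` in `H^d(Y)`. -/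
structure Sp (d : ℕ) (Y : V) : Prop where
  dim : D.dim Y = d
  top : ∃ ω ∈ P.hodge Y d 0, ω ≠ 0 ∧ ∀ a ∈ P.hodge Y d 0, ∃ c : ℂ, a = c • ω
  big : ∀ u ∈ D.deg Y d, ∀ v ∈ D.deg Y d, ∃ t : Module.End ℂ (D.H Y), P.InHodgeLie Y t ∧
    ∀ x ∈ D.deg Y d, t x = D.int (u * x) • v + D.int (v * x) • u

end HodgeTheory

end Pool.KC
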