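import Pool.Agent.Work.MP_a60482_exo.Interface
import Pool.Agent.Work.MP_a60482_exo.Defs2

/-!
# The Kuenneth conjecture fails for regraded theories: blocks, second part
-/

open CategoryTheory MonoidalCategory CartesianMonoidalCategory

universe u v w x

namespace Pool.KC

variable {V : Type u} [Category.{v} V] [CartesianMonoidalCategory V]

/-- BLOCK LN2 (replaces LIN): `blk_LN2 (hD : D.IsWeil) (hc : P.ConjAxioms) (h : P.HodgeAxioms)
(d : ℕ) (hd : Odd d) (Y : V) (hY : P.Big d Y) : Stmt_HPA P h → Stmt_LN2 P h d Y`.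
`Q(a, b) = ∫ a b` pairs `H^{d,0}` with `H^{0,d}` perfectly (Poincare duality,
`HodgeAxioms.int`); `η` spans `H^{0,d}`.  Last part: `T` is `1` on `H^{d,0}`, `-1` on `H^{0,d}` and
`0` on the other `H^{p,q}`, `p + q = d`, so `T^#` is the same. -/
def Stmt_LN2 {D : WeilData.{u, v, w, 0} V ℂ} (P : HodgeData D) (h : P.HodgeAxioms) (d : ℕ)
    (Y : V) : Prop :=
  ∃ ω ∈ P.hodge Y d 0, ∃ η ∈ P.hodge Y 0 d, D.int (ω * η) = 1 ∧
    ∀ T : D.Fam, (∀ x ∈ D.deg Y d, T Y x = -(D.int (ω * x) • η + D.int (η * x) • ω)) →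
      ∀ x ∈ D.deg Y d, P.sharp h T Y x = T Y x

/-- BLOCK SL2 (replaces SLB): `blk_SL2 : Stmt_SL2`.
Let `v ≠ 0`, `h v = μ v`; take `j` maximal with `e^j v ≠ 0`: `e^j v` is primitive, so
`μ + 2 j = m` is a natural number (`IsSl2Triple.HasPrimitiveVectorWith`).
`E = {x : e x = 0, h x = m x}` is stable under `N` (`N h = h N`); let `u ∈ E`, `u ≠ 0`,
`N u = l u`; then `f^m u ≠ 0` and `N f^m u = (l - 2 d m) f^m u`; so `2 d m ≤ 2 κ`, and `μ ≤ m`.
By symmetry (`e ↔ f`, `h ↔ -h`, `N ↔ -N`) `-d μ ≤ κ`. -/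
def Stmt_SL2 : Prop := ∀ (W : Type w) [AddCommGroup W] [Module ℂ W] [FiniteDimensional ℂ W]
    (e f h N : Module.End ℂ W) (d : ℕ) (κ : ℝ), e * f - f * e = h → h * e - e * h = 2 • e →
    h * f - f * h = -(2 • f) → N * e - e * N = (2 * d : ℂ) • e →
    N * f - f * N = -((2 * d : ℂ) • f) →
    (∀ (μ : ℂ) (v : W), v ≠ 0 → N v = μ • v → |μ.re| ≤ κ) →
    ∀ (μ : ℂ) (v : W), v ≠ 0 → h v = μ • v → ∃ m : ℤ, μ = m ∧ (d : ℝ) * |(m : ℝ)| ≤ κ

/-- BLOCK CNJ: `blk_CNJ (hD : D.IsWeil) (hr : P.RatAxioms) (h : P.toHodgeData.HodgeAxioms) :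
P.toHodgeData.ConjAxioms`.
Every class is a combination of rational ones; `bar` is antilinear and the identity on rational
classes. -/
def Stmt_CNJ {D : WeilData.{u, v, w, 0} V ℂ} (P : HodgeTheory D) : Prop :=
  P.toHodgeData.ConjAxioms

/-- BLOCK RAT: `blk_RAT (hD : D.IsWeil) (hr : P.RatAxioms) (h : P.toHodgeData.HodgeAxioms) :
Stmt_HPA P.toHodgeData h → Stmt_RAT P h`.
For `ℚ`-linear `l : ℂ → ℚ` let `l_X : H(X) → H(X)` be the additive map with
`l_X (z • x) = l(z) • x` for rational `x` (coordinates in a rational basis), and `l(Θ) X` the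
`ℂ`-linear map equal to `l_X ∘ Θ X` on rational classes, `Θ = hodgeOp`.  `l(Θ)` preserves
`rat X` and is in `MotDer` (for rational `x`, `y`: `l_X (x * y') = x * l_X y'` etc.; `Θ` is in
`MotDer`, HPA).  Let `c_j` be a `ℚ`-basis of the `ℚ`-span of the matrix entries of `Θ Y` in a
rational basis, `l_j` dual functionals, extended to `ℂ`; `Θ Y = ∑ c_j l_j(Θ) Y`. -/
def Stmt_RAT {D : WeilData.{u, v, w, 0} V ℂ} (P : HodgeTheory D)
    (h : P.toHodgeData.HodgeAxioms) : Prop :=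
  ∀ Y : V, ∃ (r : ℕ) (c : Fin r → ℂ) (T : Fin r → D.Fam),
    (∀ j, D.MotDer (T j) ∧ ∀ X : V, ∀ x ∈ P.rat X, T j X x ∈ P.rat X) ∧
    P.toHodgeData.hodgeOp h Y = ∑ j, c j • T j Y

/-- BLOCK HLI: `blk_HLI (hD : D.IsWeil) (h : P.toHodgeData.HodgeAxioms) (d : ℕ) (Y : V)
(hY : P.Sp d Y) : Stmt_BAS D → Stmt_RAT P h → P.toHodgeData.Big d Y`.
Take for `L` the span of the `T Y`, `T` in `MotDer` and preserving rational classes on all `X`:
a Lie algebra spanned by rational operators containing `hodgeOp h Y`, which is the only operator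
equal to `p - q` on `H^{p,q}(Y)`. -/
def Stmt_HLI {D : WeilData.{u, v, w, 0} V ℂ} (P : HodgeTheory D) (d : ℕ) (Y : V) : Prop :=
  P.toHodgeData.Big d Y

end Pool.KC
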