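import Pool.Agent.Work.MP_a60482_exo.Interface2

/-!
# Block RAT
-/

open CategoryTheory MonoidalCategory CartesianMonoidalCategory

universe u v w x

namespace Pool.KC

variable {V : Type u} [Category.{v} V] [CartesianMonoidalCategory V]

namespace RATAux

variable {D : WeilData.{u, v, w, 0} V ℂ} {P : HodgeTheory D}

theorem int_smul {X : V} (c : ℂ) (a : D.H X) : D.int (c • a) = c * D.int a :=
  (map_smul (D.tr X) c a).trans (smul_eq_mul _ _)

theorem int_add {X : V} (a b : D.H X) : D.int (a + b) = D.int a + D.int b :=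
  map_add (D.tr X) a b

theorem int_zero {X : V} : D.int (0 : D.H X) = 0 := map_zero (D.tr X)

theorem pb_smul {X Y : V} (f : X ⟶ Y) (c : ℂ) (a : D.H Y) : D.pb f (c • a) = c • D.pb f a :=
  map_smul (D.pull f) c a

theorem pb_add {X Y : V} (f : X ⟶ Y) (a b : D.H Y) : D.pb f (a + b) = D.pb f a + D.pb f b :=
  map_add (D.pull f) a b

theorem cross_add_left {X Y : V} (a a' : D.H X) (b : D.H Y) :
    D.cross (a + a') b = D.cross a b + D.cross a' b := by
  unfold WeilData.cross
  rw [pb_add, add_mul]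

theorem cross_add_right {X Y : V} (a : D.H X) (b b' : D.H Y) :
    D.cross a (b + b') = D.cross a b + D.cross a b' := by
  unfold WeilData.cross
  rw [pb_add, mul_add]

theorem cross_smul_left {X Y : V} (c : ℂ) (a : D.H X) (b : D.H Y) :
    D.cross (c • a) b = c • D.cross a b := by
  unfold WeilData.cross
  rw [pb_smul, smul_mul_assoc]

theorem cross_smul_right {X Y : V} (c : ℂ) (a : D.H X) (b : D.H Y) :
    D.cross a (c • b) = c • D.cross a b := by
  unfold WeilData.cross
  rw [pb_smul, mul_smul_comm]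

section rat

variable (hr : P.RatAxioms)

/-- dimension -/
noncomputable def rk (X : V) : ℕ := (hr.basis X).choose

/-- a rational basis -/
noncomputable def rb (X : V) : Module.Basis (Fin (rk hr X)) ℂ (D.H X) :=
  (hr.basis X).choose_spec.choose

theorem rb_spec (X : V) (x : D.H X) :
    x ∈ P.rat X ↔ ∀ i, ∃ q : ℚ, (rb hr X).repr x i = q :=
  (hr.basis X).choose_spec.choose_spec x

theorem rb_mem (X : V) (i : Fin (rk hr X)) : rb hr X i ∈ P.rat X := by
  rw [rb_spec hr]
  intro j
  rw [Module.Basis.repr_self, Finsupp.single_apply]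
  split_ifs
  · exact ⟨1, by simp⟩
  · exact ⟨0, by simp⟩

include hr in
/-- every class is a complex combination of rational ones -/
theorem rat_ind {X : V} {p : D.H X → Prop}
    (h0 : ∀ (c : ℂ), ∀ x ∈ P.rat X, p (c • x)) (h1 : ∀ a b, p a → p b → p (a + b))
    (a : D.H X) : p a := by
  have hz : p 0 := by
    have := h0 0 0 (P.rat X).zero_mem
    rwa [smul_zero] at this
  rw [← (rb hr X).sum_repr a]
  have key : ∀ s : Finset (Fin (rk hr X)), p (∑ i ∈ s, (rb hr X).repr a i • rb hr X i) := by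
    intro s
    induction s using Finset.induction_on with
    | empty => rw [Finset.sum_empty]; exact hz
    | insert i s hi ih =>
      rw [Finset.sum_insert hi]
      exact h1 _ _ (h0 _ _ (rb_mem hr X i)) ih
  exact key Finset.univ

variable (l : ℂ →ₗ[ℚ] ℚ)

theorem l_mul (q : ℚ) (z : ℂ) : l ((q : ℂ) * z) = q * l z := by
  have : (q : ℂ) * z = q • z := by
    rw [Rat.smul_def]
  rw [this, map_smul, smul_eq_mul]

/-- the additive map with `lx (z • x) = l z • x` for rational `x` -/
noncomputable def lx (X : V) (a : D.H X) : D.H X :=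
  ∑ i, ((l ((rb hr X).repr a i) : ℚ) : ℂ) • rb hr X i

theorem lx_add (X : V) (a b : D.H X) : lx hr l X (a + b) = lx hr l X a + lx hr l X b := by
  unfold lx
  rw [← Finset.sum_add_distrib]
  refine Finset.sum_congr rfl fun i _ => ?_
  rw [map_add, Finsupp.add_apply, map_add, Rat.cast_add, add_smul]

theorem lx_zero (X : V) : lx hr l X (0 : D.H X) = 0 := by
  unfold lx
  refine Finset.sum_eq_zero fun i _ => ?_
  rw [map_zero, Finsupp.zero_apply, map_zero, Rat.cast_zero, zero_smul]

theorem lx_smul (X : V) (z : ℂ) {x : D.H X} (hx : x ∈ P.rat X) :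
    lx hr l X (z • x) = ((l z : ℚ) : ℂ) • x := by
  have h1 := (rb_spec hr X x).1 hx
  conv_rhs => rw [← (rb hr X).sum_repr x]
  rw [Finset.smul_sum]
  unfold lx
  refine Finset.sum_congr rfl fun i _ => ?_
  obtain ⟨q, hq⟩ := h1 i
  rw [map_smul, Finsupp.smul_apply, smul_eq_mul, hq, mul_comm, l_mul, smul_smul, Rat.cast_mul,
    mul_comm]

theorem lx_qsmul (X : V) (q : ℚ) (a : D.H X) :
    lx hr l X ((q : ℂ) • a) = (q : ℂ) • lx hr l X a := by
  unfold lx
  rw [Finset.smul_sum]
  refine Finset.sum_congr rfl fun i _ => ?_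
  rw [map_smul, Finsupp.smul_apply, smul_eq_mul, l_mul, smul_smul, Rat.cast_mul]

theorem lx_sum (X : V) {ι : Type} (s : Finset ι) (f : ι → D.H X) :
    lx hr l X (∑ i ∈ s, f i) = ∑ i ∈ s, lx hr l X (f i) := by
  classical
  induction s using Finset.induction_on with
  | empty => rw [Finset.sum_empty, Finset.sum_empty, lx_zero]
  | insert i s hi ih => rw [Finset.sum_insert hi, Finset.sum_insert hi, lx_add, ih]

theorem lx_mem (X : V) (a : D.H X) : lx hr l X a ∈ P.rat X := by
  rw [rb_spec hr]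
  intro i
  refine ⟨l ((rb hr X).repr a i), ?_⟩
  unfold lx
  rw [Module.Basis.repr_sum_self]

/-- `lx` commutes with additive maps which are linear and preserve rational classes -/
theorem lx_comm {X Y : V} (f : D.H X →ₗ[ℂ] D.H Y) (hf : ∀ x ∈ P.rat X, f x ∈ P.rat Y)
    (a : D.H X) : lx hr l Y (f a) = f (lx hr l X a) := by
  refine rat_ind hr (p := fun a => lx hr l Y (f a) = f (lx hr l X a)) ?_ ?_ a
  · intro c x hx
    rw [map_smul, lx_smul hr l Y c (hf x hx), lx_smul hr l X c hx, map_smul]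
  · intro a b ha hb
    rw [map_add, lx_add, lx_add, map_add, ha, hb]

/-- the operator `l(Θ)` -/
noncomputable def TT (Θ : D.Fam) : D.Fam := fun X =>
  (rb hr X).constr ℂ (fun i => lx hr l X (Θ X (rb hr X i)))

theorem TT_rat (Θ : D.Fam) (X : V) {x : D.H X} (hx : x ∈ P.rat X) :
    TT hr l Θ X x = lx hr l X (Θ X x) := by
  have h1 := (rb_spec hr X x).1 hx
  choose q hq using h1
  have h2 : x = ∑ i, (q i : ℂ) • rb hr X i := by
    conv_lhs => rw [← (rb hr X).sum_repr x]
    refine Finset.sum_congr rfl fun i _ => ?_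
    rw [hq]
  rw [h2, map_sum, map_sum, lx_sum]
  refine Finset.sum_congr rfl fun i _ => ?_
  rw [map_smul, map_smul, lx_qsmul]
  congr 1
  exact Module.Basis.constr_basis _ _ _ _

theorem TT_mem (Θ : D.Fam) (X : V) {x : D.H X} (hx : x ∈ P.rat X) :
    TT hr l Θ X x ∈ P.rat X := by
  rw [TT_rat hr l Θ X hx]
  exact lx_mem hr l X _

theorem TT_mot {Θ : D.Fam} (hΘ : D.MotDer Θ) : D.MotDer (TT hr l Θ) := by
  constructor
  · intro X i a ha
    -- all classes of the form `proj i a`
    have key : ∀ a : D.H X, TT hr l Θ X (GradedAlgebra.proj (D.R X).deg i a) ∈ D.deg X i := by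
      intro a
      refine rat_ind hr (p := fun a => TT hr l Θ X (GradedAlgebra.proj (D.R X).deg i a) ∈
        D.deg X i) ?_ ?_ a
      · intro c x hx
        rw [map_smul, map_smul]
        refine Submodule.smul_mem _ _ ?_
        have h1 := hr.deg X i x hx
        rw [TT_rat hr l Θ X h1]
        have h2 : Θ X (GradedAlgebra.proj (D.R X).deg i x) ∈ D.deg X i := by
          refine hΘ.deg X i _ ?_
          rw [GradedAlgebra.proj_apply]
          exact SetLike.coe_mem _
        have h3 : GradedAlgebra.proj (D.R X).deg i (Θ X (GradedAlgebra.proj (D.R X).deg i x)) =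
            Θ X (GradedAlgebra.proj (D.R X).deg i x) := by
          rw [GradedAlgebra.proj_apply, DirectSum.decompose_of_mem_same _ h2]
        rw [← h3, lx_comm hr l (GradedAlgebra.proj (D.R X).deg i) (hr.deg X i),
          GradedAlgebra.proj_apply]
        exact SetLike.coe_mem _
      · intro a b h1 h2
        rw [map_add, map_add]
        exact add_mem h1 h2
    have h1 := key a
    rwa [GradedAlgebra.proj_apply, DirectSum.decompose_of_mem_same _ ha] at h1
  · intro X Y f a
    refine rat_ind hr (p := fun a => TT hr l Θ X (D.pb f a) = D.pb f (TT hr l Θ Y a)) ?_ ?_ a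
    · intro c x hx
      rw [pb_smul, map_smul, map_smul, pb_smul, TT_rat hr l Θ X (hr.pull X Y f x hx),
        TT_rat hr l Θ Y hx, hΘ.pull]
      congr 1
      exact lx_comm hr l (D.pull f).toLinearMap (hr.pull X Y f) _
    · intro a b h1 h2
      rw [pb_add, map_add, map_add, pb_add, h1, h2]
  · intro X Y a b
    refine rat_ind hr (p := fun a => TT hr l Θ (X ⊗ Y) (D.cross a b) =
      D.cross (TT hr l Θ X a) b + D.cross a (TT hr l Θ Y b)) ?_ ?_ a
    · intro c x hx
      rw [cross_smul_left, map_smul, map_smul, cross_smul_left, cross_smul_left, ← smul_add]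
      congr 1
      refine rat_ind hr (p := fun b => TT hr l Θ (X ⊗ Y) (D.cross x b) =
        D.cross (TT hr l Θ X x) b + D.cross x (TT hr l Θ Y b)) ?_ ?_ b
      · intro d y hy
        rw [cross_smul_right, map_smul, map_smul, cross_smul_right, cross_smul_right, ← smul_add]
        congr 1
        have hxy : D.cross x y ∈ P.rat (X ⊗ Y) :=
          hr.mul _ _ (hr.pull _ _ _ x hx) _ (hr.pull _ _ _ y hy)
        rw [TT_rat hr l Θ _ hxy, hΘ.cross, lx_add, TT_rat hr l Θ X hx, TT_rat hr l Θ Y hy]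
        congr 1
        · exact lx_comm hr l ((LinearMap.mulRight ℂ (D.pb (snd X Y) y)) ∘ₗ
            (D.pull (fst X Y)).toLinearMap)
            (fun z hz => hr.mul _ _ (hr.pull _ _ _ z hz) _ (hr.pull _ _ _ y hy)) _
        · exact lx_comm hr l ((LinearMap.mulLeft ℂ (D.pb (fst X Y) x)) ∘ₗ
            (D.pull (snd X Y)).toLinearMap)
            (fun z hz => hr.mul _ _ (hr.pull _ _ _ x hx) _ (hr.pull _ _ _ z hz)) _
      · intro b b' h1 h2
        rw [cross_add_right, map_add, map_add, cross_add_right, cross_add_right, h1, h2]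
        abel
    · intro a a' h1 h2
      rw [cross_add_left, map_add, map_add, cross_add_left, cross_add_left, h1, h2]
      abel
  · intro X i a ha
    have h1 := hr.alg X i ha
    have h2 : Submodule.span ℂ {x | x ∈ D.C X i ∧ x ∈ P.rat X} ≤
        LinearMap.ker (TT hr l Θ X) := by
      rw [Submodule.span_le]
      rintro x ⟨hx1, hx2⟩
      show TT hr l Θ X x = 0
      rw [TT_rat hr l Θ X hx2, hΘ.alg X i x hx1, lx_zero]
    exact h2 h1
  · intro X a
    refine rat_ind hr (p := fun a => D.int (TT hr l Θ X a) = 0) ?_ ?_ a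
    · intro c x hx
      rw [map_smul, int_smul, TT_rat hr l Θ X hx]
      have key : ∀ y : D.H X, ((l (D.int y) : ℚ) : ℂ) = D.int (lx hr l X y) := by
        intro y
        refine rat_ind hr (p := fun y => ((l (D.int y) : ℚ) : ℂ) = D.int (lx hr l X y)) ?_ ?_ y
        · intro d y hy
          obtain ⟨q, hq⟩ := hr.int X y hy
          rw [int_smul, lx_smul hr l X d hy, int_smul, hq, mul_comm, l_mul, Rat.cast_mul, mul_comm]
        · intro y y' h1 h2
          rw [int_add, map_add, Rat.cast_add, lx_add, int_add, h1, h2]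
      rw [← key, hΘ.int, map_zero, Rat.cast_zero, mul_zero]
    · intro a b h1 h2
      rw [map_add, int_add, h1, h2, add_zero]

end rat

/-- finitely many complex numbers have a finite-dimensional `ℚ`-span -/
theorem exists_dual {ι : Type} [Finite ι] (e : ι → ℂ) :
    ∃ (r : ℕ) (c : Fin r → ℂ) (l : Fin r → (ℂ →ₗ[ℚ] ℚ)), ∀ i, e i = ∑ j, c j * (l j (e i) : ℚ) := by
  let S : Submodule ℚ ℂ := Submodule.span ℚ (Set.range e)
  have : FiniteDimensional ℚ S := FiniteDimensional.span_of_finite ℚ (Set.finite_range e)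
  let B := Module.finBasis ℚ S
  have hex : ∀ j, ∃ g : ℂ →ₗ[ℚ] ℚ, g ∘ₗ S.subtype = B.coord j :=
    fun j => (B.coord j).exists_extend
  choose g hg using hex
  refine ⟨_, fun j => (B j : ℂ), g, fun i => ?_⟩
  have hi : e i ∈ S := Submodule.subset_span ⟨i, rfl⟩
  have h1 := congrArg (fun s : S => (s : ℂ)) (B.sum_repr ⟨e i, hi⟩)
  simp only [Submodule.coe_sum, Submodule.coe_smul] at h1
  rw [← h1]
  conv_lhs => rw [h1]
  conv_lhs => rw [← h1]
  refine Finset.sum_congr rfl fun j _ => ?_
  have h2 : g j (∑ i', (B.repr ⟨e i, hi⟩ i') • ((B i' : S) : ℂ)) = B.repr ⟨e i, hi⟩ j := by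
    rw [h1]
    have := LinearMap.congr_fun (hg j) ⟨e i, hi⟩
    simpa using this
  rw [h2, Rat.smul_def, mul_comm]

end RATAux

open RATAux in
theorem blk_RAT {D : WeilData.{u, v, w, 0} V ℂ} {P : HodgeTheory D} (_hD : D.IsWeil)
    (hr : P.RatAxioms) (h : P.toHodgeData.HodgeAxioms) :
    Stmt_HPA P.toHodgeData h → Stmt_RAT P h := by
  rintro ⟨-, -, -, -, -, -, -, -, -, -, hΘ⟩ Y
  obtain ⟨r, c, l, hl⟩ := exists_dual (fun ij : Fin (rk hr Y) × Fin (rk hr Y) =>
    (rb hr Y).repr (P.toHodgeData.hodgeOp h Y (rb hr Y ij.2)) ij.1)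
  refine ⟨r, c, fun j => TT hr (l j) (P.toHodgeData.hodgeOp h), fun j => ⟨TT_mot hr (l j) hΘ,
    fun X x hx => TT_mem hr (l j) _ X hx⟩, ?_⟩
  refine (rb hr Y).ext fun k => ?_
  rw [LinearMap.sum_apply]
  have h1 : ∀ j, (c j • TT hr (l j) (P.toHodgeData.hodgeOp h) Y) (rb hr Y k) =
      ∑ i, (c j * ((l j) ((rb hr Y).repr (P.toHodgeData.hodgeOp h Y (rb hr Y k)) i) : ℚ)) •
        rb hr Y i := by
    intro j
    rw [LinearMap.smul_apply, TT_rat hr (l j) _ Y (rb_mem hr Y k)]
    unfold lx
    rw [Finset.smul_sum]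
    refine Finset.sum_congr rfl fun i _ => ?_
    rw [smul_smul]
  rw [Finset.sum_congr rfl fun j _ => h1 j, Finset.sum_comm]
  conv_lhs => rw [← (rb hr Y).sum_repr (P.toHodgeData.hodgeOp h Y (rb hr Y k))]
  refine Finset.sum_congr rfl fun i _ => ?_
  rw [← Finset.sum_smul]
  congr 1
  exact hl (i, k)

end Pool.KC
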