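import Pool.Agent.Work.MP_a60482_exo.Lef
import Pool.Agent.Work.MP_a60482_kc.Conv

/-!
# Hard Lefschetz forces the grading

If `H` and a regraded theory `H'` both satisfy the hard Lefschetz theorem on `X` for one class
`l`, and `C(X)` holds for one of them, then the two gradings of `H(X)` are the same; so `C(X)`
for `H` and `C(X)` for `H'` are equivalent.
-/

open CategoryTheory MonoidalCategory CartesianMonoidalCategory

universe u v w x

namespace Pool.KC

namespace PosAux

section core

variable {K : Type x} [Field K] {A : Type w} [Ring A] [Algebra K A]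

/-- the two gradings have a common nonzero element of bidegree `(a, b)` -/
def P (d d' : ℕ → Submodule K A) (a b : ℤ) : Prop :=
  ∃ i j : ℕ, (i : ℤ) = a ∧ (j : ℤ) = b ∧ ∃ v : A, v ≠ 0 ∧ v ∈ d i ∧ v ∈ d' j

theorem P.symm {d d' : ℕ → Submodule K A} {a b : ℤ} (h : P d d' a b) : P d' d b a := by
  obtain ⟨i, j, h1, h2, v, h3, h4, h5⟩ := h
  exact ⟨j, i, h2, h1, v, h3, h5, h4⟩

theorem pow_mem (d : ℕ → Submodule K A) [GradedAlgebra d] {l : A} (hl : l ∈ d 2) (k : ℕ) :
    l ^ k ∈ d (2 * k) := by
  have := SetLike.pow_mem_graded k hl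
  simpa [mul_comm] using this

/-- division by `l^k` is compatible with the grading -/
theorem div_mem (d : ℕ → Submodule K A) [GradedAlgebra d] {l : A} (hl : l ∈ d 2) {k j : ℕ}
    {u v : A} (hv : v ∈ d j) (huv : l ^ k * u = v) (hu : u ≠ 0)
    (hinj : ∀ m, l ^ k * GradedAlgebra.proj d m u = 0 → GradedAlgebra.proj d m u = 0) :
    ∃ m, m + 2 * k = j ∧ u ∈ d m := by
  classical
  have h1 : ∀ m, m + 2 * k ≠ j → GradedAlgebra.proj d m u = 0 := by
    intro m hm
    apply hinj
    have h2 : (DirectSum.decompose d (l ^ k * u) (2 * k + m) : A) =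
        l ^ k * DirectSum.decompose d u m :=
      DirectSum.coe_decompose_mul_add_of_left_mem d (pow_mem d hl k)
    rw [GradedAlgebra.proj_apply, ← h2, huv]
    exact DirectSum.decompose_of_mem_ne d hv (by omega)
  by_cases hk : 2 * k ≤ j
  · refine ⟨j - 2 * k, by omega, ?_⟩
    have h3 : u = GradedAlgebra.proj d (j - 2 * k) u := by
      conv_lhs => rw [← DirectSum.sum_support_decompose d u]
      rw [GradedAlgebra.proj_apply]
      rw [Finset.sum_eq_single (j - 2 * k)]
      · intro m _ hm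
        have := h1 m (by omega)
        rwa [GradedAlgebra.proj_apply] at this
      · intro hm
        have := DFinsupp.notMem_support_iff.mp hm
        rw [this]
        rfl
    rw [h3, GradedAlgebra.proj_apply]
    exact SetLike.coe_mem _
  · exfalso
    apply hu
    rw [← DirectSum.sum_support_decompose d u]
    apply Finset.sum_eq_zero
    intro m _
    have := h1 m (by omega)
    rwa [GradedAlgebra.proj_apply] at this

variable (d d' : ℕ → Submodule K A) [GradedAlgebra d] [GradedAlgebra d'] (n : ℕ) (l : A)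

theorem step (hl : l ∈ d 2) (hl' : l ∈ d' 2) (top : ∀ i, 2 * n < i → ∀ a ∈ d i, a = 0)
    (HL : ∀ i k : ℕ, i + k = n → (∀ a ∈ d i, l ^ k * a = 0 → a = 0) ∧
      ∀ b ∈ d (i + 2 * k), ∃ a ∈ d i, l ^ k * a = b)
    (comm : ∀ i j, ∀ a ∈ d j, GradedAlgebra.proj d' i a ∈ d j) {a b : ℤ} (h : P d d' a b) :
    P d d' (2 * n - a) (b + 2 * n - 2 * a) := by
  obtain ⟨i, j, hi, hj, v, hv0, hv, hv'⟩ := h
  subst hi hj
  have hi2 : i ≤ 2 * n := by
    by_contra hc
    exact hv0 (top i (by omega) v hv)
  by_cases hin : i ≤ n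
  · obtain ⟨k, hk⟩ := Nat.exists_eq_add_of_le hin
    refine ⟨2 * k + i, 2 * k + j, by push_cast [hk]; ring, by push_cast [hk]; ring,
      l ^ k * v, fun h0 => hv0 ((HL i k hk.symm).1 v hv h0), ?_, ?_⟩
    · exact SetLike.GradedMonoid.toGradedMul.mul_mem (pow_mem d hl k) hv
    · exact SetLike.GradedMonoid.toGradedMul.mul_mem (pow_mem d' hl' k) hv'
  · obtain ⟨k, hk⟩ := Nat.exists_eq_add_of_le (le_of_not_ge hin)
    obtain ⟨m, hm⟩ := Nat.exists_eq_add_of_le (show k ≤ n by omega)
    have hmk : m + k = n := by omega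
    have hi3 : i = m + 2 * k := by omega
    subst hi3
    obtain ⟨u, hu, huv⟩ := (HL m k hmk).2 v hv
    have hu0 : u ≠ 0 := by
      rintro rfl
      exact hv0 (by rw [← huv, mul_zero])
    obtain ⟨q, hq, huq⟩ := div_mem d' hl' hv' huv hu0 fun q hq =>
      (HL m k hmk).1 _ (comm q m u hu) hq
    refine ⟨m, q, ?_, ?_, u, hu0, hu, huq⟩
    · push_cast
      omega
    · push_cast
      omega

theorem core (hl : l ∈ d 2) (hl' : l ∈ d' 2) (top : ∀ i, 2 * n < i → ∀ a ∈ d i, a = 0)
    (top' : ∀ i, 2 * n < i → ∀ a ∈ d' i, a = 0)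
    (HL : ∀ i k : ℕ, i + k = n → (∀ a ∈ d i, l ^ k * a = 0 → a = 0) ∧
      ∀ b ∈ d (i + 2 * k), ∃ a ∈ d i, l ^ k * a = b)
    (HL' : ∀ i k : ℕ, i + k = n → (∀ a ∈ d' i, l ^ k * a = 0 → a = 0) ∧
      ∀ b ∈ d' (i + 2 * k), ∃ a ∈ d' i, l ^ k * a = b)
    (comm : ∀ i j, ∀ a ∈ d j, GradedAlgebra.proj d' i a ∈ d j)
    (comm' : ∀ i j, ∀ a ∈ d' j, GradedAlgebra.proj d i a ∈ d' j) (i j : ℕ) (v : A) (hv0 : v ≠ 0)
    (hv : v ∈ d i) (hv' : v ∈ d' j) : i = j := by
  by_contra hij
  have key : ∀ a b : ℤ, P d d' a b → P d d' (a - 2 * (b - a)) (b - 2 * (b - a)) := by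
    intro a b h
    have h1 := step d d' n l hl hl' top HL comm h
    have h2 := (step d' d n l hl' hl top' HL' comm' h1.symm).symm
    have e1 : 2 * (n : ℤ) - a + 2 * n - 2 * (b + 2 * n - 2 * a) = a - 2 * (b - a) := by ring
    have e2 : 2 * (n : ℤ) - (b + 2 * n - 2 * a) = b - 2 * (b - a) := by ring
    rwa [e1, e2] at h2
  have iter : ∀ k : ℕ, P d d' (i - 2 * ((j : ℤ) - i) * k) (j - 2 * ((j : ℤ) - i) * k) := by
    intro k
    induction k with
    | zero => exact ⟨i, j, by simp, by simp, v, hv0, hv, hv'⟩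
    | succ k ih =>
      have h1 := key _ _ ih
      have e1 : (i : ℤ) - 2 * (j - i) * k -
          2 * (j - 2 * (j - i) * k - (i - 2 * (j - i) * k)) = i - 2 * (j - i) * (k + 1 : ℕ) := by
        push_cast
        ring
      have e2 : (j : ℤ) - 2 * (j - i) * k -
          2 * (j - 2 * (j - i) * k - (i - 2 * (j - i) * k)) = j - 2 * (j - i) * (k + 1 : ℕ) := by
        push_cast
        ring
      rwa [e1, e2] at h1
  have hb : ∀ a b : ℤ, P d d' a b → 0 ≤ a ∧ a ≤ 2 * n := by
    rintro a b ⟨i, j, hi, hj, v, hv0, hv, hv'⟩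
    subst hi
    refine ⟨by positivity, ?_⟩
    by_contra hc
    exact hv0 (top i (by omega) v hv)
  have h1 := hb _ _ (iter (2 * n + 1))
  have h0 := hb _ _ (iter 0)
  push_cast at h1 h0
  have hd : (j : ℤ) - i ≠ 0 := by omega
  rcases lt_or_gt_of_ne hd with h | h
  · have h3 : (j : ℤ) - i ≤ -1 := by omega
    nlinarith [h1.1, h1.2, h0.1, h0.2]
  · have h3 : 1 ≤ (j : ℤ) - i := by omega
    nlinarith [h1.1, h1.2, h0.1, h0.2]

omit [GradedAlgebra d] in
theorem mem_of_comm (comm : ∀ i j, ∀ a ∈ d j, GradedAlgebra.proj d' i a ∈ d j)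
    (h : ∀ (i j : ℕ) (v : A), v ≠ 0 → v ∈ d i → v ∈ d' j → i = j) {i : ℕ} {v : A}
    (hv : v ∈ d i) : v ∈ d' i := by
  classical
  rw [← DirectSum.sum_support_decompose d' v]
  apply Submodule.sum_mem
  intro m _
  by_cases h0 : (DirectSum.decompose d' v m : A) = 0
  · rw [h0]
    exact zero_mem _
  · have h1 := comm m i v hv
    rw [GradedAlgebra.proj_apply] at h1
    have h2 := h i m _ h0 h1 (SetLike.coe_mem _)
    subst h2
    exact SetLike.coe_mem _

/-- commuting gradings -/
theorem comm_symm (comm : ∀ i j, ∀ a ∈ d j, GradedAlgebra.proj d' i a ∈ d j) :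
    ∀ i j, ∀ a ∈ d' j, GradedAlgebra.proj d i a ∈ d' j := by
  classical
  intro i j a ha
  -- `proj' j` commutes with `proj i`
  have h1 : ∀ b : A, GradedAlgebra.proj d i (GradedAlgebra.proj d' j b) =
      GradedAlgebra.proj d' j (GradedAlgebra.proj d i b) := by
    intro b
    refine DirectSum.Decomposition.inductionOn d (motive := fun b =>
      GradedAlgebra.proj d i (GradedAlgebra.proj d' j b) =
      GradedAlgebra.proj d' j (GradedAlgebra.proj d i b)) (by simp) ?_ ?_ b
    · intro m c
      have h2 := comm j m c c.2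
      by_cases hm : m = i
      · subst hm
        rw [GradedAlgebra.proj_apply d m (GradedAlgebra.proj d' j (c : A)),
          GradedAlgebra.proj_apply d m (c : A), DirectSum.decompose_of_mem_same d h2,
          DirectSum.decompose_of_mem_same d c.2]
      · rw [GradedAlgebra.proj_apply d i (GradedAlgebra.proj d' j (c : A)),
          GradedAlgebra.proj_apply d i (c : A), DirectSum.decompose_of_mem_ne d h2 hm,
          DirectSum.decompose_of_mem_ne d c.2 hm, map_zero]
    · intro b c hb hc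
      simp only [map_add, hb, hc]
  have h3 : GradedAlgebra.proj d' j a = a := by
    rw [GradedAlgebra.proj_apply]
    exact DirectSum.decompose_of_mem_same d' ha
  have h4 := h1 a
  rw [h3] at h4
  rw [h4, GradedAlgebra.proj_apply]
  exact SetLike.coe_mem _

end core

variable {V : Type u} [Category.{v} V] [CartesianMonoidalCategory V] {K : Type x} [Field K]

open WeilData

/-- The Kuenneth projectors, if they are algebraic, preserve the degrees of any regraded
theory: for two theories `D`, `D'` with the same algebras, maps and classes. -/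
theorem proj_pres {D : WeilData.{u, v, w, x} V K} (hD : D.IsWeil) (g : D.Regrading)
    (hD' : (D.regrade g).IsWeil) {X : V} (hC : D.ConjC X) (i j : ℕ) (a : D.H X)
    (ha : a ∈ g.deg X j) : GradedAlgebra.proj (D.R X).deg i a ∈ g.deg X j := by
  rw [conjC_iff' hD] at hC
  by_cases hi : i ≤ 2 * D.dim X
  · have h1 := hC i hi
    have h2 : (toWeil hD').act ((toWeil hD).kunnethComponent X i) a ∈ g.deg X j :=
      (toWeil hD').act_deg (X := X) (Y := X) (i := j) (k := 2 * D.dim X) (l := j)
        (hD'.cycle.deg (X ⊗ X) (D.dim X) h1) (Nat.add_comm _ _) ha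
    have h3 : (toWeil hD').act ((toWeil hD).kunnethComponent X i) a =
        (toWeil hD).act ((toWeil hD).kunnethComponent X i) a := by
      rw [act_eq hD, act_eq hD']
      rfl
    have h4 : (toWeil hD).act ((toWeil hD).kunnethComponent X i) a =
        (toWeil hD).proj X i a := by
      rw [(toWeil hD).act_kunneth hi]
    rw [h3, h4] at h2
    exact h2
  · have h1 : GradedAlgebra.proj (D.R X).deg i a = 0 :=
      (toWeil hD).deg_eq_zero ((toWeil hD).proj_mem i a) (by
        change 2 * D.dim X < i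
        omega)
    rw [h1]
    exact zero_mem _

end PosAux

open PosAux WeilData in
/-- Hard Lefschetz for `l` on `X` for both theories: `C(X)` for `H` and for `H'` are
equivalent, and imply that the gradings of `H(X)` are the same. -/
theorem grading_forced {V : Type u} [Category.{v} V] [CartesianMonoidalCategory V]
    {K : Type x} [Field K] (D : WeilData.{u, v, w, x} V K) (hD : D.IsWeil) (g : D.Regrading)
    (hD' : (D.regrade g).IsWeil) (X : V) (l : D.H X) (hl : l ∈ D.C X 1)
    (hL : D.HardLefschetz X l) (hL' : (D.regrade g).HardLefschetz X l) :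
    (D.ConjC X ↔ (D.regrade g).ConjC X) ∧ (D.ConjC X → ∀ i, g.deg X i = D.deg X i) := by
  letI := g.grad X
  have top : ∀ i, 2 * D.dim X < i → ∀ a ∈ D.deg X i, a = 0 := fun i hi a ha =>
    (toWeil hD).deg_eq_zero ha hi
  have top' : ∀ i, 2 * D.dim X < i → ∀ a ∈ g.deg X i, a = 0 := fun i hi a ha =>
    (toWeil hD').deg_eq_zero ha hi
  have key : ∀ (comm : ∀ i j, ∀ a ∈ D.deg X j, GradedAlgebra.proj (g.deg X) i a ∈ D.deg X j)
      (comm' : ∀ i j, ∀ a ∈ g.deg X j, GradedAlgebra.proj (D.R X).deg i a ∈ g.deg X j),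
      ∀ i, g.deg X i = D.deg X i := by
    intro comm comm'
    have h := core (D.R X).deg (g.deg X) (D.dim X) l (hD.cycle.deg X 1 hl)
      (hD'.cycle.deg X 1 hl) top top' hL hL' comm comm'
    intro i
    apply le_antisymm
    · intro v hv
      exact mem_of_comm (g.deg X) (D.R X).deg comm' (fun i j v h0 h1 h2 => (h j i v h0 h2 h1).symm)
        hv
    · intro v hv
      exact mem_of_comm (D.R X).deg (g.deg X) comm h hv
  have hdeg : (∀ i, g.deg X i = D.deg X i) → (D.ConjC X ↔ (D.regrade g).ConjC X) := by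
    intro h
    have h0 : g.deg X = (D.R X).deg := funext h
    have hb : ∀ i j, (D.regrade g).bideg X X i j = D.bideg X X i j := by
      intro i j
      change Submodule.span K {t | ∃ a ∈ g.deg X i, ∃ b ∈ g.deg X j, D.cross a b = t} = _
      rw [h0]
      rfl
    have hk : ∀ p : ℕ → D.H (X ⊗ X), (D.regrade g).IsKunneth X p ↔ D.IsKunneth X p := by
      intro p
      constructor
      · rintro ⟨h1, h2⟩
        refine ⟨fun i hi => ?_, h2⟩
        rw [← hb]
        exact h1 i hi
      · rintro ⟨h1, h2⟩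
        refine ⟨fun i hi => ?_, h2⟩
        rw [hb]
        exact h1 i hi
    constructor
    · rintro ⟨p, h1, h2⟩
      exact ⟨p, (hk p).2 h1, h2⟩
    · rintro ⟨p, h1, h2⟩
      exact ⟨p, (hk p).1 h1, h2⟩
  have one : D.ConjC X → ∀ i, g.deg X i = D.deg X i := by
    intro hC
    have comm' : ∀ i j, ∀ a ∈ g.deg X j, GradedAlgebra.proj (D.R X).deg i a ∈ g.deg X j :=
      fun i j a ha => proj_pres hD g hD' hC i j a ha
    exact key (comm_symm (g.deg X) (D.R X).deg comm') comm'
  refine ⟨⟨fun hC => (hdeg (one hC)).1 hC, fun hC => ?_⟩, one⟩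
  -- the converse: `D` is a regrading of `D.regrade g`
  let g' : (D.regrade g).Regrading :=
    { deg := fun X => (D.R X).deg
      grad := fun X => (D.R X).grad
      comm := fun X => (D.R X).comm }
  have comm : ∀ i j, ∀ a ∈ D.deg X j, GradedAlgebra.proj (g.deg X) i a ∈ D.deg X j :=
    fun i j a ha => proj_pres (D := D.regrade g) hD' g' hD hC i j a ha
  exact (hdeg (key comm (comm_symm (D.R X).deg (g.deg X) comm))).2 hC

end Pool.KC
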