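import Pool.Agent.Work.MP_a60482_exo.GRA

/-!
# The new Betti number
-/

open CategoryTheory MonoidalCategory CartesianMonoidalCategory

universe u v w x

namespace Pool.KC

variable {V : Type u} [Category.{v} V] [CartesianMonoidalCategory V]

namespace BETAux

variable {D : WeilData.{u, v, w, 0} V ℂ}

/-- a diagonalizable family with only the eigenvalue zero on `H^k(X)` is zero there -/
theorem zero_of_eigen (hD : D.IsWeil) {T : D.Fam} (hT : D.MotDer T) (hdiag : D.Diag T) (X : V)
    (k : ℕ) (h0 : ∀ a ∈ D.deg X k, a ≠ 0 → ∀ μ : ℂ, T X a = μ • a → μ = 0) :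
    ∀ a ∈ D.deg X k, T X a = 0 := by
  have key : ∀ a : D.H X, T X ((WeilData.toCoh hD).proj X k a) = 0 := by
    intro a
    have ha : a ∈ ⨆ μ : ℂ, Module.End.eigenspace (T X) μ := by
      rw [hdiag X]
      exact Submodule.mem_top
    refine Submodule.iSup_induction (fun μ : ℂ => Module.End.eigenspace (T X) μ)
      (motive := fun a => T X ((WeilData.toCoh hD).proj X k a) = 0) ha ?_ ?_ ?_
    · intro μ x hx
      rw [Module.End.mem_eigenspace_iff] at hx
      have h1 : T X ((WeilData.toCoh hD).proj X k x) = μ • (WeilData.toCoh hD).proj X k x := by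
        rw [GRAAux.comm_proj hD hT X k x, hx, map_smul]
      by_cases hz : (WeilData.toCoh hD).proj X k x = 0
      · rw [hz, map_zero]
      · rw [h1, h0 _ ((WeilData.toCoh hD).proj_mem k x) hz μ h1, zero_smul]
    · rw [map_zero, map_zero]
    · intro x y hx hy
      rw [map_add, map_add, hx, hy, add_zero]
  intro a ha
  have h1 := key a
  have h2 : (WeilData.toCoh hD).proj X k a = a := (WeilData.toCoh hD).proj_same ha
  rwa [h2] at h1

end BETAux

open BETAux in
theorem betti_regrade {D : WeilData.{u, v, w, 0} V ℂ} (hD : D.IsWeil) {d : ℕ} (h3 : 3 ≤ d) {T : D.Fam}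
    (hT : D.MotDer T) (hdiag : D.Diag T) (hs : D.Small d T) {Y : V} (hdim : D.dim Y = d)
    {ω η : D.H Y} (hη : η ∈ D.deg Y d) (hωη : D.int (ω * η) = 1)
    (hηη : D.int (η * η) = 0) (hω1 : T Y ω = ω)
    (hTx : ∀ x ∈ D.deg Y d, T Y x = -(D.int (ω * x) • η + D.int (η * x) • ω))
    (g : D.Regrading) (hg : ∀ (X : V) (j : ℕ), g.deg X j = D.rdeg T X j) :
    (D.regrade g).betti Y (d - 2) = D.betti Y (d - 2) + 1 := by
  have hTη : T Y η = -η := by
    rw [hTx η hη, hωη, hηη]
    module
  have hη0 : η ≠ 0 := by
    intro h0
    rw [h0, mul_zero] at hωη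
    have : D.int (0 : D.H Y) = 0 := map_zero (D.tr Y)
    rw [this] at hωη
    exact zero_ne_one hωη
  have hz : ∀ a ∈ D.deg Y (d - 2), T Y a = 0 := by
    refine zero_of_eigen hD hT hdiag Y (d - 2) fun a ha ha0 μ hμ => ?_
    obtain ⟨m, rfl, h1, -⟩ := hs Y (d - 2) a ha ha0 μ hμ
    have h2 : |m| = 0 := by
      by_contra hm
      have h4 : 1 ≤ |m| := Int.one_le_abs (fun h0 => hm (by rw [h0, abs_zero]))
      have h5 : (d : ℤ) * 1 ≤ (d : ℤ) * |m| := by
        exact mul_le_mul_of_nonneg_left h4 (by positivity)
      omega
    rw [abs_eq_zero.1 h2, Int.cast_zero]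
  have hle : D.rdeg T Y (d - 2) = D.deg Y (d - 2) ⊔ Submodule.span ℂ {η} := by
    apply le_antisymm
    · rw [WeilData.rdeg, Submodule.span_le]
      rintro a ⟨k, m, hak, ham, hkm⟩
      by_cases ha0 : a = 0
      · rw [ha0]
        exact zero_mem _
      obtain ⟨m', hm', h1, h2⟩ := hs Y k a hak ha0 m ham
      have hmm : m' = m := by exact_mod_cast hm'.symm
      subst hmm
      rw [hdim] at h2
      have hcases : m' = 0 ∨ m' = -1 := by
        rcases lt_trichotomy m' 0 with hm | hm | hm
        · right
          rw [abs_of_neg hm] at h1 h2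
          by_contra hne
          have h4 : m' ≤ -2 := by omega
          have h5 : (k : ℤ) = d - 2 - 2 * m' := by omega
          rw [h5] at h2
          nlinarith
        · exact Or.inl hm
        · exfalso
          rw [abs_of_pos hm] at h1
          have h5 : (k : ℤ) = d - 2 - 2 * m' := by omega
          rw [h5] at h1
          nlinarith
      rcases hcases with hm | hm
      · have hk : k = d - 2 := by
          rw [hm] at hkm
          omega
        exact (le_sup_left : D.deg Y (d - 2) ≤ _) (hk ▸ hak)
      · have hk : k = d := by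
          rw [hm] at hkm
          omega
        subst hk
        have e1 := hTx a hak
        rw [ham, hm] at e1
        have e2 := congrArg (T Y) e1
        rw [map_smul, map_neg, map_add, map_smul, map_smul, hTη, hω1, ham, hm] at e2
        have e3 : (2 : ℂ) • (D.int (η * a) • ω) = 0 := by
          have e4 : a = D.int (ω * a) • η + D.int (η * a) • ω := by
            have := congrArg Neg.neg e1
            rw [neg_neg] at this
            rw [← this]
            module
          have e5 : a = D.int (ω * a) • η - D.int (η * a) • ω := by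
            have h6 : ((-1 : ℤ) : ℂ) • ((-1 : ℤ) : ℂ) • a = a := by
              module
            rw [h6] at e2
            exact e2.trans (by module)
          have e6 : (2 : ℂ) • (D.int (η * a) • ω) =
              (D.int (ω * a) • η + D.int (η * a) • ω) -
              (D.int (ω * a) • η - D.int (η * a) • ω) := by module
          rw [e6, ← e4, ← e5, sub_self]
        have e7 : D.int (η * a) • ω = 0 := by
          have := congrArg (fun z => (1 / 2 : ℂ) • z) e3
          simpa [smul_smul] using this
        have e4 : a = D.int (ω * a) • η + D.int (η * a) • ω := by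
          have := congrArg Neg.neg e1
          rw [neg_neg] at this
          rw [← this]
          module
        rw [e7, add_zero] at e4
        rw [e4]
        exact (le_sup_right : Submodule.span ℂ {η} ≤ _)
          (Submodule.smul_mem _ _ (Submodule.mem_span_singleton_self η))
    · refine sup_le ?_ ?_
      · intro a ha
        refine Submodule.subset_span ⟨d - 2, 0, ha, ?_, by omega⟩
        rw [hz a ha, Int.cast_zero, zero_smul]
      · rw [Submodule.span_singleton_le_iff_mem]
        refine Submodule.subset_span ⟨d, -1, hη, ?_, by omega⟩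
        rw [hTη]
        module
  have hdisj : Disjoint (D.deg Y (d - 2)) (Submodule.span ℂ {η}) := by
    have hi := (DirectSum.Decomposition.isInternal (D.R Y).deg).submodule_iSupIndep
    have h1 := hi.pairwiseDisjoint (show d - 2 ≠ d by omega)
    refine Disjoint.mono_right ?_ h1
    rw [Submodule.span_singleton_le_iff_mem]
    exact hη
  change Module.finrank ℂ (g.deg Y (d - 2)) = Module.finrank ℂ (D.deg Y (d - 2)) + 1
  rw [hg, hle]
  have h1 := Submodule.finrank_sup_add_finrank_inf_eq (D.deg Y (d - 2)) (Submodule.span ℂ {η})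
  rw [disjoint_iff.1 hdisj, finrank_bot, add_zero, finrank_span_singleton hη0] at h1
  exact h1

end Pool.KC
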