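import Pool.Agent.Work.MP_a60482_exo.Grading

/-!
# Hard Lefschetz
-/

open CategoryTheory MonoidalCategory CartesianMonoidalCategory

universe u v w x

namespace Pool.KC

/-- Hard Lefschetz for the class `l` on `X`: for `i + k = dim X`, multiplication by `l^k` is an
isomorphism from `H^i(X)` to `H^(i + 2 k)(X)`. -/
def WeilData.HardLefschetz {V : Type u} [Category.{v} V] [CartesianMonoidalCategory V]
    {K : Type x} [Field K] (D : WeilData.{u, v, w, x} V K) (X : V) (l : D.H X) : Prop :=
  ∀ i k : ℕ, i + k = D.dim X →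
    (∀ a ∈ D.deg X i, l ^ k * a = 0 → a = 0) ∧
    ∀ b ∈ D.deg X (i + 2 * k), ∃ a ∈ D.deg X i, l ^ k * a = b

end Pool.KC
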