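import Pool.Agent.Work.MP_a60482_exo.Interface
import Pool.Agent.Work.MP_a60482_exo.Lef

/-!
# Hard Lefschetz fails for the regraded theory
-/

open CategoryTheory MonoidalCategory CartesianMonoidalCategory

universe u v w x

namespace Pool.KC

variable {V : Type u} [Category.{v} V] [CartesianMonoidalCategory V]

/-- a nonzero class in `H^d(Y)` on which `p - q` is `d` is not a multiple of a class of
type `(1, 1)` -/
theorem not_mul {D : WeilData.{u, v, w, 0} V ℂ} {P : HodgeData D} (h : P.HodgeAxioms)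
    (hA : Stmt_HPA P h) {Y : V} {d : ℕ} {ω : D.H Y} (hω : ω ∈ D.deg Y d) (hω0 : ω ≠ 0)
    (hev : P.hodgeOp h Y ω = (d : ℂ) • ω) (l : D.H Y) (hl : l ∈ P.hodge Y 1 1) (y : D.H Y) :
    l * y ≠ ω := by
  intro hy
  set φ : ℕ → ℕ → ℂ := fun _ q => if q = 0 then 1 else 0 with hφ
  set ψ : ℕ → ℕ → ℂ := fun _ q => if q = 0 then 0 else -(2 * (q : ℂ))⁻¹ with hψ
  have h1 : P.hop h φ Y (l * y) = 0 := by
    refine HodgeData.hodge_ind h (p := fun y => P.hop h φ Y (l * y) = 0) ?_ ?_ y
    · intro r s a ha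
      rw [HodgeData.hop_apply h φ (h.mul Y 1 1 r s l hl a ha)]
      simp [hφ]
    · intro a b ha hb
      rw [mul_add, map_add, ha, hb, add_zero]
  have h2 : ∀ x ∈ D.deg Y d, x - P.hop h φ Y x = P.hop h ψ Y (P.hodgeOp h Y x - (d : ℂ) • x) := by
    intro x hx
    refine hA.2.2.1 Y d
      (fun x => x - P.hop h φ Y x = P.hop h ψ Y (P.hodgeOp h Y x - (d : ℂ) • x)) ?_ ?_ ?_ x hx
    · intro r s hrs a ha
      rw [HodgeData.hop_apply h φ ha, HodgeData.hodgeOp, HodgeData.hop_apply h _ ha, map_sub, map_smul, map_smul,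
        HodgeData.hop_apply h ψ ha]
      have hd : (d : ℂ) = r + s := by rw [← hrs]; push_cast; ring
      rw [hd]
      by_cases hs : s = 0
      · subst hs
        simp [hφ, hψ]
      · have hs' : (s : ℂ) ≠ 0 := Nat.cast_ne_zero.2 hs
        simp only [hφ, hψ, if_neg hs]
        rw [smul_smul, smul_smul, ← sub_smul, zero_smul, sub_zero]
        have : ((r : ℂ) - s) * -(2 * (s : ℂ))⁻¹ - ((r : ℂ) + s) * -(2 * (s : ℂ))⁻¹ = 1 := by
          field_simp
          ring
        rw [this, one_smul]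
    · intro a b ha hb
      simp only [map_add, smul_add] at ha hb ⊢
      have e1 : a + b - (P.hop h φ Y a + P.hop h φ Y b) =
        (a - P.hop h φ Y a) + (b - P.hop h φ Y b) := by abel
      have e2 : P.hodgeOp h Y a + P.hodgeOp h Y b - ((d : ℂ) • a + (d : ℂ) • b) =
        (P.hodgeOp h Y a - (d : ℂ) • a) + (P.hodgeOp h Y b - (d : ℂ) • b) := by abel
      rw [e1, e2, map_add, ha, hb]
    · simp
  have h3 := h2 ω hω
  rw [hev, sub_self, map_zero, ← hy, h1, sub_zero] at h3
  exact hω0 (hy ▸ h3)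

end Pool.KC
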