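import Pool.Agent.Work.MP_a60482_exo.Interface
import Pool.Agent.Work.MP_a60482_exo.BET
import Pool.Agent.Work.MP_a60482_exo.NHL

/-!
# The Kuenneth conjecture fails for regraded theories: assembly
-/

open CategoryTheory MonoidalCategory CartesianMonoidalCategory

universe u v w x

namespace Pool.KC

variable {V : Type u} [Category.{v} V] [CartesianMonoidalCategory V]

namespace ASMAux

section

variable {D : WeilData.{u, v, w, 0} V ℂ}

theorem int_add {X : V} (a b : D.H X) : D.int (a + b) = D.int a + D.int b :=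
  map_add (D.tr X) a b

theorem int_neg {X : V} (a : D.H X) : D.int (-a) = -D.int a := map_neg (D.tr X) a

theorem int_mul_smul {X : V} (a b : D.H X) (c : ℂ) : D.int (a * (c • b)) = c * D.int (a * b) := by
  rw [mul_smul_comm]
  exact map_smul (D.tr X) c (a * b)

theorem int_anti {d : ℕ} (hd : Odd d) {Y : V} {a b : D.H Y} (ha : a ∈ D.deg Y d)
    (hb : b ∈ D.deg Y d) : D.int (a * b) = -D.int (b * a) := by
  rw [(D.R Y).comm d d a b ha hb, (hd.mul hd).neg_one_pow, neg_one_mul, int_neg]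

theorem int_self {d : ℕ} (hd : Odd d) {Y : V} {a : D.H Y} (ha : a ∈ D.deg Y d) :
    D.int (a * a) = 0 := by
  have h := int_anti hd ha ha
  linear_combination (1 / 2 : ℂ) * h

variable {d : ℕ} {Y : V}

theorem adp_add {X : V} {T S : D.Fam} (hT : D.Adp d Y X T) (hS : D.Adp d Y X S) :
    D.Adp d Y X (T + S) := by
  intro K hK
  rw [Pi.add_apply, add_mul, map_add, hT K hK, hS K hK, add_zero]

theorem adp_smul {X : V} {T : D.Fam} (c : ℂ) (hT : D.Adp d Y X T) : D.Adp d Y X (c • T) := by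
  intro K hK
  rw [Pi.smul_apply, smul_mul_assoc, map_smul, hT K hK, smul_zero]

theorem fam_neg (T : D.Fam) : (-1 : ℂ) • T = -T := funext fun X => neg_one_smul ℂ (T X)

/-- families adapted to all varieties -/
structure Ad (d : ℕ) (Y : V) (T : D.Fam) : Prop where
  mot : D.MotDer T
  ad : ∀ X : V, D.Adp d Y X T

variable (hB : Stmt_BAS D)
include hB

theorem Ad.add {T S : D.Fam} (hT : Ad d Y T) (hS : Ad d Y S) : Ad d Y (T + S) :=
  ⟨hB.2.1 T S hT.mot hS.mot, fun X => adp_add (hT.ad X) (hS.ad X)⟩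

theorem Ad.smul {T : D.Fam} (c : ℂ) (hT : Ad d Y T) : Ad d Y (c • T) :=
  ⟨hB.2.2.1 c T hT.mot, fun X => adp_smul c (hT.ad X)⟩

theorem Ad.neg {T : D.Fam} (hT : Ad d Y T) : Ad d Y (-T) := by
  have h := Ad.smul hB (-1) hT
  rwa [fam_neg] at h

theorem Ad.sub {T S : D.Fam} (hT : Ad d Y T) (hS : Ad d Y S) : Ad d Y (T - S) := by
  rw [sub_eq_add_neg]
  exact Ad.add hB hT (Ad.neg hB hS)

theorem mot_neg {T : D.Fam} (hT : D.MotDer T) : D.MotDer (-T) := by
  have h := hB.2.2.1 (-1) T hT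
  rwa [fam_neg] at h

theorem mot_sub {T S : D.Fam} (hT : D.MotDer T) (hS : D.MotDer S) : D.MotDer (T - S) := by
  rw [sub_eq_add_neg]
  exact hB.2.1 _ _ hT (mot_neg hB hS)

theorem mot_sum {n : ℕ} {T : Fin n → D.Fam} (hT : ∀ i, D.MotDer (T i)) :
    D.MotDer (∑ i, T i) := by
  refine Finset.sum_induction _ (fun S => D.MotDer S) (fun a b ha hb => hB.2.1 a b ha hb)
    hB.1 fun i _ => hT i

theorem Ad.sum {n : ℕ} {T : Fin n → D.Fam} (hT : ∀ i, Ad d Y (T i)) : Ad d Y (∑ i, T i) := by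
  refine Finset.sum_induction _ (fun S => Ad d Y S) (fun a b ha hb => Ad.add hB ha hb)
    ⟨hB.1, fun X K hK => ?_⟩ fun i _ => hT i
  rw [Pi.zero_apply, zero_mul, map_zero]

variable {P : HodgeData D} {h : P.HodgeAxioms} (hN : Stmt_NDG P h d Y)
include hN

theorem Ad.brk {T S : D.Fam} (hT : Ad d Y T) (hS : D.MotDer S) : Ad d Y (T * S - S * T) :=
  ⟨hB.2.2.2.1 T S hT.mot hS, fun X => hN.2.2.1 X T S hT.mot hS (hT.ad X)⟩

omit hB in
theorem Ad.eq_zero {T : D.Fam} (hT : Ad d Y T) (h0 : ∀ x ∈ D.deg Y d, T Y x = 0) : T = 0 :=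
  funext fun X => hN.1 X T ⟨hT.mot, h0⟩ (hT.ad X)

theorem Ad.ext {T S : D.Fam} (hT : Ad d Y T) (hS : Ad d Y S)
    (h0 : ∀ x ∈ D.deg Y d, T Y x = S Y x) : T = S := by
  have h1 := Ad.eq_zero hN (Ad.sub hB hT hS) fun x hx => by
    rw [Pi.sub_apply, LinearMap.sub_apply, h0 x hx, sub_self]
  exact sub_eq_zero.1 h1

/-- adapted families commute with families which act trivially on `H^d(Y)` -/
theorem Ad.comm_kil {T K : D.Fam} (hT : Ad d Y T) (hK : D.Kil d Y K) : T * K = K * T := by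
  have h1 := Ad.eq_zero hN (Ad.brk hB hN hT hK.mot) fun x hx => by
    change T Y (K Y x) - K Y (T Y x) = 0
    rw [hK.zero x hx, map_zero, hK.zero _ (hT.mot.deg Y d x hx), sub_zero]
  exact sub_eq_zero.1 h1

end

/-- restriction of a family to `H^k(X)` -/
noncomputable def res {D : WeilData.{u, v, w, 0} V ℂ} {T : D.Fam} (hT : D.MotDer T) (X : V)
    (k : ℕ) : Module.End ℂ (D.deg X k) :=
  (T X).restrict fun a ha => hT.deg X k a ha

theorem res_coe {D : WeilData.{u, v, w, 0} V ℂ} {T : D.Fam} (hT : D.MotDer T) (X : V)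
    (k : ℕ) (a : D.deg X k) : (res hT X k a : D.H X) = T X a := rfl

end ASMAux

open ASMAux in
theorem asm {D : WeilData.{u, v, w, 0} V ℂ} (hD : D.IsWeil) {P : HodgeData D}
    (h : P.HodgeAxioms) (d : ℕ) (hd : Odd d) (h3 : 3 ≤ d) (Y : V) (hdim : D.dim Y = d) (hB : Stmt_BAS D) (hN : Stmt_NDG P h d Y)
    (hLF : Stmt_LFT D d Y) (hLI : Stmt_LIN P h d Y) (hE : Stmt_EIG P h) (hS : Stmt_SLB.{w})
    (hAA : Stmt_HPA P h) (hSh : ∀ T : D.Fam, D.MotDer T → D.MotDer (P.sharp h T))
    (hG : Stmt_GRA D) (hR : Stmt_REG D) (hNC : Stmt_NC D) :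
    ∃ g : D.Regrading, (D.regrade g).IsWeil ∧ (D.regrade g).Connected ∧
      (∀ (X : V) (j : ℕ), j + 2 < d → g.deg X j = D.deg X j) ∧
      (D.regrade g).betti Y (d - 2) = D.betti Y (d - 2) + 1 ∧ ¬ (D.regrade g).ConjC Y ∧
      ∀ l ∈ D.C Y 1, ¬ (D.regrade g).HardLefschetz Y l := by
  have hA : D.MotDer (P.hodgeOp h) := hAA.2.2.2.2.2.2.2.2.2.2
  obtain ⟨ω, η, n, α, β, c, hω, hη, hωη, hαβ, hDx, hsh⟩ := hLI
  have lift : ∀ w ∈ D.deg Y d, ∃ T : D.Fam, Ad d Y T ∧ ∀ x ∈ D.deg Y d,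
      T Y x = D.int (w * x) • w := by
    intro w hw
    obtain ⟨T, h1, h2, h3⟩ := hLF w hw
    exact ⟨T, ⟨h1, h2⟩, h3⟩
  obtain ⟨E, hEa, hEx⟩ := lift ω hω
  obtain ⟨G, hGa, hGx⟩ := lift η hη
  have hA1 : ∀ i, ∃ T : D.Fam, Ad d Y T ∧ ∀ x ∈ D.deg Y d, T Y x = D.int (α i * x) • α i :=
    fun i => lift (α i) (hαβ i).1
  have hA2 : ∀ i, ∃ T : D.Fam, Ad d Y T ∧ ∀ x ∈ D.deg Y d, T Y x = D.int (β i * x) • β i :=
    fun i => lift (β i) (hαβ i).2.1
  choose A hAa hAx using hA1
  choose B0 hBa0 hBx0 using hA2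
  -- the second elements of the sl2 triples
  set F : D.Fam := -G with hF
  have hFa : Ad d Y F := Ad.neg hB hGa
  have hFx : ∀ x ∈ D.deg Y d, F Y x = -(D.int (η * x) • η) := fun x hx => by
    rw [hF, Pi.neg_apply, LinearMap.neg_apply, hGx x hx]
  set B : Fin n → D.Fam := fun i => -B0 i with hBdef
  have hBa : ∀ i, Ad d Y (B i) := fun i => Ad.neg hB (hBa0 i)
  have hBx : ∀ i, ∀ x ∈ D.deg Y d, B i Y x = -(D.int (β i * x) • β i) := fun i x hx => by
    rw [hBdef]
    change -(B0 i Y x) = _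
    rw [hBx0 i x hx]
  -- values of the form
  have hηω : D.int (η * ω) = -1 := by rw [int_anti hd hη hω, hωη]
  have hωω := int_self hd hω
  have hηη := int_self hd hη
  set Hh : D.Fam := E * F - F * E with hHh
  have hHa : Ad d Y Hh := Ad.brk hB hN hEa hFa.mot
  have hHx : ∀ x ∈ D.deg Y d, Hh Y x = -(D.int (ω * x) • η + D.int (η * x) • ω) := by
    intro x hx
    change E Y (F Y x) - F Y (E Y x) = _
    rw [hFx x hx, hEx x hx, map_neg, map_smul, map_smul, hEx η hη, hFx ω hω, hωη, hηω]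
    module
  have hHω : Hh Y ω = ω := by
    rw [hHx ω hω, hωω, hηω]
    module
  have hHη : Hh Y η = -η := by
    rw [hHx η hη, hηη, hωη]
    module
  -- the Hodge operator modulo the adapted part
  set Z : D.Fam := ∑ i, c i • (A i * B i - B i * A i) with hZ
  have hZa : Ad d Y Z := Ad.sum hB fun i =>
    Ad.smul hB (c i) (Ad.brk hB hN (hAa i) (hBa i).mot)
  set D' : D.Fam := P.hodgeOp h - ((d : ℂ) • Hh + Z) with hD'
  have hD'm : D.MotDer D' := mot_sub hB hA (Ad.add hB (Ad.smul hB (d : ℂ) hHa) hZa).mot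
  have hZx : ∀ x ∈ D.deg Y d, Z Y x =
      -∑ i, c i • (D.int (β i * x) • α i + D.int (α i * x) • β i) := by
    intro x hx
    rw [hZ, Finset.sum_apply, LinearMap.sum_apply, ← Finset.sum_neg_distrib]
    refine Finset.sum_congr rfl fun i _ => ?_
    change c i • (A i Y (B i Y x) - B i Y (A i Y x)) = _
    have h1 : D.int (β i * α i) = -1 := by
      rw [int_anti hd (hαβ i).2.1 (hαβ i).1, (hαβ i).2.2.1]
    rw [hBx i x hx, hAx i x hx, map_neg, map_smul, map_smul, hAx i _ (hαβ i).2.1,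
      hBx i _ (hαβ i).1, (hαβ i).2.2.1, h1]
    module
  have hD'k : D.Kil d Y D' := by
    refine ⟨hD'm, fun x hx => ?_⟩
    change P.hodgeOp h Y x - ((d : ℂ) • Hh Y x + Z Y x) = 0
    rw [hDx x hx, hHx x hx, hZx x hx]
    module
  -- relations
  have rel1 : Hh * E - E * Hh = 2 • E := by
    refine Ad.ext hB hN (Ad.brk hB hN hHa hEa.mot) ?_ fun x hx => ?_
    · rw [two_nsmul]
      exact Ad.add hB hEa hEa
    · change Hh Y (E Y x) - E Y (Hh Y x) = (2 • E) Y x
      rw [two_nsmul, Pi.add_apply, LinearMap.add_apply, hEx x hx, map_smul, hHω, hHx x hx, map_neg,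
        map_add, map_smul, map_smul, hEx η hη, hEx ω hω, hωη, hωω]
      module
  have rel2 : Hh * F - F * Hh = -(2 • F) := by
    refine Ad.ext hB hN (Ad.brk hB hN hHa hFa.mot) ?_ fun x hx => ?_
    · rw [two_nsmul]
      exact Ad.neg hB (Ad.add hB hFa hFa)
    · change Hh Y (F Y x) - F Y (Hh Y x) = (-(2 • F)) Y x
      rw [two_nsmul, Pi.neg_apply, LinearMap.neg_apply, Pi.add_apply, LinearMap.add_apply,
        hFx x hx, map_neg, map_smul, hHη, hHx x hx, map_neg,
        map_add, map_smul, map_smul, hFx η hη, hFx ω hω, hηω, hηη]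
      module
  have comm : ∀ (T S : D.Fam), Ad d Y T → Ad d Y S →
      (∀ x ∈ D.deg Y d, T Y (S Y x) = S Y (T Y x)) → T * S = S * T := by
    intro T S hT hS h0
    have h1 := Ad.eq_zero hN (Ad.brk hB hN hT hS.mot) fun x hx => by
      change T Y (S Y x) - S Y (T Y x) = 0
      rw [h0 x hx, sub_self]
    exact sub_eq_zero.1 h1
  have sw : ∀ a ∈ D.deg Y d, ∀ b ∈ D.deg Y d, D.int (a * b) = 0 → D.int (b * a) = 0 := by
    intro a ha b hb h0
    rw [int_anti hd hb ha, h0, neg_zero]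
  have rAE : ∀ i, A i * E = E * A i := fun i => comm _ _ (hAa i) hEa fun x hx => by
    rw [hEx x hx, hAx i x hx, map_smul, map_smul, hAx i ω hω, hEx _ (hαβ i).1,
      (hαβ i).2.2.2.1, sw _ hω _ (hαβ i).1 (hαβ i).2.2.2.1, zero_smul, zero_smul, smul_zero,
      smul_zero]
  have rAF : ∀ i, A i * F = F * A i := fun i => comm _ _ (hAa i) hFa fun x hx => by
    rw [hFx x hx, hAx i x hx, map_neg, map_smul, map_smul, hAx i η hη, hFx _ (hαβ i).1,
      (hαβ i).2.2.2.2.2.1, sw _ hη _ (hαβ i).1 (hαβ i).2.2.2.2.2.1, zero_smul, zero_smul,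
      neg_zero, smul_zero, smul_zero, neg_zero]
  have rBE : ∀ i, B i * E = E * B i := fun i => comm _ _ (hBa i) hEa fun x hx => by
    rw [hEx x hx, hBx i x hx, map_neg, map_smul, map_smul, hBx i ω hω, hEx _ (hαβ i).2.1,
      (hαβ i).2.2.2.2.1, sw _ hω _ (hαβ i).2.1 (hαβ i).2.2.2.2.1, zero_smul, zero_smul,
      neg_zero, smul_zero, smul_zero, neg_zero]
  have rBF : ∀ i, B i * F = F * B i := fun i => comm _ _ (hBa i) hFa fun x hx => by
    rw [hFx x hx, hBx i x hx, map_neg, map_neg, map_smul, map_smul, hBx i η hη,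
      hFx _ (hαβ i).2.1, (hαβ i).2.2.2.2.2.2, sw _ hη _ (hαβ i).2.1 (hαβ i).2.2.2.2.2.2,
      zero_smul, zero_smul, neg_zero, smul_zero, smul_zero]
  have hND : P.hodgeOp h = (d : ℂ) • Hh + Z + D' := by
    rw [hD']
    abel
  -- the eigenvalues of `Hh`
  have small : D.Small d Hh := by
    intro X k a ha ha0 μ haμ
    have key := hS (D.deg X k) (res hEa.mot X k) (res hFa.mot X k) (res hHa.mot X k)
      (res hA X k) (res hD'm X k) n (fun i => res (hAa i).mot X k)
      (fun i => res (hBa i).mot X k) c d (min (k : ℝ) (2 * D.dim X - k))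
      (by
        ext x
        change E X (F X x) - F X (E X x) = Hh X x
        rfl)
      (by
        ext x
        change Hh X (E X x) - E X (Hh X x) = _
        have := congrArg (fun T : D.Fam => T X (x : D.H X)) rel1
        exact this)
      (by
        ext x
        change Hh X (F X x) - F X (Hh X x) = _
        have := congrArg (fun T : D.Fam => T X (x : D.H X)) rel2
        exact this)
      (by
        intro i
        have c1 := Ad.comm_kil hB hN (hAa i) hD'k
        have c2 := Ad.comm_kil hB hN (hBa i) hD'k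
        refine ⟨?_, ?_, ?_, ?_, ?_, ?_⟩ <;> ext x
        · exact congrArg (fun T : D.Fam => T X (x : D.H X)) (rAE i)
        · exact congrArg (fun T : D.Fam => T X (x : D.H X)) (rAF i)
        · exact congrArg (fun T : D.Fam => T X (x : D.H X)) (rBE i)
        · exact congrArg (fun T : D.Fam => T X (x : D.H X)) (rBF i)
        · exact congrArg (fun T : D.Fam => T X (x : D.H X)) c1
        · exact congrArg (fun T : D.Fam => T X (x : D.H X)) c2)
      (by
        ext x
        exact congrArg (fun T : D.Fam => T X (x : D.H X)) (Ad.comm_kil hB hN hEa hD'k))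
      (by
        ext x
        exact congrArg (fun T : D.Fam => T X (x : D.H X)) (Ad.comm_kil hB hN hFa hD'k))
      (by
        ext x
        have h1 := congrArg (fun T : D.Fam => T X (x : D.H X)) hND
        have h2 : Z X (x : D.H X) = ∑ i, c i • (A i X (B i X x) - B i X (A i X x)) := by
          rw [hZ, Finset.sum_apply, LinearMap.sum_apply]
          rfl
        change P.hodgeOp h X x = _
        rw [h1]
        change (d : ℂ) • Hh X x + Z X x + D' X x = _
        rw [h2]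
        simp only [LinearMap.add_apply, LinearMap.smul_apply, LinearMap.sum_apply,
          Submodule.coe_add, Submodule.coe_smul, Submodule.coe_sum, LinearMap.sub_apply,
          Module.End.mul_apply, Submodule.coe_sub, res_coe])
      (by
        intro ν v hv hNv
        have hv0 : (v : D.H X) ≠ 0 := fun h0 => hv (Subtype.ext h0)
        have h1 := hE X k v v.2 hv0 ν (congrArg Subtype.val hNv)
        exact le_min h1.1 h1.2)
      μ ⟨a, ha⟩ (fun h0 => ha0 (congrArg Subtype.val h0)) (Subtype.ext haμ)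
    obtain ⟨m, hm, hle⟩ := key
    refine ⟨m, hm, ?_, ?_⟩
    · have h1 := hle.trans (min_le_left _ _)
      exact_mod_cast h1
    · have h1 := hle.trans (min_le_right _ _)
      exact_mod_cast h1
  -- `Hh` is self-adjoint
  have hself : P.sharp h Hh = Hh := by
    have h1 : Ad d Y (P.sharp h Hh) := ⟨hSh Hh hHa.mot, fun X => hN.2.2.2.1 X Hh hHa.mot (hHa.ad X)⟩
    exact Ad.ext hB hN h1 hHa fun x hx => hsh Hh hHx x hx
  have diag : D.Diag Hh := fun X => hN.2.2.2.2 X Hh hHa.mot (by rw [hself])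
  obtain ⟨g, hg⟩ := hG d Hh h3 hHa.mot diag small
  obtain ⟨r1, r2, r3⟩ := hR d Hh g h3 hHa.mot diag small hg
  refine ⟨g, r1, r2, r3,
    betti_regrade hD h3 hHa.mot diag small hdim hη hωη hηη hHω hHx g hg, ?_⟩
  have hω0 : ω ≠ 0 := by
    intro h0
    rw [h0, zero_mul] at hωη
    have : D.int (0 : D.H Y) = 0 := map_zero (D.tr Y)
    rw [this] at hωη
    exact zero_ne_one hωη
  have hωg : ω ∈ g.deg Y (d + 2) := by
    rw [hg]
    refine Submodule.subset_span ⟨d, 1, hω, ?_, ?_⟩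
    · rw [hHω]
      module
    · omega
  refine ⟨hNC g Y E η ω (d - 2) (d + 2) r1 hEa.mot ?_ hωg (by omega) hω0 ?_, ?_⟩
  · rw [hg]
    refine Submodule.subset_span ⟨d, -1, hη, ?_, ?_⟩
    · rw [hHη]
      module
    · omega
  · rw [hEx η hη, hωη, one_smul]
  · intro l hl hL
    have hev : P.hodgeOp h Y ω = (d : ℂ) • ω := by
      rw [hDx ω hω, hωω, hηω]
      have h0 : ∀ i, c i • (D.int (β i * ω) • α i + D.int (α i * ω) • β i) = 0 := fun i => by
        rw [sw _ hω _ (hαβ i).2.1 (hαβ i).2.2.2.2.1, sw _ hω _ (hαβ i).1 (hαβ i).2.2.2.1,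
          zero_smul, zero_smul, add_zero, smul_zero]
      rw [Finset.sum_eq_zero fun i _ => h0 i]
      module
    have hdd : d - 2 + 2 * 2 = d + 2 := by omega
    have hL2 : ∃ y : D.H Y, l ^ 2 * y = ω := by
      obtain ⟨y, -, hy⟩ := (hL (d - 2) 2 (by change d - 2 + 2 = D.dim Y; omega)).2 ω
        (by rw [hdd]; exact hωg)
      exact ⟨y, hy⟩
    obtain ⟨y, hy⟩ := hL2
    refine not_mul h hAA hω hω0 hev l (h.alg Y 1 hl) (l * y) ?_
    rw [← hy]
    change l * (l * y) = l ^ 2 * y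
    rw [pow_two, mul_assoc]

end Pool.KC
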