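import Pool.Agent.Work.MP_a60482_exo.Grading
import Pool.Agent.Work.MP_a60482_kc.Conv

/-!
# Regraded Weil cohomology theories

`WeilData.MotDer`: the Lie algebra of the group of the automorphisms of a cohomology theory
(graded, compatible with pull-backs and products) fixing all algebraic classes.

`HodgeData`: complex conjugation, Hodge decomposition and ample classes, with their axioms.

`HodgeData.Big`: the variety `Y` of odd dimension `d` has `h^{d,0} = 1` and the Lie algebra
above acts on `H^d(Y)` as the full symplectic Lie algebra.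
-/

open CategoryTheory MonoidalCategory CartesianMonoidalCategory

universe u v w x

namespace Pool.KC

namespace WeilData

variable {V : Type u} [Category.{v} V] [CartesianMonoidalCategory V] {K : Type x} [Field K]
variable (D : WeilData.{u, v, w, x} V K)

/-- `H^0(X) = K` for all `X`. -/
def Connected : Prop := ∀ X : V, ∀ a ∈ D.deg X 0, ∃ c : K, a = c • (1 : D.H X)

/-- Families of linear operators on all the cohomology groups. -/
abbrev Fam := ∀ X : V, Module.End K (D.H X)

/-- `T` belongs to the Lie algebra of the group of all automorphisms of the theory: it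
preserves degrees, commutes with pull-backs, is a derivation for the exterior product, kills
the algebraic classes, and the trace is invariant. -/
structure MotDer (T : D.Fam) : Prop where
  deg : ∀ (X : V) (i : ℕ), ∀ a ∈ D.deg X i, T X a ∈ D.deg X i
  pull : ∀ (X Y : V) (f : X ⟶ Y) (a : D.H Y), T X (D.pb f a) = D.pb f (T Y a)
  cross : ∀ (X Y : V) (a : D.H X) (b : D.H Y),
    T (X ⊗ Y) (D.cross a b) = D.cross (T X a) b + D.cross a (T Y b)
  alg : ∀ (X : V) (i : ℕ), ∀ a ∈ D.C X i, T X a = 0
  int : ∀ (X : V) (a : D.H X), D.int (T X a) = 0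

end WeilData

/-- Complex conjugation on `H(X)`, the groups `H^{p,q}(X)`, and the class of an ample divisor. -/
structure HodgeData {V : Type u} [Category.{v} V] [CartesianMonoidalCategory V]
    (D : WeilData.{u, v, w, 0} V ℂ) where
  bar : ∀ X : V, D.H X →ₛₗ[starRingEnd ℂ] D.H X
  hodge : ∀ X : V, ℕ → ℕ → Submodule ℂ (D.H X)
  ample : ∀ X : V, D.H X

namespace HodgeData

variable {V : Type u} [Category.{v} V] [CartesianMonoidalCategory V]
variable {D : WeilData.{u, v, w, 0} V ℂ} (P : HodgeData D)

/-- Complex conjugation is an involution and an antilinear automorphism of the theory. -/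
structure ConjAxioms : Prop where
  invol : ∀ (X : V) (a : D.H X), P.bar X (P.bar X a) = a
  mul : ∀ (X : V) (a b : D.H X), P.bar X (a * b) = P.bar X a * P.bar X b
  pull : ∀ (X Y : V) (f : X ⟶ Y) (a : D.H Y), P.bar X (D.pb f a) = D.pb f (P.bar Y a)
  int : ∀ (X : V) (a : D.H X), D.int (P.bar X a) = starRingEnd ℂ (D.int a)
  alg : ∀ (X : V) (i : ℕ), ∀ a ∈ D.C X i, P.bar X a ∈ D.C X i

/-- The Hodge decomposition: `H(X)` is the direct sum of the `H^{p,q}(X)`, of degree `p + q`,
compatible with products, pull-backs, conjugation and traces; the algebraic classes are of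
type `(i, i)`. -/
structure HodgeAxioms : Prop where
  internal : ∀ X : V, DirectSum.IsInternal fun pq : ℕ × ℕ => P.hodge X pq.1 pq.2
  deg : ∀ (X : V) (p q : ℕ), P.hodge X p q ≤ D.deg X (p + q)
  mul : ∀ (X : V) (p q p' q' : ℕ), ∀ a ∈ P.hodge X p q, ∀ b ∈ P.hodge X p' q',
    a * b ∈ P.hodge X (p + p') (q + q')
  pull : ∀ (X Y : V) (f : X ⟶ Y) (p q : ℕ), ∀ a ∈ P.hodge Y p q, D.pb f a ∈ P.hodge X p q
  bar : ∀ (X : V) (p q : ℕ), ∀ a ∈ P.hodge X p q, P.bar X a ∈ P.hodge X q p
  alg : ∀ (X : V) (i : ℕ), D.C X i ≤ P.hodge X i i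
  int : ∀ (X : V) (p q : ℕ), p ≠ q → ∀ a ∈ P.hodge X p q, D.int a = 0

/-- Ample classes are algebraic and real; the hard Lefschetz theorem; the Hodge-Riemann
bilinear relations for primitive classes of type `(p, q)`. -/
structure LefschetzAxioms : Prop where
  alg : ∀ X : V, P.ample X ∈ D.C X 1
  real : ∀ X : V, P.bar X (P.ample X) = P.ample X
  hard_inj : ∀ (X : V) (i k : ℕ), i + k = D.dim X → ∀ a ∈ D.deg X i,
    P.ample X ^ k * a = 0 → a = 0
  hard_surj : ∀ (X : V) (i k : ℕ), i + k = D.dim X → ∀ a ∈ D.deg X (i + 2 * k),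
    ∃ e ∈ D.deg X i, P.ample X ^ k * e = a
  riemann : ∀ (X : V) (p q k : ℕ), p + q + k = D.dim X → ∀ a ∈ P.hodge X p q, a ≠ 0 →
    P.ample X ^ (k + 1) * a = 0 → ∃ r : ℝ, 0 < r ∧
      Complex.I ^ p * (-Complex.I) ^ q * (-1) ^ ((p + q) * (p + q - 1) / 2) *
        D.int (P.ample X ^ k * (a * P.bar X a)) = r

/-- `Y` has dimension `d`, `H^{d,0}(Y)` is a line, and every endomorphism
`x ↦ Q(u, x) v + Q(v, x) u` of `H^d(Y)`, where `Q(u, x) = ∫ u x`, is the restriction of a
family in `MotDer`.  (For odd `d` these endomorphisms span the symplectic Lie algebra of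
`H^d(Y)`, and the last condition holds if the Hodge group of `H^d(Y)` is the symplectic group,
for instance for very general Calabi-Yau hypersurfaces of projective space.) -/
structure Big (d : ℕ) (Y : V) : Prop where
  dim : D.dim Y = d
  top : ∃ ω ∈ P.hodge Y d 0, ω ≠ 0 ∧ ∀ a ∈ P.hodge Y d 0, ∃ c : ℂ, a = c • ω
  big : ∀ u ∈ D.deg Y d, ∀ v ∈ D.deg Y d, ∃ T : D.Fam, D.MotDer T ∧
    ∀ x ∈ D.deg Y d, T Y x = D.int (u * x) • v + D.int (v * x) • u

end HodgeData

end Pool.KC
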