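import Pool.Agent.Work.MP_a60482_exo.Interface2

/-!
# Block HLI: operators of the Hodge Lie algebra lift to families in `MotDer`
-/

open CategoryTheory MonoidalCategory CartesianMonoidalCategory

universe u v w x

namespace Pool.KC

variable {V : Type u} [Category.{v} V] [CartesianMonoidalCategory V]

namespace HLIAux

variable {D : WeilData.{u, v, w, 0} V ℂ} (P : HodgeTheory D)

/-- operators on `H(Y)` coming from rational families in `MotDer` -/
def gen (Y : V) : Set (Module.End ℂ (D.H Y)) :=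
  {s | ∃ T : D.Fam, D.MotDer T ∧ (∀ X : V, ∀ x ∈ P.rat X, T X x ∈ P.rat X) ∧ T Y = s}

/-- their span -/
noncomputable def lieL (Y : V) : Submodule ℂ (Module.End ℂ (D.H Y)) := Submodule.span ℂ (gen P Y)

theorem lieL_comm (hB : Stmt_BAS D) (Y : V) : ∀ s ∈ lieL P Y, ∀ s' ∈ lieL P Y,
    s * s' - s' * s ∈ lieL P Y := by
  intro s hs s' hs'
  unfold lieL at hs hs'
  induction hs using Submodule.span_induction with
  | mem s hs =>
    induction hs' using Submodule.span_induction with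
    | mem s' hs' =>
      obtain ⟨T, hT, hTr, rfl⟩ := hs
      obtain ⟨S, hS, hSr, rfl⟩ := hs'
      refine Submodule.subset_span ⟨T * S - S * T, hB.2.2.2.1 T S hT hS, fun X x hx => ?_, rfl⟩
      exact (P.rat X).sub_mem (hTr X _ (hSr X x hx)) (hSr X _ (hTr X x hx))
    | zero => simp
    | add a b _ _ ha hb =>
      have e : s * (a + b) - (a + b) * s = (s * a - a * s) + (s * b - b * s) := by
        rw [mul_add, add_mul]; abel
      rw [e]
      exact (lieL P Y).add_mem ha hb
    | smul c a _ ha =>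
      have e : s * (c • a) - (c • a) * s = c • (s * a - a * s) := by
        rw [mul_smul_comm, smul_mul_assoc, smul_sub]
      rw [e]
      exact (lieL P Y).smul_mem c ha
  | zero => simp
  | add a b _ _ ha hb =>
    have e : (a + b) * s' - s' * (a + b) = (a * s' - s' * a) + (b * s' - s' * b) := by
      rw [mul_add, add_mul]; abel
    rw [e]
    exact (lieL P Y).add_mem ha hb
  | smul c a _ ha =>
    have e : (c • a) * s' - s' * (c • a) = c • (a * s' - s' * a) := by
      rw [mul_smul_comm, smul_mul_assoc, smul_sub]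
    rw [e]
    exact (lieL P Y).smul_mem c ha

theorem lieL_rat (Y : V) : lieL P Y ≤
    Submodule.span ℂ {s | s ∈ lieL P Y ∧ ∀ x ∈ P.rat Y, s x ∈ P.rat Y} := by
  refine Submodule.span_mono fun s hs => ⟨Submodule.subset_span hs, ?_⟩
  obtain ⟨T, _, hTr, rfl⟩ := hs
  exact hTr Y

theorem lieL_hodge (h : P.toHodgeData.HodgeAxioms) (hR : Stmt_RAT P h) (Y : V)
    (f : Module.End ℂ (D.H Y))
    (hf : ∀ (p q : ℕ), ∀ a ∈ P.hodge Y p q, f a = ((p : ℂ) - q) • a) : f ∈ lieL P Y := by
  obtain ⟨r, c, T, hT, hs⟩ := hR Y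
  have e : f = P.toHodgeData.hodgeOp h Y := by
    refine LinearMap.ext fun a => ?_
    refine HodgeData.hodge_ind h (X := Y) (p := fun a => f a = P.toHodgeData.hodgeOp h Y a)
      (fun p q a ha => ?_) (fun a b ha hb => ?_) a
    · rw [hf p q a ha, HodgeData.hodgeOp_apply h ha]
    · rw [map_add, map_add, ha, hb]
  rw [e, hs]
  refine Submodule.sum_mem _ fun j _ => Submodule.smul_mem _ _ (Submodule.subset_span ?_)
  exact ⟨T j, (hT j).1, (hT j).2, rfl⟩

theorem lieL_lift (hB : Stmt_BAS D) (Y : V) : ∀ s ∈ lieL P Y,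
    ∃ T : D.Fam, D.MotDer T ∧ T Y = s := by
  intro s hs
  unfold lieL at hs
  induction hs using Submodule.span_induction with
  | mem s hs =>
    obtain ⟨T, hT, _, rfl⟩ := hs
    exact ⟨T, hT, rfl⟩
  | zero => exact ⟨0, hB.1, rfl⟩
  | add a b _ _ ha hb =>
    obtain ⟨T, hT, rfl⟩ := ha
    obtain ⟨S, hS, rfl⟩ := hb
    exact ⟨T + S, hB.2.1 T S hT hS, rfl⟩
  | smul c a _ ha =>
    obtain ⟨T, hT, rfl⟩ := ha
    exact ⟨c • T, hB.2.2.1 c T hT, rfl⟩

end HLIAux

open HLIAux in
theorem blk_HLI {D : WeilData.{u, v, w, 0} V ℂ} {P : HodgeTheory D} (_hD : D.IsWeil)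
    (h : P.toHodgeData.HodgeAxioms) (d : ℕ) (Y : V) (hY : P.Sp d Y) :
    Stmt_BAS D → Stmt_RAT P h → P.toHodgeData.Big d Y := by
  intro hB hR
  refine ⟨hY.dim, hY.top, fun u hu v hv => ?_⟩
  obtain ⟨t, ht, hx⟩ := hY.big u hu v hv
  obtain ⟨T, hT, hTY⟩ := lieL_lift P hB Y t (ht (lieL P Y) (lieL_comm P hB Y) (lieL_rat P Y)
    (lieL_hodge P h hR Y))
  exact ⟨T, hT, fun x hxd => by rw [hTY]; exact hx x hxd⟩

end Pool.KC
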