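import Pool.Agent.Work.MP_a60482_exo.Interface

/-!
# The Kuenneth conjecture fails for regraded theories: block LFT
-/

open CategoryTheory MonoidalCategory CartesianMonoidalCategory

universe u v w x

namespace Pool.KC

variable {V : Type u} [Category.{v} V] [CartesianMonoidalCategory V]

namespace LFTAux

variable {D : WeilData.{u, v, w, 0} V ℂ} {d : ℕ} {X Y : V}

theorem int_add (a b : D.H X) : D.int (a + b) = D.int a + D.int b := map_add (D.tr X) a b

theorem int_smul (c : ℂ) (a : D.H X) : D.int (c • a) = c * D.int a := by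
  have h := map_smul (D.tr X) c a
  rw [smul_eq_mul] at h
  exact h

theorem int_neg (a : D.H X) : D.int (-a) = -D.int a := map_neg (D.tr X) a

theorem int_zero : D.int (0 : D.H X) = 0 := map_zero (D.tr X)

theorem adp_zero : D.Adp d Y X 0 := fun K _ => by
  rw [Pi.zero_apply, zero_mul, map_zero]

theorem adp_smul {T : D.Fam} (c : ℂ) (hT : D.Adp d Y X T) : D.Adp d Y X (c • T) := fun K hK => by
  rw [Pi.smul_apply, smul_mul_assoc, map_smul, hT K hK, smul_zero]

theorem neg_fam (T : D.Fam) : -T = (-1 : ℂ) • T := by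
  funext X
  exact LinearMap.ext fun x => (neg_one_smul ℂ (T X x)).symm

theorem adp_neg {T : D.Fam} (hT : D.Adp d Y X T) : D.Adp d Y X (-T) := by
  rw [neg_fam]
  exact adp_smul _ hT

theorem adp_sub {T S : D.Fam} (hT : D.Adp d Y X T) (hS : D.Adp d Y X S) :
    D.Adp d Y X (T - S) := fun K hK => by
  rw [Pi.sub_apply, sub_mul, map_sub, hT K hK, hS K hK, sub_zero]

theorem adp_swap {T S : D.Fam} (hT : D.Adp d Y X (S * T - T * S)) :
    D.Adp d Y X (T * S - S * T) := by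
  have h := adp_neg hT
  rwa [neg_sub] at h

/-- `T` acts on `H^d(Y)` as `x ↦ Q(w, x) w` -/
def Res (D : WeilData.{u, v, w, 0} V ℂ) (d : ℕ) (Y : V) (w : D.H Y) (T : D.Fam) : Prop :=
  ∀ x ∈ D.deg Y d, T Y x = D.int (w * x) • w

end LFTAux

open LFTAux

theorem blk_LFT {D : WeilData.{u, v, w, 0} V ℂ} (hD : D.IsWeil) {P : HodgeData D}
    (h : P.HodgeAxioms) (d : ℕ) (hd : Odd d) (Y : V) (hY : P.Big d Y) :
    Stmt_BAS D → Stmt_NDG P h d Y → Stmt_LFT D d Y := by
  rintro ⟨b0, badd, bsmul, bcomm, -, -, -⟩ ⟨n1, n2, n3, -, -⟩ w hw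
  have bneg : ∀ T : D.Fam, D.MotDer T → D.MotDer (-T) := fun T hT => by
    rw [neg_fam]
    exact bsmul (-1) T hT
  have bsub : ∀ T S : D.Fam, D.MotDer T → D.MotDer S → D.MotDer (T - S) := fun T S hT hS => by
    rw [sub_eq_add_neg]
    exact badd _ _ hT (bneg _ hS)
  by_cases hw0 : w = 0
  · subst hw0
    refine ⟨0, b0, fun X => adp_zero, fun x _ => ?_⟩
    rw [smul_zero]
    rfl
  -- the alternating form
  have hanti : ∀ x ∈ D.deg Y d, ∀ y ∈ D.deg Y d, D.int (x * y) = -D.int (y * x) := by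
    intro x hx y hy
    rw [(D.R Y).comm d d x y hx hy, (hd.mul hd).neg_one_pow, neg_one_mul, int_neg]
  have hww : D.int (w * w) = 0 := by
    have h1 := hanti w hw w hw
    have h2 : (2 : ℂ) * D.int (w * w) = 0 := by linear_combination h1
    exact (mul_eq_zero.mp h2).resolve_left two_ne_zero
  -- Poincare duality
  obtain ⟨u, hu, huw⟩ : ∃ u ∈ D.deg Y d, D.int (u * w) = 1 := by
    have h1 : ∃ u ∈ D.deg Y d, D.int (u * w) ≠ 0 := by
      by_contra hcon
      push Not at hcon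
      refine hw0 ((WeilData.toCoh hD).eq_zero_of_deg (X := Y) (i := d) (a := w) hw ?_)
      intro j hj b hb
      have h2 : j = d := by
        have h3 : d + j = 2 * D.dim Y := hj
        rw [hY.dim] at h3
        omega
      subst h2
      exact hcon b hb
    obtain ⟨u, hu, h2⟩ := h1
    refine ⟨(D.int (u * w))⁻¹ • u, (D.deg Y d).smul_mem _ hu, ?_⟩
    rw [smul_mul_assoc, int_smul, inv_mul_cancel₀ h2]
  -- families with the right restriction adapted to one variety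
  have hA : ∀ X : V, ∃ A : D.Fam, D.MotDer A ∧ D.Adp d Y X A ∧
      ∀ x ∈ D.deg Y d, A Y x = D.int (u * x) • w + D.int (w * x) • u := by
    intro X
    obtain ⟨T, hT, hT1⟩ := hY.big u hu w hw
    obtain ⟨K, hK, hK1⟩ := n2 X T hT
    refine ⟨T - K, bsub _ _ hT hK.mot, hK1, fun x hx => ?_⟩
    rw [Pi.sub_apply, LinearMap.sub_apply, hT1 x hx, hK.zero x hx, sub_zero]
  have hB : ∀ X : V, ∃ A : D.Fam, D.MotDer A ∧ D.Adp d Y X A ∧ Res D d Y w A := by
    intro X
    obtain ⟨T, hT, hT1⟩ := hY.big w hw w hw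
    obtain ⟨K, hK, hK1⟩ := n2 X T hT
    refine ⟨(2 : ℂ)⁻¹ • (T - K), bsmul _ _ (bsub _ _ hT hK.mot), adp_smul _ hK1, fun x hx => ?_⟩
    rw [Pi.smul_apply, LinearMap.smul_apply, Pi.sub_apply, LinearMap.sub_apply, hT1 x hx,
      hK.zero x hx, sub_zero, ← two_smul ℂ, smul_smul, inv_mul_cancel₀ two_ne_zero, one_smul]
  -- the commutator relation
  have hcomm : ∀ A B : D.Fam,
      (∀ x ∈ D.deg Y d, A Y x = D.int (u * x) • w + D.int (w * x) • u) → ∀ c : ℂ,
      (∀ x ∈ D.deg Y d, B Y x = (c * D.int (w * x)) • w) →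
      ∀ x ∈ D.deg Y d, (A * B - B * A) Y x = (2 * c * D.int (w * x)) • w := by
    intro A B h1 c h2 x hx
    have hwu : D.int (w * u) = -1 := by rw [hanti w hw u hu, huw]
    rw [Pi.sub_apply, Pi.mul_apply, Pi.mul_apply, LinearMap.sub_apply, Module.End.mul_apply,
      Module.End.mul_apply, h2 x hx, h1 x hx, map_smul, map_add, map_smul, map_smul, h1 w hw,
      h2 w hw, h2 u hu, huw, hww, hwu, mul_zero, zero_smul, zero_smul, smul_zero, add_zero,
      zero_add, one_smul, smul_smul, ← sub_smul]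
    congr 1
    ring
  -- families adapted to three varieties
  have h3 : ∀ X₁ X₂ X₃ : V, ∃ A : D.Fam, D.MotDer A ∧ D.Adp d Y X₁ A ∧ D.Adp d Y X₂ A ∧
      D.Adp d Y X₃ A ∧ Res D d Y w A := by
    intro X₁ X₂ X₃
    obtain ⟨A₁, m1, a1, r1⟩ := hA X₁
    obtain ⟨A₂, m2, a2, r2⟩ := hA X₂
    obtain ⟨A₃, m3, a3, r3⟩ := hB X₃
    have m23 := bcomm _ _ m2 m3
    have e23 := hcomm A₂ A₃ r2 1 (fun x hx => by rw [one_mul]; exact r3 x hx)
    have e123 := hcomm A₁ (A₂ * A₃ - A₃ * A₂) r1 (2 * 1) e23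
    refine ⟨(4 : ℂ)⁻¹ • (A₁ * (A₂ * A₃ - A₃ * A₂) - (A₂ * A₃ - A₃ * A₂) * A₁),
      bsmul _ _ (bcomm _ _ m1 m23), adp_smul _ (n3 _ _ _ m1 m23 a1),
      adp_smul _ (adp_swap (n3 _ _ _ m23 m1 (n3 _ _ _ m2 m3 a2))),
      adp_smul _ (adp_swap (n3 _ _ _ m23 m1 (adp_swap (n3 _ _ _ m3 m2 a3)))), ?_⟩
    intro x hx
    rw [Pi.smul_apply, LinearMap.smul_apply, e123 x hx, smul_smul]
    congr 1
    ring
  -- uniqueness
  have huniq : ∀ (X : V) (A B : D.Fam), D.MotDer A → D.MotDer B → D.Adp d Y X A →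
      D.Adp d Y X B → Res D d Y w A → Res D d Y w B → A X = B X := by
    intro X A B mA mB aA aB rA rB
    have h4 := n1 X (A - B) ⟨bsub _ _ mA mB, fun x hx => by
      rw [Pi.sub_apply, LinearMap.sub_apply, rA x hx, rB x hx, sub_self]⟩ (adp_sub aA aB)
    exact sub_eq_zero.mp h4
  choose A mA aA _ _ rA using fun X => h3 X X X
  refine ⟨fun X => A X X, ⟨?_, ?_, ?_, ?_, ?_⟩, fun X K hK => aA X K hK, fun x hx => rA Y x hx⟩
  · intro X i a ha
    exact (mA X).deg X i a ha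
  · intro X Z f a
    obtain ⟨B, mB, b1, b2, b3, rB⟩ := h3 X Z Z
    rw [huniq X (A X) B (mA X) mB (aA X) b1 (rA X) rB, huniq Z (A Z) B (mA Z) mB (aA Z) b2 (rA Z) rB]
    exact mB.pull X Z f a
  · intro X Z a b
    obtain ⟨B, mB, b1, b2, b3, rB⟩ := h3 X Z (X ⊗ Z)
    rw [huniq X (A X) B (mA X) mB (aA X) b1 (rA X) rB,
      huniq Z (A Z) B (mA Z) mB (aA Z) b2 (rA Z) rB,
      huniq (X ⊗ Z) (A (X ⊗ Z)) B (mA _) mB (aA _) b3 (rA _) rB]
    exact mB.cross X Z a b
  · intro X i a ha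
    exact (mA X).alg X i a ha
  · intro X a
    exact (mA X).int X a

end Pool.KC
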