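import Pool.Agent.Work.MP_a60482_exo.Interface

/-!
# Block LIN
-/

open CategoryTheory MonoidalCategory CartesianMonoidalCategory

universe u v w x

namespace Pool.KC

variable {V : Type u} [Category.{v} V] [CartesianMonoidalCategory V]

namespace LINAux

/-- dual bases -/
theorem dual_bases {A : Type w} [AddCommGroup A] [Module ℂ A] [FiniteDimensional ℂ A]
    (B : A →ₗ[ℂ] A →ₗ[ℂ] ℂ) (U U' : Submodule ℂ A)
    (h1 : ∀ x ∈ U, (∀ y ∈ U', B x y = 0) → x = 0)
    (h2 : ∀ y ∈ U', (∀ x ∈ U, B x y = 0) → y = 0) :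
    ∃ (n : ℕ) (α β : Fin n → A), (∀ i, α i ∈ U) ∧ (∀ i, β i ∈ U') ∧
      (∀ i, B (α i) (β i) = 1) ∧ (∀ x ∈ U, x = ∑ i, B x (β i) • α i) ∧
      (∀ y ∈ U', y = ∑ i, B (α i) y • β i) := by
  classical
  let F : U →ₗ[ℂ] U' →ₗ[ℂ] ℂ := B.domRestrict₁₂ U U'
  have hFa : ∀ x y, F x y = B x y := fun x y => rfl
  have hF : Function.Injective F := by
    rw [injective_iff_map_eq_zero]
    intro x hx
    apply Subtype.ext
    refine h1 x x.2 fun y hy => ?_
    have := LinearMap.congr_fun hx ⟨y, hy⟩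
    rwa [hFa] at this
  have hF' : Function.Injective F.flip := by
    rw [injective_iff_map_eq_zero]
    intro y hy
    apply Subtype.ext
    refine h2 y y.2 fun x hx => ?_
    have := LinearMap.congr_fun hy ⟨x, hx⟩
    rwa [LinearMap.flip_apply, hFa] at this
  have hd1 : Module.finrank ℂ U ≤ Module.finrank ℂ U' := by
    have := LinearMap.finrank_le_finrank_of_injective (f := F) hF
    rwa [Subspace.dual_finrank_eq] at this
  have hd2 : Module.finrank ℂ U' ≤ Module.finrank ℂ U := by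
    have := LinearMap.finrank_le_finrank_of_injective (f := F.flip) hF'
    rwa [Subspace.dual_finrank_eq] at this
  let e : U' ≃ₗ[ℂ] Module.Dual ℂ U := LinearEquiv.ofInjectiveOfFinrankEq F.flip hF'
    (by rw [Subspace.dual_finrank_eq]; omega)
  have he : ∀ y x, e y x = B x y := fun y x => rfl
  let b := Module.finBasis ℂ U
  have hβ : ∀ (x : U) i, B x (e.symm (b.coord i) : U') = b.repr x i := by
    intro x i
    rw [← he, LinearEquiv.apply_symm_apply, Module.Basis.coord_apply]
  refine ⟨Module.finrank ℂ U, fun i => (b i : A), fun i => (e.symm (b.coord i) : U'),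
    fun i => (b i).2, fun i => (e.symm (b.coord i)).2, fun i => ?_, fun x hx => ?_,
    fun y hy => ?_⟩
  · rw [hβ, Module.Basis.repr_self, Finsupp.single_eq_same]
  · have h3 : ∀ i, B x (e.symm (b.coord i) : U') • (b i : A) = ((b.repr ⟨x, hx⟩ i • b i : U) : A) := by
      intro i
      rw [← hβ ⟨x, hx⟩ i]
      rfl
    rw [Finset.sum_congr rfl fun i _ => h3 i, ← Submodule.coe_sum, b.sum_repr]
  · have h3 : (⟨y, hy⟩ : U') = ∑ i, B (b i) y • e.symm (b.coord i) := by
      apply e.injective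
      rw [map_sum]
      have h4 : ∀ i, e (B (b i) y • e.symm (b.coord i)) = (e ⟨y, hy⟩) (b i) • b.coord i := by
        intro i
        rw [map_smul, LinearEquiv.apply_symm_apply, he]
      rw [Finset.sum_congr rfl fun i _ => h4 i]
      exact (b.sum_dual_apply_smul_coord _).symm
    have h5 := congrArg (Subtype.val) h3
    rw [Submodule.coe_sum] at h5
    exact h5

variable {D : WeilData.{u, v, w, 0} V ℂ} {P : HodgeData D}

open HodgeData

theorem int_add {X : V} (a b : D.H X) : D.int (a + b) = D.int a + D.int b :=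
  map_add (D.tr X) a b

theorem int_smul {X : V} (c : ℂ) (a : D.H X) : D.int (c • a) = c * D.int a :=
  (map_smul (D.tr X) c a).trans (smul_eq_mul _ _)

theorem int_zero {X : V} : D.int (0 : D.H X) = 0 := map_zero (D.tr X)

/-- the trace of a product of classes of types `(p, q)`, `(r, s)` -/
theorem int_type (hD : D.IsWeil) (h : P.HodgeAxioms) {X : V} {p q r s : ℕ} {a b : D.H X}
    (ha : a ∈ P.hodge X p q) (hb : b ∈ P.hodge X r s)
    (hne : p + r ≠ q + s ∨ p + r + (q + s) ≠ 2 * D.dim X) : D.int (a * b) = 0 := by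
  have hab := h.mul X p q r s a ha b hb
  rcases hne with hne | hne
  · exact h.int X _ _ hne _ hab
  · exact hD.trace.deg X _ _ (h.deg X _ _ hab) hne

theorem int_comm {X : V} {d : ℕ} (hd : Odd d) {a b : D.H X} (ha : a ∈ D.deg X d)
    (hb : b ∈ D.deg X d) : D.int (a * b) = -D.int (b * a) := by
  rw [(D.R X).comm d d a b ha hb, (hd.mul hd).neg_one_pow, neg_one_mul]
  exact map_neg (D.tr X) _

theorem dual_type (hD : D.IsWeil) (h : P.HodgeAxioms) {X : V} {p q : ℕ}
    (hpq : p + q = D.dim X) {x : D.H X} (hx : x ∈ P.hodge X p q)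
    (h0 : ∀ b ∈ P.hodge X q p, D.int (b * x) = 0) : x = 0 := by
  apply hD.trace.duality X x
  intro b
  refine hodge_ind h (p := fun b => D.int (b * x) = 0) ?_ ?_ b
  · intro r s b hb
    by_cases hrs : r = q ∧ s = p
    · obtain ⟨rfl, rfl⟩ := hrs
      exact h0 b hb
    · refine int_type hD h hb hx ?_
      omega
  · intro b c hb hc
    rw [add_mul, int_add, hb, hc, add_zero]

theorem mem_deg (h : P.HodgeAxioms) {X : V} {p q d : ℕ} (hpq : p + q = d) {x : D.H X}
    (hx : x ∈ P.hodge X p q) : x ∈ D.deg X d := by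
  subst hpq
  exact h.deg X p q hx

theorem perf (hD : D.IsWeil) (h : P.HodgeAxioms) {X : V} {d : ℕ} (hd : Odd d)
    (hX : D.dim X = d) {p q : ℕ} (hpq : p + q = d) :
    ∃ (n : ℕ) (α β : Fin n → D.H X), (∀ i, α i ∈ P.hodge X p q) ∧
      (∀ i, β i ∈ P.hodge X q p) ∧ (∀ i, D.int (α i * β i) = 1) ∧
      (∀ x ∈ P.hodge X p q, x = ∑ i, D.int (x * β i) • α i) ∧
      (∀ y ∈ P.hodge X q p, y = ∑ i, D.int (α i * y) • β i) := by
  refine dual_bases ((LinearMap.mul ℂ (D.H X)).compr₂ (D.tr X)) (P.hodge X p q)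
    (P.hodge X q p) ?_ ?_
  · intro x hx h0
    refine dual_type hD h (by omega) hx fun b hb => ?_
    rw [int_comm hd (mem_deg h (by omega) hb) (mem_deg h hpq hx), neg_eq_zero]
    exact h0 b hb
  · intro y hy h0
    exact dual_type hD h (by omega) hy fun b hb => h0 b hb

theorem fam (hD : D.IsWeil) (h : P.HodgeAxioms) {X : V} {d : ℕ} (hd : Odd d)
    (hX : D.dim X = d) :
    ∃ (ι : Type) (_ : Fintype ι) (α β : ι → D.H X) (c : ι → ℂ),
      (∀ i, (∃ p q, p + q = d ∧ 0 < p ∧ 0 < q ∧ α i ∈ P.hodge X p q ∧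
        β i ∈ P.hodge X q p) ∧ D.int (α i * β i) = 1) ∧
      (∀ r s, r + s = d → 0 < r → 0 < s → ∀ x ∈ P.hodge X r s,
        ∑ i, c i • (D.int (β i * x) • α i + D.int (α i * x) • β i) =
          -(((r : ℂ) - s) • x)) := by
  classical
  obtain ⟨S, hS⟩ : ∃ S : Finset ℕ, ∀ p, p ∈ S ↔ p < d ∧ d < 2 * p :=
    ⟨(Finset.range d).filter fun p => d < 2 * p, fun p => by simp⟩
  have hex : ∀ p : S, ∃ (n : ℕ) (α β : Fin n → D.H X), (∀ i, α i ∈ P.hodge X p (d - p)) ∧
      (∀ i, β i ∈ P.hodge X (d - p) p) ∧ (∀ i, D.int (α i * β i) = 1) ∧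
      (∀ x ∈ P.hodge X p (d - p), x = ∑ i, D.int (x * β i) • α i) ∧
      (∀ y ∈ P.hodge X (d - p) p, y = ∑ i, D.int (α i * y) • β i) := fun p =>
    perf hD h hd hX (by have := (hS p).1 p.2; omega)
  choose n α β hα hβ hαβ hx1 hx2 using hex
  refine ⟨Σ p : S, Fin (n p), inferInstance, fun i => α i.1 i.2, fun i => β i.1 i.2,
    fun i => ((i.1 : ℕ) : ℂ) - ((d - i.1 : ℕ) : ℂ), ?_, ?_⟩
  · rintro ⟨p, i⟩
    have hp := (hS p).1 p.2
    exact ⟨⟨p, d - p, by omega, by omega, by omega, hα p i, hβ p i⟩, hαβ p i⟩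
  · intro r s hrs hr hs x hx
    rw [Fintype.sum_sigma]
    rcases lt_or_gt_of_ne (show s ≠ r by rintro rfl; rcases hd with ⟨k, hk⟩; omega) with hlt | hlt
    · -- type (r, s) with s < r
      have hrS : r ∈ S := (hS r).2 ⟨by omega, by omega⟩
      obtain rfl : s = d - r := by omega
      rw [Finset.sum_eq_single (⟨r, hrS⟩ : S)]
      · have h1 : ∀ i, D.int (α ⟨r, hrS⟩ i * x) = 0 := fun i =>
          int_type hD h (hα ⟨r, hrS⟩ i) hx (by change r + r ≠ (d - r) + (d - r) ∨ _; omega)
        have h2 : ∀ i, D.int (β ⟨r, hrS⟩ i * x) = -D.int (x * β ⟨r, hrS⟩ i) := fun i =>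
          int_comm hd (mem_deg h (by change d - r + r = d; omega) (hβ ⟨r, hrS⟩ i))
            (mem_deg h (by omega) hx)
        simp only [h1, h2, zero_smul, add_zero, neg_smul, smul_neg, Finset.sum_neg_distrib]
        rw [← Finset.smul_sum, ← hx1 ⟨r, hrS⟩ x hx]
      · rintro ⟨p, hp⟩ _ hne
        have hp' := (hS p).1 hp
        have hne' : p ≠ r := by
          rintro rfl
          exact hne rfl
        refine Finset.sum_eq_zero fun i _ => ?_
        have h1 : D.int (α ⟨p, hp⟩ i * x) = 0 :=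
          int_type hD h (hα ⟨p, hp⟩ i) hx (by change p + r ≠ (d - p) + (d - r) ∨ _; omega)
        have h2 : D.int (β ⟨p, hp⟩ i * x) = 0 :=
          int_type hD h (hβ ⟨p, hp⟩ i) hx (by change (d - p) + r ≠ p + (d - r) ∨ _; omega)
        rw [h1, h2, zero_smul, zero_smul, add_zero, smul_zero]
      · intro hn
        exact absurd (Finset.mem_univ _) hn
    · -- type (r, s) with r < s
      have hsS : s ∈ S := (hS s).2 ⟨by omega, by omega⟩
      obtain rfl : r = d - s := by omega
      rw [Finset.sum_eq_single (⟨s, hsS⟩ : S)]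
      · have h1 : ∀ i, D.int (β ⟨s, hsS⟩ i * x) = 0 := fun i =>
          int_type hD h (hβ ⟨s, hsS⟩ i) hx (by change (d - s) + (d - s) ≠ s + s ∨ _; omega)
        simp only [h1, zero_smul, zero_add]
        rw [← Finset.smul_sum, ← hx2 ⟨s, hsS⟩ x hx, ← neg_smul, neg_sub]
      · rintro ⟨p, hp⟩ _ hne
        have hp' := (hS p).1 hp
        have hne' : p ≠ s := by
          rintro rfl
          exact hne rfl
        refine Finset.sum_eq_zero fun i _ => ?_
        have h1 : D.int (α ⟨p, hp⟩ i * x) = 0 :=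
          int_type hD h (hα ⟨p, hp⟩ i) hx (by change p + (d - s) ≠ (d - p) + s ∨ _; omega)
        have h2 : D.int (β ⟨p, hp⟩ i * x) = 0 :=
          int_type hD h (hβ ⟨p, hp⟩ i) hx (by change (d - p) + (d - s) ≠ p + s ∨ _; omega)
        rw [h1, h2, zero_smul, zero_smul, add_zero, smul_zero]
      · intro hn
        exact absurd (Finset.mem_univ _) hn

end LINAux

open LINAux HodgeData in
theorem blk_LIN {D : WeilData.{u, v, w, 0} V ℂ} {P : HodgeData D} (hD : D.IsWeil)
    (hc : P.ConjAxioms) (h : P.HodgeAxioms) (d : ℕ) (hd : Odd d) (Y : V) (hY : P.Big d Y) :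
    Stmt_HPA P h → Stmt_LIN P h d Y := by
  rintro ⟨-, -, h3, -, -, -, hWinv, -⟩
  obtain ⟨ω, hω, hω0, hωtop⟩ := hY.top
  have hdim := hY.dim
  have hd0 : 0 < d := hd.pos
  have hbω : P.bar Y ω ∈ P.hodge Y 0 d := h.bar Y d 0 ω hω
  have hbot : ∀ x ∈ P.hodge Y 0 d, ∃ c : ℂ, x = c • P.bar Y ω := by
    intro x hx
    obtain ⟨c, hc'⟩ := hωtop _ (h.bar Y 0 d x hx)
    refine ⟨starRingEnd ℂ c, ?_⟩
    rw [← hc.invol Y x, hc', LinearMap.map_smulₛₗ]
  have hq : D.int (ω * P.bar Y ω) ≠ 0 := by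
    intro hq
    apply hω0
    refine dual_type hD h (p := d) (q := 0) (by omega) hω fun b hb => ?_
    obtain ⟨c, rfl⟩ := hbot b hb
    rw [smul_mul_assoc, int_smul, int_comm hd (mem_deg h (by omega) hbω)
      (mem_deg h (by omega) hω), hq, neg_zero, mul_zero]
  obtain ⟨q, hqd⟩ : ∃ q : ℂ, q = D.int (ω * P.bar Y ω) := ⟨_, rfl⟩
  rw [← hqd] at hq
  obtain ⟨η, hη⟩ : ∃ η : D.H Y, η = q⁻¹ • P.bar Y ω := ⟨_, rfl⟩
  have hbη : P.bar Y ω = q • η := by rw [hη, smul_smul, mul_inv_cancel₀ hq, one_smul]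
  have hηm : η ∈ P.hodge Y 0 d := by rw [hη]; exact Submodule.smul_mem _ _ hbω
  have hωd : ω ∈ D.deg Y d := mem_deg h (by omega) hω
  have hηd : η ∈ D.deg Y d := mem_deg h (by omega) hηm
  have hωη : D.int (ω * η) = 1 := by
    rw [hη, mul_smul_comm, int_smul, ← hqd, inv_mul_cancel₀ hq]
  have hηω : D.int (η * ω) = -1 := by rw [int_comm hd hηd hωd, hωη]
  have hωω : D.int (ω * ω) = 0 := int_type hD h hω hω (by omega)
  have hηη : D.int (η * η) = 0 := int_type hD h hηm hηm (by omega)
  have hbot' : ∀ x ∈ P.hodge Y 0 d, ∃ c : ℂ, x = c • η := by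
    intro x hx
    obtain ⟨c, hc'⟩ := hbot x hx
    exact ⟨c * q, by rw [hc', hbη, smul_smul]⟩
  have hωmid : ∀ r s, r + s = d → 0 < s → ∀ x ∈ P.hodge Y r s, D.int (η * x) = 0 := by
    intro r s hrs hs x hx
    exact int_type hD h hηm hx (by omega)
  have hηmid : ∀ r s, r + s = d → 0 < r → ∀ x ∈ P.hodge Y r s, D.int (ω * x) = 0 := by
    intro r s hrs hs x hx
    exact int_type hD h hω hx (by omega)
  obtain ⟨ι, _, α, β, c, hαβ, hsum⟩ := fam hD h hd hdim
  let e := Fintype.equivFin ι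
  refine ⟨ω, η, Fintype.card ι, fun k => α (e.symm k), fun k => β (e.symm k),
    fun k => c (e.symm k), hωd, hηd, hωη, ?_, ?_, ?_⟩
  · intro k
    obtain ⟨⟨p, q', hpq, hp, hq', h1, h2⟩, h4⟩ := hαβ (e.symm k)
    exact ⟨mem_deg h hpq h1, mem_deg h (by omega) h2, h4, int_type hD h hω h1 (by omega),
      int_type hD h hω h2 (by omega), int_type hD h hηm h1 (by omega),
      int_type hD h hηm h2 (by omega)⟩
  · intro x0 hx0
    rw [Equiv.sum_comp e.symm
      fun i => c i • (D.int (β i * x0) • α i + D.int (α i * x0) • β i)]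
    refine h3 Y d (fun x => P.hodgeOp h Y x =
      -((d : ℂ) • (D.int (ω * x) • η + D.int (η * x) • ω)) -
        ∑ i, c i • (D.int (β i * x) • α i + D.int (α i * x) • β i)) ?_ ?_ ?_ x0 hx0
    · intro r s hrs x hx
      rcases Nat.eq_zero_or_pos s with hs | hs
      · subst hs
        obtain rfl : r = d := by omega
        have h0 : ∑ i, c i • (D.int (β i * x) • α i + D.int (α i * x) • β i) = 0 := by
          refine Finset.sum_eq_zero fun i _ => ?_
          obtain ⟨⟨p, q', hpq, hp, hq', h1, h2⟩, h4⟩ := hαβ i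
          rw [int_type hD h h1 hx (by omega), int_type hD h h2 hx (by omega), zero_smul,
            zero_smul, add_zero, smul_zero]
        rw [hodgeOp_apply h hx, h0]
        obtain ⟨t, rfl⟩ := hωtop x hx
        rw [mul_smul_comm, mul_smul_comm, int_smul, int_smul, hωω, hηω]
        simp
      · rcases Nat.eq_zero_or_pos r with hr | hr
        · subst hr
          obtain rfl : s = d := by omega
          have h0 : ∑ i, c i • (D.int (β i * x) • α i + D.int (α i * x) • β i) = 0 := by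
            refine Finset.sum_eq_zero fun i _ => ?_
            obtain ⟨⟨p, q', hpq, hp, hq', h1, h2⟩, h4⟩ := hαβ i
            rw [int_type hD h h1 hx (by omega), int_type hD h h2 hx (by omega), zero_smul,
              zero_smul, add_zero, smul_zero]
          rw [hodgeOp_apply h hx, h0]
          obtain ⟨t, rfl⟩ := hbot' x hx
          rw [mul_smul_comm, mul_smul_comm, int_smul, int_smul, hωη, hηη]
          simp
        · rw [hodgeOp_apply h hx, hsum r s hrs hr hs x hx, hωmid r s hrs hs x hx,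
            hηmid r s hrs hr x hx]
          simp
    · intro a b ha hb
      rw [map_add, ha, hb]
      simp only [mul_add, int_add, add_smul, smul_add, Finset.sum_add_distrib]
      abel
    · rw [map_zero]
      simp only [mul_zero, int_zero, zero_smul, add_zero, smul_zero, Finset.sum_const_zero,
        neg_zero, sub_zero]
  · intro T hT x0 hx0
    have hT1 : T Y ω = ω := by
      rw [hT ω hωd, hωω, hηω]
      simp
    have hT2 : T Y η = -η := by
      rw [hT η hηd, hωη, hηη]
      simp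
    have hT3 : ∀ r s, r + s = d → 0 < r → 0 < s → ∀ x ∈ P.hodge Y r s, T Y x = 0 := by
      intro r s hrs hr hs x hx
      rw [hT x (mem_deg h hrs hx), hωmid r s hrs hs x hx, hηmid r s hrs hr x hx]
      simp
    have hbbη : ∃ t : ℂ, P.bar Y η = t • ω := hωtop _ (h.bar Y 0 d η hηm)
    refine h3 Y d (fun x => P.sharp h T Y x = T Y x) ?_ ?_ ?_ x0 hx0
    · intro r s hrs x hx
      rw [sharp_apply]
      rcases Nat.eq_zero_or_pos s with hs | hs
      · subst hs
        obtain rfl : r = d := by omega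
        obtain ⟨t, rfl⟩ := hωtop x hx
        have h5 : ∃ t' : ℂ, P.bar Y (P.weilOp h Y (t • ω)) = t' • η := by
          refine ⟨starRingEnd ℂ (Complex.I ^ r * (-Complex.I) ^ 0) * (starRingEnd ℂ t) * q, ?_⟩
          rw [weilOp_apply h hx, LinearMap.map_smulₛₗ, LinearMap.map_smulₛₗ, hbη, smul_smul,
            smul_smul, mul_assoc]
        obtain ⟨t', h6⟩ := h5
        have h7 : T Y (P.bar Y (P.weilOp h Y (t • ω))) = -P.bar Y (P.weilOp h Y (t • ω)) := by
          rw [h6, map_smul, hT2, smul_neg]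
        rw [h7, map_neg, hc.invol, map_neg, hWinv, neg_neg, map_smul, hT1]
      · rcases Nat.eq_zero_or_pos r with hr | hr
        · subst hr
          obtain rfl : s = d := by omega
          obtain ⟨t, rfl⟩ := hbot' x hx
          obtain ⟨u, hu⟩ := hbbη
          have h5 : ∃ t' : ℂ, P.bar Y (P.weilOp h Y (t • η)) = t' • ω := by
            refine ⟨starRingEnd ℂ (Complex.I ^ 0 * (-Complex.I) ^ s) * (starRingEnd ℂ t) * u, ?_⟩
            rw [weilOp_apply h hx, LinearMap.map_smulₛₗ, LinearMap.map_smulₛₗ, hu, smul_smul,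
              smul_smul, mul_assoc]
          obtain ⟨t', h6⟩ := h5
          have h7 : T Y (P.bar Y (P.weilOp h Y (t • η))) = P.bar Y (P.weilOp h Y (t • η)) := by
            rw [h6, map_smul, hT1]
          rw [h7, hc.invol, hWinv, map_smul, hT2, smul_neg]
        · have h5 : P.bar Y (P.weilOp h Y x) ∈ P.hodge Y s r := by
            apply h.bar
            rw [weilOp_apply h hx]
            exact Submodule.smul_mem _ _ hx
          rw [hT3 s r (by omega) hs hr _ h5, hT3 r s hrs hr hs x hx]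
          simp
    · intro a b ha hb
      rw [map_add, map_add, ha, hb]
    · rw [map_zero, map_zero]

end Pool.KC
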