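import Pool.Agent.Work.MP_a60482_exo.Interface

/-! Block MET: a metric on `H(X)` for which the adjoint of `T` is `T^#`. -/

open CategoryTheory MonoidalCategory CartesianMonoidalCategory

universe u v w x

namespace Pool.KC

open WeilData

variable {V : Type u} [Category.{v} V] [CartesianMonoidalCategory V]

namespace METAux

variable {D : WeilData.{u, v, w, 0} V ℂ} {P : HodgeData D}

theorem pol_bot (h : P.HodgeAxioms) (X : V) : P.Pol h X ⊥ := by
  refine ⟨fun _ _ => 0, ?_, ?_, ?_, ?_, ?_, ?_⟩
  · intro x _ y _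
    exact (map_zero _).symm
  · intro x _ y _ z _
    exact (add_zero _).symm
  · intro x _ y _ c
    exact (mul_zero _).symm
  · intro x hx hx0
    exact absurd ((Submodule.mem_bot ℂ).1 hx) hx0
  · intro T _ x hx
    rw [Submodule.mem_bot] at hx ⊢
    rw [hx, map_zero]
  · intro T _ x _ y _
    rfl

theorem ample_deg (hD : D.IsWeil) (hL : P.LefschetzAxioms) (X : V) : P.ample X ∈ D.deg X 2 :=
  hD.cycle.deg X 1 (hL.alg X)

theorem pow_deg (hD : D.IsWeil) (hL : P.LefschetzAxioms) (X : V) (m : ℕ) :
    P.ample X ^ m ∈ D.deg X (2 * m) := by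
  induction m with
  | zero => simpa using SetLike.GradedOne.one_mem (A := (D.R X).deg)
  | succ m ih =>
    rw [pow_succ]
    exact SetLike.GradedMul.mul_mem (A := (D.R X).deg) ih (ample_deg hD hL X)

theorem mul_deg (hD : D.IsWeil) (hL : P.LefschetzAxioms) {X : V} {k : ℕ} (m : ℕ) {a : D.H X}
    (ha : a ∈ D.deg X k) : P.ample X ^ m * a ∈ D.deg X (k + 2 * m) := by
  rw [add_comm]
  exact SetLike.GradedMul.mul_mem (A := (D.R X).deg) (pow_deg hD hL X m) ha

theorem T_ample (hL : P.LefschetzAxioms) {T : D.Fam} (hT : D.MotDer T) (X : V) :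
    T X (P.ample X) = 0 := hT.alg X 1 _ (hL.alg X)

theorem T_mul (hB : Stmt_BAS D) (hL : P.LefschetzAxioms) {T : D.Fam} (hT : D.MotDer T) (X : V)
    (m : ℕ) (a : D.H X) : T X (P.ample X ^ m * a) = P.ample X ^ m * T X a := by
  induction m generalizing a with
  | zero => simp
  | succ m ih =>
    rw [pow_succ, mul_assoc, ih, hB.2.2.2.2.1 T hT, T_ample hL hT, zero_mul, zero_add, mul_assoc]

theorem pol_map (hB : Stmt_BAS D) {h : P.HodgeAxioms} (hL : P.LefschetzAxioms)
    (hS : Stmt_PSM P h) (X : V) (i k : ℕ) (hik : i + k ≤ D.dim X) (m : ℕ)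
    (hm : i + m = D.dim X) (hpol : P.Pol h X (D.deg X i)) :
    P.Pol h X ((D.deg X i).map (LinearMap.mulLeft ℂ (P.ample X ^ k))) := by
  refine hS.1 X (D.deg X i) (LinearMap.mulLeft ℂ (P.ample X ^ k)) ?_ ?_ hpol
  · intro T hT x _
    exact T_mul hB hL hT X k x
  · intro x hx hx0
    rw [LinearMap.mulLeft_apply] at hx0
    refine hL.hard_inj X i m hm x hx ?_
    have h1 : P.ample X ^ m = P.ample X ^ (m - k) * P.ample X ^ k := by
      rw [← pow_add]
      congr 1
      omega
    rw [h1, mul_assoc, hx0, mul_zero]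

theorem pol_low (hD : D.IsWeil) {h : P.HodgeAxioms} (hL : P.LefschetzAxioms) (hB : Stmt_BAS D)
    (hR : Stmt_PRM P h) (hS : Stmt_PSM P h) (X : V) :
    ∀ k : ℕ, k ≤ D.dim X → P.Pol h X (D.deg X k) := by
  intro k
  induction k using Nat.strong_induction_on with
  | _ k ih =>
    intro hk
    have hprim : P.Pol h X (P.prim X k (D.dim X - k)) := hR X k (D.dim X - k) (by omega)
    by_cases hk2 : k < 2
    · have h1 : P.prim X k (D.dim X - k) = D.deg X k := by
        refine le_antisymm inf_le_left fun a ha => ⟨ha, ?_⟩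
        rw [SetLike.mem_coe, LinearMap.mem_ker, LinearMap.mulLeft_apply]
        refine (toWeil hD).deg_eq_zero (mul_deg hD hL (D.dim X - k + 1) ha) ?_
        change 2 * D.dim X < _
        omega
      rw [h1] at hprim
      exact hprim
    · have h2 := pol_map hB hL hS X (k - 2) 1 (by omega) (D.dim X - k + 2) (by omega)
        (ih (k - 2) (by omega) (by omega))
      have hdis : Disjoint (P.prim X k (D.dim X - k))
          ((D.deg X (k - 2)).map (LinearMap.mulLeft ℂ (P.ample X ^ 1))) := by
        rw [Submodule.disjoint_def]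
        intro a ha hb
        obtain ⟨b, hb, rfl⟩ := hb
        obtain ⟨_, ha2⟩ := ha
        rw [SetLike.mem_coe, LinearMap.mem_ker, LinearMap.mulLeft_apply, LinearMap.mulLeft_apply,
          ← mul_assoc, ← pow_add] at ha2
        have hb0 : b = 0 := by
          refine hL.hard_inj X (k - 2) (D.dim X - k + 2) (by omega) b hb ?_
          exact ha2
        rw [hb0, map_zero]
      have h3 := hS.2.1 X _ _ hdis hprim h2
      have h4 : P.prim X k (D.dim X - k) ⊔
          (D.deg X (k - 2)).map (LinearMap.mulLeft ℂ (P.ample X ^ 1)) = D.deg X k := by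
        refine le_antisymm (sup_le inf_le_left ?_) ?_
        · rintro _ ⟨b, hb, rfl⟩
          rw [LinearMap.mulLeft_apply]
          have h5 := mul_deg hD hL 1 hb
          have h6 : k - 2 + 2 * 1 = k := by omega
          rw [h6] at h5
          exact h5
        · intro x hx
          have h5 := mul_deg hD hL (D.dim X - k + 1) hx
          have h6 : k + 2 * (D.dim X - k + 1) = k - 2 + 2 * (D.dim X - k + 2) := by omega
          rw [h6] at h5
          obtain ⟨e, he, hex⟩ := hL.hard_surj X (k - 2) (D.dim X - k + 2) (by omega) _ h5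
          have h7 := mul_deg hD hL 1 he
          have h8 : k - 2 + 2 * 1 = k := by omega
          rw [h8] at h7
          have h9 : x = (x - P.ample X ^ 1 * e) + P.ample X ^ 1 * e := (sub_add_cancel _ _).symm
          rw [h9]
          refine Submodule.add_mem_sup ⟨sub_mem hx h7, ?_⟩ ⟨e, he, rfl⟩
          rw [SetLike.mem_coe, LinearMap.mem_ker, LinearMap.mulLeft_apply, mul_sub, ← mul_assoc,
            ← pow_add, ← hex, sub_self]
      rw [h4] at h3
      exact h3

theorem pol_deg (hD : D.IsWeil) {h : P.HodgeAxioms} (hL : P.LefschetzAxioms) (hB : Stmt_BAS D)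
    (hR : Stmt_PRM P h) (hS : Stmt_PSM P h) (X : V) (k : ℕ) : P.Pol h X (D.deg X k) := by
  by_cases hk : k ≤ D.dim X
  · exact pol_low hD hL hB hR hS X k hk
  · by_cases hk2 : k ≤ 2 * D.dim X
    · have h1 := pol_map hB hL hS X (2 * D.dim X - k) (k - D.dim X) (by omega) (k - D.dim X)
        (by omega) (pol_low hD hL hB hR hS X _ (by omega))
      have h2 : (D.deg X (2 * D.dim X - k)).map
          (LinearMap.mulLeft ℂ (P.ample X ^ (k - D.dim X))) = D.deg X k := by
        apply le_antisymm
        · rintro _ ⟨b, hb, rfl⟩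
          rw [LinearMap.mulLeft_apply]
          have h5 := mul_deg hD hL (k - D.dim X) hb
          have h6 : 2 * D.dim X - k + 2 * (k - D.dim X) = k := by omega
          rw [h6] at h5
          exact h5
        · intro a ha
          have h6 : 2 * D.dim X - k + 2 * (k - D.dim X) = k := by omega
          rw [← h6] at ha
          obtain ⟨e, he, hex⟩ := hL.hard_surj X (2 * D.dim X - k) (k - D.dim X) (by omega) a ha
          exact ⟨e, he, hex⟩
      rw [h2] at h1
      exact h1
    · have h1 : D.deg X k = ⊥ := by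
        rw [Submodule.eq_bot_iff]
        intro a ha
        refine (toWeil hD).deg_eq_zero ha ?_
        change 2 * D.dim X < _
        omega
      rw [h1]
      exact pol_bot h X

end METAux

open METAux

theorem blk_MET {D : WeilData.{u, v, w, 0} V ℂ} {P : HodgeData D} (hD : D.IsWeil)
    (h : P.HodgeAxioms) (hL : P.LefschetzAxioms) :
    Stmt_BAS D → Stmt_HPB P h → Stmt_PRM P h → Stmt_PSM P h → Stmt_MET P h := by
  intro hB _ hR hS X
  have hpol := pol_deg hD hL hB hR hS X
  refine hS.2.2.2 X (hS.2.2.1 X (fun k => D.deg X k) (2 * D.dim X + 1) ?_ hpol ?_)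
  · exact (DirectSum.Decomposition.isInternal (D.R X).deg).submodule_iSupIndep
  · rw [eq_top_iff]
    intro a _
    refine (toWeil hD).hind (P := fun a => a ∈ ⨆ k ∈ Finset.range (2 * D.dim X + 1), D.deg X k)
      (zero_mem _) ?_ (fun a b ha hb => add_mem ha hb) a
    intro k a ha
    by_cases hk : k ≤ 2 * D.dim X
    · exact Submodule.mem_iSup_of_mem k (Submodule.mem_iSup_of_mem
        (Finset.mem_range.2 (by omega)) ha)
    · have h1 : a = 0 := (toWeil hD).deg_eq_zero ha (by
        change 2 * D.dim X < _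
        omega)
      rw [h1]
      exact zero_mem _

end Pool.KC
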