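import Pool.Agent.Work.MP_a60482_exo.Interface

/-! Block NDG: the trace form on the families acting trivially on `H^d(Y)`. -/

open CategoryTheory MonoidalCategory CartesianMonoidalCategory

universe u v w x

namespace Pool.KC

namespace NDGAux

section inner

variable {E : Type w} [NormedAddCommGroup E] [InnerProductSpace ℂ E] [FiniteDimensional ℂ E]

theorem trace_conj (A B : Module.End ℂ E) (h : ∀ x y : E, inner ℂ (A x) y = inner ℂ x (B y)) :
    LinearMap.trace ℂ E B = starRingEnd ℂ (LinearMap.trace ℂ E A) := by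
  rw [LinearMap.trace_eq_sum_inner B (stdOrthonormalBasis ℂ E),
    LinearMap.trace_eq_sum_inner A (stdOrthonormalBasis ℂ E), map_sum]
  refine Finset.sum_congr rfl fun i _ => ?_
  rw [← h, ← inner_conj_symm]

theorem zero_of_trace (A B : Module.End ℂ E) (h : ∀ x y : E, inner ℂ (A x) y = inner ℂ x (B y))
    (h0 : LinearMap.trace ℂ E (A * B) = 0) : A = 0 := by
  have h1 : LinearMap.trace ℂ E (A * B) =
      ((∑ i, ‖B (stdOrthonormalBasis ℂ E i)‖ ^ 2 : ℝ) : ℂ) := by
    rw [LinearMap.trace_eq_sum_inner _ (stdOrthonormalBasis ℂ E)]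
    push_cast
    refine Finset.sum_congr rfl fun i _ => ?_
    have h2 : ∀ x y : E, inner ℂ x (A y) = inner ℂ (B x) y := by
      intro x y
      rw [← inner_conj_symm, h, inner_conj_symm]
    rw [Module.End.mul_apply, h2, inner_self_eq_norm_sq_to_K]
    rfl
  rw [h0] at h1
  have h3 : (∑ i, ‖B (stdOrthonormalBasis ℂ E i)‖ ^ 2 : ℝ) = 0 := by
    exact_mod_cast h1.symm
  rw [Finset.sum_eq_zero_iff_of_nonneg (fun i _ => by positivity)] at h3
  have h4 : B = 0 := by
    refine (stdOrthonormalBasis ℂ E).toBasis.ext fun i => ?_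
    have := h3 i (Finset.mem_univ i)
    rw [OrthonormalBasis.coe_toBasis, LinearMap.zero_apply]
    simpa using this
  ext x
  refine ext_inner_right ℂ fun y => ?_
  rw [h, h4]
  simp

theorem diag_of_symm (A : Module.End ℂ E) (h : ∀ x y : E, inner ℂ (A x) y = inner ℂ x (A y)) :
    (⨆ μ : ℂ, Module.End.eigenspace A μ) = ⊤ := by
  have hS : LinearMap.IsSymmetric A := h
  exact Submodule.orthogonal_eq_bot_iff.mp hS.orthogonalComplement_iSup_eigenspaces_eq_bot

end inner

section core

variable {E : Type w} [AddCommGroup E] [Module ℂ E] [FiniteDimensional ℂ E]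
variable (c : InnerProductSpace.Core ℂ E)

theorem core_trace_conj (A B : Module.End ℂ E) (h : ∀ x y : E, c.inner (A x) y = c.inner x (B y)) :
    LinearMap.trace ℂ E B = starRingEnd ℂ (LinearMap.trace ℂ E A) := by
  let _ : NormedAddCommGroup E := c.toNormedAddCommGroup
  let _ : InnerProductSpace ℂ E := InnerProductSpace.ofCore c.toCore
  exact trace_conj A B h

theorem core_zero_of_trace (A B : Module.End ℂ E)
    (h : ∀ x y : E, c.inner (A x) y = c.inner x (B y))
    (h0 : LinearMap.trace ℂ E (A * B) = 0) : A = 0 := by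
  let _ : NormedAddCommGroup E := c.toNormedAddCommGroup
  let _ : InnerProductSpace ℂ E := InnerProductSpace.ofCore c.toCore
  exact zero_of_trace A B h h0

theorem core_diag_of_symm (A : Module.End ℂ E)
    (h : ∀ x y : E, c.inner (A x) y = c.inner x (A y)) :
    (⨆ μ : ℂ, Module.End.eigenspace A μ) = ⊤ := by
  let _ : NormedAddCommGroup E := c.toNormedAddCommGroup
  let _ : InnerProductSpace ℂ E := InnerProductSpace.ofCore c.toCore
  exact diag_of_symm A h

end core

section kil

variable {V : Type u} [Category.{v} V] [CartesianMonoidalCategory V]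
variable {D : WeilData.{u, v, w, 0} V ℂ}

theorem kil_zero (hB : Stmt_BAS D) (d : ℕ) (Y : V) : D.Kil d Y 0 where
  mot := hB.1
  zero := fun _ _ => rfl

theorem kil_add (hB : Stmt_BAS D) {d : ℕ} {Y : V} {K K' : D.Fam} (h : D.Kil d Y K)
    (h' : D.Kil d Y K') : D.Kil d Y (K + K') where
  mot := hB.2.1 K K' h.mot h'.mot
  zero := fun x hx => by
    have h1 : (K + K') Y x = K Y x + K' Y x := rfl
    rw [h1, h.zero x hx, h'.zero x hx, add_zero]

theorem kil_smul (hB : Stmt_BAS D) {d : ℕ} {Y : V} (c : ℂ) {K : D.Fam} (h : D.Kil d Y K) :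
    D.Kil d Y (c • K) where
  mot := hB.2.2.1 c K h.mot
  zero := fun x hx => by
    have h1 : (c • K) Y x = c • K Y x := rfl
    rw [h1, h.zero x hx, smul_zero]

theorem kil_comm (hB : Stmt_BAS D) {d : ℕ} {Y : V} {S K : D.Fam} (hS : D.MotDer S)
    (h : D.Kil d Y K) : D.Kil d Y (S * K - K * S) where
  mot := hB.2.2.2.1 S K hS h.mot
  zero := fun x hx => by
    have h1 : (S * K - K * S) Y x = S Y (K Y x) - K Y (S Y x) := rfl
    rw [h1, h.zero x hx, map_zero, h.zero _ (hS.deg Y d x hx), sub_zero]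

variable {P : HodgeData D}

theorem kil_sharp {h : P.HodgeAxioms} (hP : Stmt_HPB P h) {d : ℕ} {Y : V} {K : D.Fam}
    (hK : D.Kil d Y K) : D.Kil d Y (P.sharp h K) where
  mot := hP.2.1 K hK.mot
  zero := hP.2.2 d Y K hK.zero

/-- the operators on `H(X)` coming from `Kil` -/
def kilSub (hB : Stmt_BAS D) (d : ℕ) (Y X : V) : Submodule ℂ (Module.End ℂ (D.H X)) where
  carrier := {A | ∃ K : D.Fam, D.Kil d Y K ∧ K X = A}
  add_mem' := by
    rintro _ _ ⟨K, hK, rfl⟩ ⟨K', hK', rfl⟩
    exact ⟨K + K', kil_add hB hK hK', rfl⟩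
  zero_mem' := ⟨0, kil_zero hB d Y, rfl⟩
  smul_mem' := by
    rintro c _ ⟨K, hK, rfl⟩
    exact ⟨c • K, kil_smul hB c hK, rfl⟩

/-- general fact: if the trace form is nondegenerate on the space `S`, every operator is
congruent to an element of `S` modulo the orthogonal of `S` -/
theorem exists_proj {E : Type w} [AddCommGroup E] [Module ℂ E] [FiniteDimensional ℂ E]
    (S : Submodule ℂ (Module.End ℂ E))
    (hS : ∀ A ∈ S, (∀ B ∈ S, LinearMap.trace ℂ E (A * B) = 0) → A = 0) (T : Module.End ℂ E) :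
    ∃ A ∈ S, ∀ B ∈ S, LinearMap.trace ℂ E (A * B) = LinearMap.trace ℂ E (T * B) := by
  let Φ : Module.End ℂ E →ₗ[ℂ] (S →ₗ[ℂ] ℂ) :=
    ((LinearMap.mul ℂ (Module.End ℂ E)).compr₂ (LinearMap.trace ℂ E)).compl₂ S.subtype
  have hΦ : ∀ (A : Module.End ℂ E) (B : S), Φ A B = LinearMap.trace ℂ E (A * (B : Module.End ℂ E)) :=
    fun A B => rfl
  have hinj : Function.Injective (Φ ∘ₗ S.subtype) := by
    rw [← LinearMap.ker_eq_bot, LinearMap.ker_eq_bot']
    intro A hA
    apply Subtype.ext
    refine hS A.1 A.2 fun B hB => ?_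
    have h1 : Φ A.1 ⟨B, hB⟩ = 0 := by
      have h2 : Φ A.1 = 0 := hA
      rw [h2]
      rfl
    rw [hΦ] at h1
    exact h1
  have hfin : Module.finrank ℂ S = Module.finrank ℂ (S →ₗ[ℂ] ℂ) :=
    (Subspace.dual_finrank_eq (K := ℂ) (V := S)).symm
  have hsurj := (LinearMap.injective_iff_surjective_of_finrank_eq_finrank hfin).1 hinj
  obtain ⟨A, hA⟩ := hsurj (Φ T)
  refine ⟨A.1, A.2, fun B hB => ?_⟩
  have h1 : Φ A.1 = Φ T := hA
  have h2 := congrArg (fun F : S →ₗ[ℂ] ℂ => F ⟨B, hB⟩) h1
  simp only [hΦ] at h2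
  exact h2

end kil

end NDGAux

open NDGAux

variable {V : Type u} [Category.{v} V] [CartesianMonoidalCategory V]

theorem blk_NDG {D : WeilData.{u, v, w, 0} V ℂ} {P : HodgeData D} (_hD : D.IsWeil)
    (h : P.HodgeAxioms) (d : ℕ) (Y : V) :
    Stmt_BAS D → Stmt_HPB P h → Stmt_MET P h → Stmt_NDG P h d Y := by
  intro hB hP hM
  have h1 : ∀ (X : V) (K : D.Fam), D.Kil d Y K → D.Adp d Y X K → K X = 0 := by
    intro X K hK hA
    obtain ⟨c, hc⟩ := hM X
    exact core_zero_of_trace c (K X) (P.sharp h K X) (hc K hK.mot)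
      (hA (P.sharp h K) (kil_sharp hP hK))
  refine ⟨h1, ?_, ?_, ?_, ?_⟩
  · intro X T hT
    obtain ⟨A, ⟨K, hK, rfl⟩, hA⟩ := exists_proj (kilSub hB d Y X) (by
      rintro _ ⟨K, hK, rfl⟩ hK'
      exact h1 X K hK fun K' h' => hK' (K' X) ⟨K', h', rfl⟩) (T X)
    refine ⟨K, hK, fun K' h' => ?_⟩
    have h2 := hA (K' X) ⟨K', h', rfl⟩
    have h3 : (T - K) X * K' X = T X * K' X - K X * K' X := by
      have : (T - K) X = T X - K X := rfl
      rw [this, sub_mul]
    rw [h3, map_sub, h2, sub_self]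
  · intro X T S hT hS hA K hK
    have h2 := hA (S * K - K * S) (kil_comm hB hS hK)
    have h3 : (T * S - S * T) X * K X = T X * S X * K X - S X * T X * K X := by
      have : (T * S - S * T) X = T X * S X - S X * T X := rfl
      rw [this, sub_mul]
    have h4 : T X * (S * K - K * S) X = T X * S X * K X - T X * K X * S X := by
      have : (S * K - K * S) X = S X * K X - K X * S X := rfl
      rw [this, mul_sub, mul_assoc, mul_assoc]
    rw [h4, map_sub] at h2
    rw [h3, map_sub, mul_assoc (S X) (T X) (K X), LinearMap.trace_mul_comm ℂ (S X) (T X * K X)]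
    exact h2
  · intro X T hT hA K hK
    obtain ⟨c, hc⟩ := hM X
    have h2 := hA (P.sharp h K) (kil_sharp hP hK)
    have h3 : ∀ x y : D.H X, c.inner ((P.sharp h K X * T X) x) y =
        c.inner x ((P.sharp h T X * K X) y) := by
      intro x y
      have h4 : c.inner (P.sharp h K X (T X x)) y = c.inner (T X x) (K X y) := by
        rw [← c.conj_inner_symm, ← c.conj_inner_symm (T X x), hc K hK.mot]
      rw [Module.End.mul_apply, h4, hc T hT]
      rfl
    rw [core_trace_conj c _ _ h3, LinearMap.trace_mul_comm, h2, map_zero]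
  · intro X T hT hTs
    obtain ⟨c, hc⟩ := hM X
    refine core_diag_of_symm c (T X) fun x y => ?_
    rw [hc T hT, hTs]

end Pool.KC
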