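import Pool.Agent.Work.MP_a60482_exo.Interface

/-! Block PRM: the primitive parts of the cohomology are polarizable. -/

open CategoryTheory MonoidalCategory CartesianMonoidalCategory

universe u v w x

namespace Pool.KC

namespace PRMAux

variable {V : Type u} [Category.{v} V] [CartesianMonoidalCategory V]
variable {D : WeilData.{u, v, w, 0} V ℂ} {P : HodgeData D}

theorem int_add {X : V} (a b : D.H X) : D.int (a + b) = D.int a + D.int b :=
  map_add (D.tr X) a b

theorem int_neg {X : V} (a : D.H X) : D.int (-a) = -D.int a :=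
  map_neg (D.tr X) a

theorem int_smul {X : V} (c : ℂ) (a : D.H X) : D.int (c • a) = c * D.int a :=
  map_smul (D.tr X) c a

theorem int_zero {X : V} : D.int (0 : D.H X) = 0 := map_zero (D.tr X)

theorem int_sum {X : V} {ι : Type} (s : Finset ι) (f : ι → D.H X) :
    D.int (∑ i ∈ s, f i) = ∑ i ∈ s, D.int (f i) := map_sum (D.tr X) f s

theorem I_mul (i : ℕ) : Complex.I ^ i * (-Complex.I) ^ i = 1 := by
  rw [← mul_pow, mul_neg, Complex.I_mul_I, neg_neg, one_pow]

theorem pow_mem (hD : D.IsWeil) (hL : P.LefschetzAxioms) (X : V) (j : ℕ) :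
    P.ample X ^ j ∈ D.C X j := by
  induction j with
  | zero =>
    rw [pow_zero]
    exact hD.cycle.one X
  | succ j ih =>
    rw [pow_succ]
    exact hD.cycle.mul X j 1 _ ih _ (hL.alg X)

theorem bar_pow (hc : P.ConjAxioms) (hL : P.LefschetzAxioms) (X : V) (j : ℕ) (h1 : P.bar X 1 = 1) :
    P.bar X (P.ample X ^ j) = P.ample X ^ j := by
  induction j with
  | zero => rw [pow_zero, h1]
  | succ j ih => rw [pow_succ, hc.mul, ih, hL.real]

theorem bar_one (hc : P.ConjAxioms) (X : V) : P.bar X 1 = 1 := by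
  have h1 : P.bar X 1 * P.bar X 1 = P.bar X 1 := by rw [← hc.mul, mul_one]
  have h2 : ∀ a : D.H X, P.bar X 1 * a = a := by
    intro a
    have : P.bar X (1 * P.bar X a) = P.bar X 1 * P.bar X (P.bar X a) := hc.mul X _ _
    rw [one_mul, hc.invol] at this
    exact this.symm
  have := h2 1
  rwa [mul_one] at this

/-- the component of type `(p, *)` -/
noncomputable def cmp (h : P.HodgeAxioms) (X : V) (p : ℕ) (a : D.H X) : D.H X :=
  P.hop h (fun r _ => if r = p then 1 else 0) X a

theorem cmp_hodge (h : P.HodgeAxioms) {X : V} (p : ℕ) {r s : ℕ} {a : D.H X}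
    (ha : a ∈ P.hodge X r s) : cmp h X p a = if r = p then a else 0 := by
  unfold cmp
  rw [HodgeData.hop_apply h _ ha]
  split_ifs
  · rw [one_smul]
  · rw [zero_smul]

theorem cmp_add (h : P.HodgeAxioms) {X : V} (p : ℕ) (a b : D.H X) :
    cmp h X p (a + b) = cmp h X p a + cmp h X p b := map_add _ _ _

theorem cmp_zero (h : P.HodgeAxioms) {X : V} (p : ℕ) :
    cmp h X p (0 : D.H X) = 0 := map_zero _

variable (hD : D.IsWeil) (hc : P.ConjAxioms) (h : P.HodgeAxioms) (hL : P.LefschetzAxioms)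

theorem ample_cmp (hD : D.IsWeil) (h : P.HodgeAxioms) (hL : P.LefschetzAxioms) {X : V} (i p : ℕ)
    (a : D.H X) : P.ample X ^ i * cmp h X p a = cmp h X (p + i) (P.ample X ^ i * a) := by
  refine HodgeData.hodge_ind (P := P) h
    (p := fun a => P.ample X ^ i * cmp h X p a = cmp h X (p + i) (P.ample X ^ i * a)) ?_ ?_ a
  · intro r s b hb
    have h1 := h.mul X i i r s _ (h.alg X i (pow_mem hD hL X i)) b hb
    rw [cmp_hodge h p hb, cmp_hodge h (p + i) h1]
    by_cases hr : r = p
    · rw [if_pos hr, if_pos (by omega)]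
    · rw [if_neg hr, if_neg (by omega), mul_zero]
  · intro b b' hb hb'
    rw [cmp_add, mul_add, hb, hb', mul_add, cmp_add]

theorem main_pos (hD : D.IsWeil) (h : P.HodgeAxioms)
    (hL : P.LefschetzAxioms)
    (hind : ∀ (X : V) (k : ℕ) (p : D.H X → Prop),
      (∀ r s : ℕ, r + s = k → ∀ a ∈ P.hodge X r s, p a) → (∀ a b, p a → p b → p (a + b)) →
      p 0 → ∀ a ∈ D.deg X k, p a)
    {X : V} {k j : ℕ} (hkj : k + j = D.dim X) {x : D.H X} (hx : x ∈ D.deg X k)
    (hx' : P.ample X ^ (j + 1) * x = 0) (hx0 : x ≠ 0) :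
    ∃ r : ℝ, 0 < r ∧ (-1 : ℂ) ^ (k * (k - 1) / 2) *
      D.int (P.ample X ^ j * P.weilOp h X x * P.bar X x) = r := by
  have hsum : ∀ a ∈ D.deg X k, a = ∑ p ∈ Finset.range (k + 1), cmp h X p a := by
    intro a ha
    refine hind X k (fun a => a = ∑ p ∈ Finset.range (k + 1), cmp h X p a) ?_ ?_ ?_ a ha
    · intro r s hrs b hb
      have h1 : ∑ p ∈ Finset.range (k + 1), cmp h X p b =
          ∑ p ∈ Finset.range (k + 1), if r = p then b else 0 :=
        Finset.sum_congr rfl fun p _ => cmp_hodge h p hb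
      rw [h1, Finset.sum_ite_eq, if_pos (Finset.mem_range.mpr (by omega))]
    · intro b b' hb hb'
      have h1 : ∑ p ∈ Finset.range (k + 1), cmp h X p (b + b') =
          ∑ p ∈ Finset.range (k + 1), (cmp h X p b + cmp h X p b') :=
        Finset.sum_congr rfl fun p _ => cmp_add h p b b'
      rw [h1, Finset.sum_add_distrib, ← hb, ← hb']
    · exact (Finset.sum_eq_zero fun p _ => cmp_zero h p).symm
  have hmem : ∀ p, p ≤ k → ∀ a ∈ D.deg X k, cmp h X p a ∈ P.hodge X p (k - p) := by
    intro p hp a ha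
    refine hind X k (fun a => cmp h X p a ∈ P.hodge X p (k - p)) ?_ ?_ ?_ a ha
    · intro r s hrs b hb
      rw [cmp_hodge h p hb]
      split_ifs with hr
      · have hs : s = k - p := by omega
        rw [← hr, ← hrs, Nat.add_sub_cancel_left]
        exact hb
      · exact zero_mem _
    · intro b b' hb hb'
      rw [cmp_add]
      exact add_mem hb hb'
    · rw [cmp_zero]
      exact zero_mem _
  have hprim : ∀ p, P.ample X ^ (j + 1) * cmp h X p x = 0 := by
    intro p
    rw [ample_cmp hD h hL, hx', cmp_zero]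
  have hj := h.alg X j (pow_mem hD hL X j)
  -- orthogonality
  have horth : ∀ p ≤ k, ∀ q ≤ k, p ≠ q →
      D.int (P.ample X ^ j * P.weilOp h X (cmp h X p x) * P.bar X (cmp h X q x)) = 0 := by
    intro p hp q hq hpq
    have h1 := hmem p hp x hx
    have h2 := h.bar X q (k - q) _ (hmem q hq x hx)
    have h3 : P.weilOp h X (cmp h X p x) ∈ P.hodge X p (k - p) := by
      rw [HodgeData.weilOp_apply h h1]
      exact Submodule.smul_mem _ _ h1
    have h4 := h.mul X _ _ _ _ _ (h.mul X j j p (k - p) _ hj _ h3) _ h2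
    exact h.int X _ _ (by omega) _ h4
  -- positivity of the parts
  have hpart : ∀ p : ℕ, ∃ r : ℝ, p ≤ k → (0 ≤ r ∧ (cmp h X p x ≠ 0 → 0 < r) ∧
      (-1 : ℂ) ^ (k * (k - 1) / 2) *
        D.int (P.ample X ^ j * P.weilOp h X (cmp h X p x) * P.bar X (cmp h X p x)) = r) := by
    intro p
    by_cases hp : p ≤ k
    · by_cases h0 : cmp h X p x = 0
      · refine ⟨0, fun _ => ⟨le_refl _, fun h1 => absurd h0 h1, ?_⟩⟩
        rw [h0, map_zero, mul_zero, zero_mul, int_zero, mul_zero, Complex.ofReal_zero]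
      · have hpk : p + (k - p) = k := by omega
        obtain ⟨r, hr, hr'⟩ := hL.riemann X p (k - p) j (by omega) _ (hmem p hp x hx) h0 (hprim p)
        refine ⟨r, fun _ => ⟨hr.le, fun _ => hr, ?_⟩⟩
        rw [← hr', HodgeData.weilOp_apply h (hmem p hp x hx), mul_smul_comm, smul_mul_assoc,
          int_smul, mul_assoc (P.ample X ^ j), hpk]
        ring
    · exact ⟨0, fun h1 => absurd h1 hp⟩
  choose r hr using hpart
  refine ⟨∑ p ∈ Finset.range (k + 1), r p, ?_, ?_⟩
  · apply Finset.sum_pos'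
    · intro p hp
      exact (hr p (by have := Finset.mem_range.mp hp; omega)).1
    · by_contra hcon
      push Not at hcon
      apply hx0
      rw [hsum x hx]
      apply Finset.sum_eq_zero
      intro p hp
      by_contra h0
      have h1 := (hr p (by have := Finset.mem_range.mp hp; omega)).2.1 h0
      exact absurd h1 (not_lt.mpr (hcon p hp))
  · have e1 : P.weilOp h X x = ∑ p ∈ Finset.range (k + 1), P.weilOp h X (cmp h X p x) := by
      conv_lhs => rw [hsum x hx]
      rw [map_sum]
    have e2 : P.bar X x = ∑ p ∈ Finset.range (k + 1), P.bar X (cmp h X p x) := by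
      conv_lhs => rw [hsum x hx]
      rw [map_sum]
    have e3 : D.int (P.ample X ^ j * P.weilOp h X x * P.bar X x) =
        ∑ p ∈ Finset.range (k + 1),
          D.int (P.ample X ^ j * P.weilOp h X (cmp h X p x) * P.bar X (cmp h X p x)) := by
      rw [e1, Finset.mul_sum, Finset.sum_mul, int_sum]
      apply Finset.sum_congr rfl
      intro p hp
      rw [e2, Finset.mul_sum, int_sum]
      rw [Finset.sum_eq_single p]
      · intro q hq hqp
        exact horth p (by have := Finset.mem_range.mp hp; omega) q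
          (by have := Finset.mem_range.mp hq; omega) hqp.symm
      · intro hp'
        exact absurd hp hp'
    rw [e3, Finset.mul_sum, Complex.ofReal_sum]
    apply Finset.sum_congr rfl
    intro p hp
    exact (hr p (by have := Finset.mem_range.mp hp; omega)).2.2

end PRMAux

variable {V : Type u} [Category.{v} V] [CartesianMonoidalCategory V]
variable {D : WeilData.{u, v, w, 0} V ℂ} {P : HodgeData D}

open PRMAux in
theorem blk_PRM (hD : D.IsWeil) (hc : P.ConjAxioms) (h : P.HodgeAxioms)
    (hL : P.LefschetzAxioms) : Stmt_BAS D → Stmt_HPA P h → Stmt_HPB P h → Stmt_PRM P h := by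
  rintro ⟨_, _, _, _, hleib, _, _⟩ ⟨hmul, _, hind, hdeg, hint, hbdeg, hIW, hWI, hbW, hWW, _⟩
    ⟨hcb, _, _⟩ X k j hkj
  have hWmul : ∀ (X : V) (a b : D.H X),
      P.weilOp h X (a * b) = P.weilOp h X a * P.weilOp h X b :=
    hmul _ fun p q p' q' => by rw [pow_add, pow_add]; ring
  have hWint : ∀ (X : V) (a : D.H X), D.int (P.weilOp h X a) = D.int a := hint _ I_mul
  have hWpow : ∀ j : ℕ, P.weilOp h X (P.ample X ^ j) = P.ample X ^ j := by
    intro j
    rw [HodgeData.weilOp_apply h (h.alg X j (pow_mem hD hL X j)), I_mul, one_smul]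
  have hTpow : ∀ (T : D.Fam), D.MotDer T → ∀ (j : ℕ) (a : D.H X),
      T X (P.ample X ^ j * a) = P.ample X ^ j * T X a := by
    intro T hT j a
    rw [hleib T hT, hT.alg X j _ (pow_mem hD hL X j), zero_mul, zero_add]
  have hbpow : ∀ j : ℕ, P.bar X (P.ample X ^ j) = P.ample X ^ j :=
    fun j => bar_pow hc hL X j (bar_one hc X)
  refine ⟨fun x y => (-1 : ℂ) ^ (k * (k - 1) / 2) *
    D.int (P.ample X ^ j * P.weilOp h X y * P.bar X x), ?_⟩
  have hmem : ∀ x ∈ P.prim X k j, x ∈ D.deg X k ∧ P.ample X ^ (j + 1) * x = 0 := by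
    rintro x ⟨h1, h2⟩
    exact ⟨h1, LinearMap.mem_ker.mp h2⟩
  constructor
  · -- symm
    intro x hx y hy
    obtain ⟨hx1, _⟩ := hmem x hx
    obtain ⟨hy1, _⟩ := hmem y hy
    have h1 : starRingEnd ℂ ((-1 : ℂ) ^ (k * (k - 1) / 2) *
        D.int (P.ample X ^ j * P.weilOp h X y * P.bar X x)) =
        (-1 : ℂ) ^ (k * (k - 1) / 2) *
        D.int (P.ample X ^ j * P.weilOp h X (P.bar X y) * x) := by
      rw [map_mul, ← hc.int, hc.mul, hc.mul, hc.invol, hbW, hbpow, map_pow, map_neg, map_one]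
    rw [h1]
    congr 1
    -- `x = (-1)^k C (C x)`
    have h2 : x = (-1 : ℂ) ^ k • P.weilOp h X (P.weilOp h X x) := by
      rw [hWW X k x hx1, smul_smul, ← mul_pow, neg_one_mul, neg_neg, one_pow, one_smul]
    have h3 : D.int (P.ample X ^ j * P.weilOp h X (P.bar X y) * x) =
        (-1 : ℂ) ^ k * D.int (P.ample X ^ j * P.bar X y * P.weilOp h X x) := by
      conv_lhs => rw [h2]
      rw [mul_smul_comm, int_smul, ← hWint X (P.ample X ^ j * P.bar X y * P.weilOp h X x), hWmul,
        hWmul, hWpow]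
    have h4 : P.bar X y * P.weilOp h X x = (-1 : ℂ) ^ (k * k) • (P.weilOp h X x * P.bar X y) := by
      have hWdeg : P.weilOp h X x ∈ D.deg X k := hdeg _ X k x hx1
      rw [(D.R X).comm k k _ _ (hbdeg X k y hy1) hWdeg]
      rcases Nat.even_or_odd (k * k) with hk | hk
      · rw [hk.neg_one_pow, hk.neg_one_pow, one_mul, one_smul]
      · rw [hk.neg_one_pow, hk.neg_one_pow, neg_one_mul, neg_one_smul]
    rw [h3, mul_assoc (P.ample X ^ j) (P.bar X y), h4, mul_smul_comm, int_smul, ← mul_assoc,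
      ← mul_assoc]
    have h5 : (-1 : ℂ) ^ k * (-1) ^ (k * k) = 1 := by
      rw [← pow_add]
      apply Even.neg_one_pow
      have : k + k * k = k * (k + 1) := by ring
      rw [this]
      exact Nat.even_mul_succ_self k
    rw [h5, one_mul]
  · -- add
    intro x _ y _ z _
    rw [map_add, mul_add, add_mul, int_add, mul_add]
  · -- smul
    intro x _ y _ c
    rw [map_smul, mul_smul_comm, smul_mul_assoc, int_smul]
    ring
  · -- pos
    intro x hx hx0
    obtain ⟨hx1, hx2⟩ := hmem x hx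
    exact main_pos hD h hL hind hkj hx1 hx2 hx0
  · -- stable
    intro T hT x hx
    obtain ⟨hx1, hx2⟩ := hmem x hx
    refine ⟨hT.deg X k x hx1, ?_⟩
    rw [SetLike.mem_coe, LinearMap.mem_ker, LinearMap.mulLeft_apply, ← hTpow T hT, hx2, map_zero]
  · -- adj
    intro T hT x _ y _
    have hS := hcb T hT
    have h1 : P.bar X (T X x) = P.cbar T X (P.bar X x) := by
      rw [P.cbar_apply, hc.invol]
    have h2 : P.weilOp h X (P.sharp h T X y) = -(P.cbar T X (P.weilOp h X y)) := by
      rw [P.sharp_apply, map_neg, hWI, P.cbar_apply]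
    have h3 := hS.int X (P.ample X ^ j * (P.weilOp h X y * P.bar X x))
    rw [hTpow _ hS, hleib _ hS, mul_add, int_add] at h3
    rw [h1, h2, mul_neg, neg_mul, int_neg, mul_assoc (P.ample X ^ j), mul_assoc (P.ample X ^ j),
      eq_neg_of_add_eq_zero_right h3]

end Pool.KC
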