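import Pool.Agent.Work.MP_a60482_exo.Interface

/-!
# Block PSM: operations on polarizable subspaces
-/

open CategoryTheory MonoidalCategory CartesianMonoidalCategory

universe u v w x

namespace Pool.KC

variable {V : Type u} [Category.{v} V] [CartesianMonoidalCategory V]

namespace PSMAux

open WeilData HodgeData

variable {D : WeilData.{u, v, w, 0} V ℂ} {P : HodgeData D} {h : P.HodgeAxioms}

/-- transport of structure -/
theorem pol_map (hB : Stmt_HPB P h) (X : V) (S : Submodule ℂ (D.H X))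
    (ψ : Module.End ℂ (D.H X))
    (hc : ∀ T : D.Fam, D.MotDer T → ∀ x ∈ S, T X (ψ x) = ψ (T X x))
    (hi : ∀ x ∈ S, ψ x = 0 → x = 0) (hP : P.Pol h X S) : P.Pol h X (S.map ψ) := by
  classical
  obtain ⟨B, hB1⟩ := hP
  obtain ⟨r, hr⟩ : ∃ r : D.H X → D.H X, ∀ x ∈ S, r (ψ x) = x := by
    refine ⟨fun z => if hz : ∃ x ∈ S, ψ x = z then hz.choose else 0, fun x hx => ?_⟩
    have hz : ∃ y ∈ S, ψ y = ψ x := ⟨x, hx, rfl⟩
    have h1 := hz.choose_spec
    have h2 : (if hz : ∃ y ∈ S, ψ y = ψ x then hz.choose else 0) = hz.choose := dif_pos hz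
    refine h2.trans ?_
    have h3 : hz.choose - x = 0 := by
      apply hi _ (sub_mem h1.1 hx)
      rw [map_sub, h1.2, sub_self]
    exact sub_eq_zero.1 h3
  have hm : ∀ z ∈ S.map ψ, ∃ x ∈ S, ψ x = z := fun z hz => Submodule.mem_map.1 hz
  refine ⟨fun z z' => B (r z) (r z'), ?_, ?_, ?_, ?_, ?_, ?_⟩
  · intro z hz z' hz'
    obtain ⟨x, hx, rfl⟩ := hm z hz
    obtain ⟨y, hy, rfl⟩ := hm z' hz'
    change B (r (ψ y)) (r (ψ x)) = starRingEnd ℂ (B (r (ψ x)) (r (ψ y)))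
    rw [hr x hx, hr y hy]
    exact hB1.symm x hx y hy
  · intro z hz z' hz' z'' hz''
    obtain ⟨x, hx, rfl⟩ := hm z hz
    obtain ⟨y, hy, rfl⟩ := hm z' hz'
    obtain ⟨t, ht, rfl⟩ := hm z'' hz''
    change B (r (ψ x)) (r (ψ y + ψ t)) = B (r (ψ x)) (r (ψ y)) + B (r (ψ x)) (r (ψ t))
    rw [← map_add, hr x hx, hr y hy, hr t ht, hr (y + t) (add_mem hy ht)]
    exact hB1.add x hx y hy t ht
  · intro z hz z' hz' c
    obtain ⟨x, hx, rfl⟩ := hm z hz
    obtain ⟨y, hy, rfl⟩ := hm z' hz'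
    change B (r (ψ x)) (r (c • ψ y)) = c * B (r (ψ x)) (r (ψ y))
    rw [← map_smul, hr x hx, hr y hy, hr (c • y) (Submodule.smul_mem _ _ hy)]
    exact hB1.smul x hx y hy c
  · intro z hz hz0
    obtain ⟨x, hx, rfl⟩ := hm z hz
    change ∃ s : ℝ, 0 < s ∧ B (r (ψ x)) (r (ψ x)) = s
    rw [hr x hx]
    apply hB1.pos x hx
    rintro rfl
    exact hz0 (map_zero ψ)
  · intro T hT z hz
    obtain ⟨x, hx, rfl⟩ := hm z hz
    rw [hc T hT x hx]
    exact Submodule.mem_map_of_mem (hB1.stable T hT x hx)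
  · intro T hT z hz z' hz'
    obtain ⟨x, hx, rfl⟩ := hm z hz
    obtain ⟨y, hy, rfl⟩ := hm z' hz'
    have hS : D.MotDer (P.sharp h T) := hB.2.1 T hT
    change B (r (T X (ψ x))) (r (ψ y)) = B (r (ψ x)) (r (P.sharp h T X (ψ y)))
    rw [hc T hT x hx, hc _ hS y hy, hr x hx, hr y hy, hr _ (hB1.stable T hT x hx),
      hr _ (hB1.stable _ hS y hy)]
    exact hB1.adj T hT x hx y hy

/-- direct sums of two -/
theorem pol_sup (hB : Stmt_HPB P h) (X : V) (S₁ S₂ : Submodule ℂ (D.H X))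
    (hd : Disjoint S₁ S₂) (hP1 : P.Pol h X S₁) (hP2 : P.Pol h X S₂) :
    P.Pol h X (S₁ ⊔ S₂) := by
  classical
  obtain ⟨B₁, hB1⟩ := hP1
  obtain ⟨B₂, hB2⟩ := hP2
  obtain ⟨r, s, hrs⟩ : ∃ r s : D.H X → D.H X, ∀ x ∈ S₁, ∀ y ∈ S₂,
      r (x + y) = x ∧ s (x + y) = y := by
    refine ⟨fun z => if hz : ∃ x ∈ S₁, ∃ y ∈ S₂, x + y = z then hz.choose else 0,
      fun z => if hz : ∃ x ∈ S₁, ∃ y ∈ S₂, x + y = z then z - hz.choose else 0,
      fun x hx y hy => ?_⟩
    have hz : ∃ x' ∈ S₁, ∃ y' ∈ S₂, x' + y' = x + y := ⟨x, hx, y, hy, rfl⟩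
    obtain ⟨h1, y', h2, h3⟩ := hz.choose_spec
    have h4 : (if hz : ∃ x' ∈ S₁, ∃ y' ∈ S₂, x' + y' = x + y then hz.choose else 0) =
      hz.choose := dif_pos hz
    have h5 : (if hz : ∃ x' ∈ S₁, ∃ y' ∈ S₂, x' + y' = x + y then x + y - hz.choose else 0) =
      x + y - hz.choose := dif_pos hz
    change (if hz : ∃ x' ∈ S₁, ∃ y' ∈ S₂, x' + y' = x + y then hz.choose else 0) = x ∧
      (if hz : ∃ x' ∈ S₁, ∃ y' ∈ S₂, x' + y' = x + y then x + y - hz.choose else 0) = y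
    rw [h4, h5]
    have h6 : hz.choose - x = y - y' := by
      rw [sub_eq_sub_iff_add_eq_add, h3, add_comm]
    have h7 : hz.choose - x = 0 := by
      have h8 : hz.choose - x ∈ S₁ := sub_mem h1 hx
      have h9 : hz.choose - x ∈ S₂ := by
        rw [h6]
        exact sub_mem hy h2
      exact Submodule.disjoint_def.1 hd _ h8 h9
    have h8 : hz.choose = x := sub_eq_zero.1 h7
    exact ⟨h8, by rw [h8, add_sub_cancel_left]⟩
  have hm : ∀ z ∈ S₁ ⊔ S₂, ∃ x ∈ S₁, ∃ y ∈ S₂, x + y = z := fun z hz =>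
    Submodule.mem_sup.1 hz
  refine ⟨fun z z' => B₁ (r z) (r z') + B₂ (s z) (s z'), ?_, ?_, ?_, ?_, ?_, ?_⟩
  · intro z hz z' hz'
    obtain ⟨x, hx, y, hy, rfl⟩ := hm z hz
    obtain ⟨x', hx', y', hy', rfl⟩ := hm z' hz'
    change B₁ (r (x' + y')) (r (x + y)) + B₂ (s (x' + y')) (s (x + y)) =
      starRingEnd ℂ (B₁ (r (x + y)) (r (x' + y')) + B₂ (s (x + y)) (s (x' + y')))
    rw [(hrs x hx y hy).1, (hrs x hx y hy).2, (hrs x' hx' y' hy').1, (hrs x' hx' y' hy').2,
      map_add, hB1.symm x hx x' hx', hB2.symm y hy y' hy']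
  · intro z hz z' hz' z'' hz''
    obtain ⟨x, hx, y, hy, rfl⟩ := hm z hz
    obtain ⟨x', hx', y', hy', rfl⟩ := hm z' hz'
    obtain ⟨x'', hx'', y'', hy'', rfl⟩ := hm z'' hz''
    have e : x' + y' + (x'' + y'') = (x' + x'') + (y' + y'') := by abel
    change B₁ (r (x + y)) (r (x' + y' + (x'' + y''))) +
      B₂ (s (x + y)) (s (x' + y' + (x'' + y''))) =
      (B₁ (r (x + y)) (r (x' + y')) + B₂ (s (x + y)) (s (x' + y'))) +
      (B₁ (r (x + y)) (r (x'' + y'')) + B₂ (s (x + y)) (s (x'' + y'')))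
    rw [e, (hrs x hx y hy).1, (hrs x hx y hy).2, (hrs x' hx' y' hy').1, (hrs x' hx' y' hy').2,
      (hrs x'' hx'' y'' hy'').1, (hrs x'' hx'' y'' hy'').2,
      (hrs _ (add_mem hx' hx'') _ (add_mem hy' hy'')).1,
      (hrs _ (add_mem hx' hx'') _ (add_mem hy' hy'')).2,
      hB1.add x hx x' hx' x'' hx'', hB2.add y hy y' hy' y'' hy'']
    ring
  · intro z hz z' hz' c
    obtain ⟨x, hx, y, hy, rfl⟩ := hm z hz
    obtain ⟨x', hx', y', hy', rfl⟩ := hm z' hz'
    change B₁ (r (x + y)) (r (c • (x' + y'))) + B₂ (s (x + y)) (s (c • (x' + y'))) =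
      c * (B₁ (r (x + y)) (r (x' + y')) + B₂ (s (x + y)) (s (x' + y')))
    rw [smul_add, (hrs x hx y hy).1, (hrs x hx y hy).2, (hrs x' hx' y' hy').1,
      (hrs x' hx' y' hy').2,
      (hrs _ (Submodule.smul_mem _ c hx') _ (Submodule.smul_mem _ c hy')).1,
      (hrs _ (Submodule.smul_mem _ c hx') _ (Submodule.smul_mem _ c hy')).2,
      hB1.smul x hx x' hx' c, hB2.smul y hy y' hy' c, mul_add]
  · intro z hz hz0
    obtain ⟨x, hx, y, hy, rfl⟩ := hm z hz
    change ∃ t : ℝ, 0 < t ∧ B₁ (r (x + y)) (r (x + y)) + B₂ (s (x + y)) (s (x + y)) = t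
    rw [(hrs x hx y hy).1, (hrs x hx y hy).2]
    have z1 : B₁ 0 0 = 0 := by
      have := hB1.smul 0 (zero_mem _) 0 (zero_mem _) 0
      rwa [zero_smul, zero_mul] at this
    have z2 : B₂ 0 0 = 0 := by
      have := hB2.smul 0 (zero_mem _) 0 (zero_mem _) 0
      rwa [zero_smul, zero_mul] at this
    by_cases hx0 : x = 0
    · by_cases hy0 : y = 0
      · exfalso
        apply hz0
        rw [hx0, hy0, add_zero]
      · obtain ⟨t, ht, he⟩ := hB2.pos y hy hy0
        exact ⟨t, ht, by rw [hx0, z1, he, zero_add]⟩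
    · obtain ⟨t, ht, he⟩ := hB1.pos x hx hx0
      by_cases hy0 : y = 0
      · exact ⟨t, ht, by rw [hy0, z2, he, add_zero]⟩
      · obtain ⟨t', ht', he'⟩ := hB2.pos y hy hy0
        exact ⟨t + t', add_pos ht ht', by rw [he, he', Complex.ofReal_add]⟩
  · intro T hT z hz
    obtain ⟨x, hx, y, hy, rfl⟩ := hm z hz
    rw [map_add]
    exact Submodule.add_mem_sup (hB1.stable T hT x hx) (hB2.stable T hT y hy)
  · intro T hT z hz z' hz'
    obtain ⟨x, hx, y, hy, rfl⟩ := hm z hz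
    obtain ⟨x', hx', y', hy', rfl⟩ := hm z' hz'
    have hS : D.MotDer (P.sharp h T) := hB.2.1 T hT
    change B₁ (r (T X (x + y))) (r (x' + y')) + B₂ (s (T X (x + y))) (s (x' + y')) =
      B₁ (r (x + y)) (r (P.sharp h T X (x' + y'))) + B₂ (s (x + y)) (s (P.sharp h T X (x' + y')))
    rw [map_add, map_add, (hrs x hx y hy).1, (hrs x hx y hy).2, (hrs x' hx' y' hy').1,
      (hrs x' hx' y' hy').2,
      (hrs _ (hB1.stable T hT x hx) _ (hB2.stable T hT y hy)).1,
      (hrs _ (hB1.stable T hT x hx) _ (hB2.stable T hT y hy)).2,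
      (hrs _ (hB1.stable _ hS x' hx') _ (hB2.stable _ hS y' hy')).1,
      (hrs _ (hB1.stable _ hS x' hx') _ (hB2.stable _ hS y' hy')).2,
      hB1.adj T hT x hx x' hx', hB2.adj T hT y hy y' hy']

/-- the zero space -/
theorem pol_bot (X : V) : P.Pol h X ⊥ := by
  refine ⟨fun _ _ => 0, ?_, ?_, ?_, ?_, ?_, ?_⟩
  · intro _ _ _ _
    exact (map_zero _).symm
  · intro _ _ _ _ _ _
    exact (add_zero _).symm
  · intro _ _ _ _ _
    exact (mul_zero _).symm
  · intro x hx hx0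
    exact absurd ((Submodule.mem_bot ℂ).1 hx) hx0
  · intro T _ x hx
    rw [(Submodule.mem_bot ℂ).1 hx, map_zero]
    exact zero_mem _
  · intro _ _ _ _ _ _
    rfl

/-- several summands -/
theorem pol_range (hB : Stmt_HPB P h) (X : V) (S : ℕ → Submodule ℂ (D.H X))
    (hS : iSupIndep S) (hP : ∀ k, P.Pol h X (S k)) (N : ℕ) :
    P.Pol h X (⨆ k ∈ Finset.range N, S k) := by
  induction N with
  | zero =>
    have e : (⨆ k ∈ Finset.range 0, S k) = ⊥ := by simp
    rw [e]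
    exact pol_bot X
  | succ n ih =>
    have e : (⨆ k ∈ Finset.range (n + 1), S k) = S n ⊔ (⨆ k ∈ Finset.range n, S k) := by
      rw [Finset.range_add_one, Finset.iSup_insert]
    rw [e]
    refine pol_sup hB X _ _ ?_ (hP n) ih
    refine (hS n).mono_right ?_
    refine iSup₂_le fun k hk => ?_
    refine le_iSup₂_of_le k ?_ le_rfl
    rw [Finset.mem_range] at hk
    omega

/-- the hermitian form on the whole space -/
theorem pol_top (X : V) (hP : P.Pol h X ⊤) :
    ∃ c : InnerProductSpace.Core ℂ (D.H X), ∀ T : D.Fam, D.MotDer T →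
      ∀ x y : D.H X, c.inner (T X x) y = c.inner x (P.sharp h T X y) := by
  obtain ⟨B, hB⟩ := hP
  have hs : ∀ x y, B y x = starRingEnd ℂ (B x y) := fun x y =>
    hB.symm x Submodule.mem_top y Submodule.mem_top
  have ha : ∀ x y z, B x (y + z) = B x y + B x z := fun x y z =>
    hB.add x Submodule.mem_top y Submodule.mem_top z Submodule.mem_top
  have hm : ∀ x y (c : ℂ), B x (c • y) = c * B x y := fun x y c =>
    hB.smul x Submodule.mem_top y Submodule.mem_top c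
  have h0 : B 0 0 = 0 := by
    have := hm 0 0 0
    rwa [zero_smul, zero_mul] at this
  refine ⟨{
    inner := B
    conj_inner_symm := fun x y => (hs y x).symm
    re_inner_nonneg := ?_
    add_left := ?_
    smul_left := ?_
    definite := ?_ }, fun T hT x y => hB.adj T hT x Submodule.mem_top y Submodule.mem_top⟩
  · intro x
    by_cases hx : x = 0
    · rw [hx]
      change 0 ≤ RCLike.re (B 0 0)
      rw [h0, map_zero]
    · obtain ⟨r, hr, he⟩ := hB.pos x Submodule.mem_top hx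
      change 0 ≤ RCLike.re (B x x)
      rw [he]
      change 0 ≤ (r : ℂ).re
      rw [Complex.ofReal_re]
      exact hr.le
  · intro x y z
    change B (x + y) z = B x z + B y z
    rw [hs z (x + y), ha, map_add, ← hs, ← hs]
  · intro x y c
    change B (c • x) y = starRingEnd ℂ c * B x y
    rw [hs y (c • x), hm, map_mul, ← hs]
  · intro x hx
    change B x x = 0 at hx
    by_contra hne
    obtain ⟨r, hr, he⟩ := hB.pos x Submodule.mem_top hne
    rw [hx] at he
    have : r = 0 := by exact_mod_cast he.symm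
    exact hr.ne' this

end PSMAux

open PSMAux WeilData HodgeData

theorem blk_PSM {D : WeilData.{u, v, w, 0} V ℂ} {P : HodgeData D} (h : P.HodgeAxioms) :
    Stmt_HPB P h → Stmt_PSM P h := by
  intro hB
  refine ⟨pol_map hB, pol_sup hB, ?_, pol_top⟩
  intro X S N hS hP he
  rw [← he]
  exact pol_range hB X S hS hP N

end Pool.KC
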