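import Pool.Agent.Work.MP_a60482_exo.ASM
import Pool.Agent.Work.MP_a60482_exo.BAS
import Pool.Agent.Work.MP_a60482_exo.CNJ
import Pool.Agent.Work.MP_a60482_exo.EIG
import Pool.Agent.Work.MP_a60482_exo.GRA
import Pool.Agent.Work.MP_a60482_exo.HLI
import Pool.Agent.Work.MP_a60482_exo.HPA
import Pool.Agent.Work.MP_a60482_exo.HPB
import Pool.Agent.Work.MP_a60482_exo.LFT
import Pool.Agent.Work.MP_a60482_exo.LIN
import Pool.Agent.Work.MP_a60482_exo.MET
import Pool.Agent.Work.MP_a60482_exo.NC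
import Pool.Agent.Work.MP_a60482_exo.NDG
import Pool.Agent.Work.MP_a60482_exo.PRM
import Pool.Agent.Work.MP_a60482_exo.PSM
import Pool.Agent.Work.MP_a60482_exo.RAT
import Pool.Agent.Work.MP_a60482_exo.REG
import Pool.Agent.Work.MP_a60482_exo.SLB

/-!
# The exotic grading: end of the proof
-/

open CategoryTheory MonoidalCategory CartesianMonoidalCategory

universe u v w x

namespace Pool.KC

variable {V : Type u} [Category.{v} V] [CartesianMonoidalCategory V]

theorem exotic (D : WeilData.{u, v, w, 0} V ℂ) (hD : D.IsWeil) (hcon : D.Connected)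
    (P : HodgeTheory D) (hP : P.IsHodgeTheory) (d : ℕ) (hd : Odd d) (h3 : 3 ≤ d) (Y : V)
    (hY : P.Sp d Y) :
    ∃ g : D.Regrading, (D.regrade g).IsWeil ∧ (D.regrade g).Connected ∧
      (∀ (X : V) (j : ℕ), j + 2 < d → g.deg X j = D.deg X j) ∧
      (D.regrade g).betti Y (d - 2) = D.betti Y (d - 2) + 1 ∧ ¬ (D.regrade g).ConjC Y ∧
      ∀ l ∈ D.C Y 1, ¬ (D.regrade g).HardLefschetz Y l := by
  have hc := blk_CNJ hD hP.rat hP.hodge
  have hA := blk_HPA hD hc hP.hodge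
  have hB := blk_BAS hD
  have hPB := blk_HPB hD hc hP.hodge hA
  have hMET := blk_MET hD hP.hodge hP.lefschetz hB hPB
    (blk_PRM hD hc hP.hodge hP.lefschetz hB hA hPB) (blk_PSM hP.hodge hPB)
  have hNDG := blk_NDG hD hP.hodge d Y hB hPB hMET
  have hBig := blk_HLI hD hP.hodge d Y hY hB (blk_RAT hD hP.rat hP.hodge hA)
  exact asm hD hP.hodge d hd h3 Y hY.dim hB hNDG (blk_LFT hD hP.hodge d hd Y hBig hB hNDG)
    (blk_LIN hD hc hP.hodge d hd Y hBig hA) (blk_EIG hD hP.hodge hA) blk_SLB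
    hA hPB.2.1 (blk_GRA hD hB) (blk_REG hD hcon hB) (blk_NC hD hB)

end Pool.KC
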