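import Pool.Agent.Work.MP_a60482_kc.Api

/-!
# Regraded Weil cohomology theories

`WeilData.Regrading`, `WeilData.regrade`: the same theory with other degrees.
-/

open CategoryTheory MonoidalCategory CartesianMonoidalCategory

universe u v w x

namespace Pool.KC

namespace WeilData

variable {V : Type u} [Category.{v} V] [CartesianMonoidalCategory V] {K : Type x} [Field K]
variable (D : WeilData.{u, v, w, x} V K)

/-- Another grading, graded-commutative, of all the cohomology algebras `H(X)`. -/
structure Regrading where
  deg : ∀ X : V, ℕ → Submodule K (D.H X)
  grad : ∀ X : V, GradedAlgebra (deg X)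
  comm : ∀ (X : V) (i j : ℕ) (a b : D.H X), a ∈ deg X i → b ∈ deg X j →
    a * b = (-1) ^ (i * j) * (b * a)

/-- The data with the same algebras `H(X)`, dimensions, pull-backs, traces, push-forwards,
algebraic classes and classes of diagonals, but with the degrees given by `g`. -/
def regrade (g : D.Regrading) : WeilData.{u, v, w, x} V K where
  dim := D.dim
  R X :=
    { A := D.H X
      ring := (D.R X).ring
      alg := (D.R X).alg
      fin := (D.R X).fin
      deg := g.deg X
      grad := g.grad X
      comm := g.comm X }
  pull := D.pull
  tr := D.tr
  push := D.push
  C := D.C
  diag := D.diag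

end WeilData

end Pool.KC
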