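import Pool.Agent.Work.MP_a60482_exo.Defs

/-!
# The Kuenneth conjecture fails for regraded theories: blocks

Every block is a `Prop` `Stmt_X` together with the hypotheses of the theorem `blk_X` listed in
its comment.  Notation: `Q(u, x) = ∫ u x`, `n = dim X`, `ξ = ample X`, `C = weilOp`
(`i^(p-q)` on `H^{p,q}`), `\bar T = bar ∘ T ∘ bar`, `T^# = sharp T = - C^{-1} \bar T C`.
-/

open CategoryTheory MonoidalCategory CartesianMonoidalCategory

universe u v w x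

namespace Pool.KC

variable {V : Type u} [Category.{v} V] [CartesianMonoidalCategory V]

namespace WeilData

variable (D : WeilData.{u, v, w, 0} V ℂ)

/-- families which act trivially on `H^d(Y)` -/
structure Kil (d : ℕ) (Y : V) (K : D.Fam) : Prop where
  mot : D.MotDer K
  zero : ∀ x ∈ D.deg Y d, K Y x = 0

/-- `T` is adapted to `X`: orthogonal on `H(X)` (trace form) to all families which act trivially
on `H^d(Y)`. -/
def Adp (d : ℕ) (Y X : V) (T : D.Fam) : Prop :=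
  ∀ K : D.Fam, D.Kil d Y K → LinearMap.trace ℂ (D.H X) (T X * K X) = 0

/-- the new part of degree `j` of `H(X)`: spanned by the `a ∈ H^k(X)` with `T a = m a` and
`k + 2 m = j` -/
noncomputable def rdeg (T : D.Fam) (X : V) (j : ℕ) : Submodule ℂ (D.H X) :=
  Submodule.span ℂ {a | ∃ (k : ℕ) (m : ℤ), a ∈ D.deg X k ∧ T X a = (m : ℂ) • a ∧
    (k : ℤ) + 2 * m = j}

/-- the eigenvalues `μ` of `T` on `H^k(X)` are integers with `d |μ| ≤ k`, `d |μ| ≤ 2 n - k` -/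
def Small (d : ℕ) (T : D.Fam) : Prop :=
  ∀ (X : V) (k : ℕ), ∀ a ∈ D.deg X k, a ≠ 0 → ∀ μ : ℂ, T X a = μ • a →
    ∃ m : ℤ, μ = m ∧ (d : ℤ) * |m| ≤ k ∧ (d : ℤ) * |m| ≤ 2 * D.dim X - k

/-- `T X` is diagonalizable for all `X` -/
def Diag (T : D.Fam) : Prop := ∀ X : V, (⨆ μ : ℂ, Module.End.eigenspace (T X) μ) = ⊤

end WeilData

namespace HodgeData

variable {D : WeilData.{u, v, w, 0} V ℂ} (P : HodgeData D)

/-- the operator which is multiplication by `φ p q` on `H^{p,q}` -/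
noncomputable def hop (h : P.HodgeAxioms) (φ : ℕ → ℕ → ℂ) : D.Fam := fun X =>
  (DirectSum.toModule ℂ (ℕ × ℕ) (D.H X)
      fun pq => φ pq.1 pq.2 • (P.hodge X pq.1 pq.2).subtype) ∘ₗ
    (LinearEquiv.ofBijective
      (DirectSum.coeLinearMap fun pq : ℕ × ℕ => P.hodge X pq.1 pq.2)
      (h.internal X)).symm.toLinearMap

/-- `p - q` on `H^{p,q}` -/
noncomputable def hodgeOp (h : P.HodgeAxioms) : D.Fam := P.hop h fun p q => (p : ℂ) - q

/-- the Weil operator `C`: `i^(p-q)` on `H^{p,q}` -/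
noncomputable def weilOp (h : P.HodgeAxioms) : D.Fam :=
  P.hop h fun p q => Complex.I ^ p * (-Complex.I) ^ q

/-- the inverse of the Weil operator -/
noncomputable def weilInv (h : P.HodgeAxioms) : D.Fam :=
  P.hop h fun p q => (-Complex.I) ^ p * Complex.I ^ q

/-- `\bar T`, the complex conjugate of `T` -/
noncomputable def cbar (T : D.Fam) : D.Fam := fun X => (P.bar X).comp ((T X).comp (P.bar X))

theorem cbar_apply (T : D.Fam) (X : V) (a : D.H X) :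
    P.cbar T X a = P.bar X (T X (P.bar X a)) := rfl

/-- `T^# = - C^{-1} \bar T C` -/
noncomputable def sharp (h : P.HodgeAxioms) (T : D.Fam) : D.Fam :=
  -(P.weilInv h * P.cbar T * P.weilOp h)

theorem sharp_apply (h : P.HodgeAxioms) (T : D.Fam) (X : V) (a : D.H X) :
    P.sharp h T X a = -(P.weilInv h X (P.bar X (T X (P.bar X (P.weilOp h X a))))) := rfl

/-- the primitive part of `H^k(X)`, `k + j = n` -/
noncomputable def prim (X : V) (k j : ℕ) : Submodule ℂ (D.H X) :=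
  D.deg X k ⊓ LinearMap.ker (LinearMap.mulLeft ℂ (P.ample X ^ (j + 1)))

/-- The subspace `S` of `H(X)`, stable under all families in `MotDer`, carries a positive definite
hermitian form (linear in the second variable) for which the adjoint of `T` is `T^#`. -/
structure IsPol (h : P.HodgeAxioms) {X : V} (S : Submodule ℂ (D.H X))
    (B : D.H X → D.H X → ℂ) : Prop where
  symm : ∀ x ∈ S, ∀ y ∈ S, B y x = starRingEnd ℂ (B x y)
  add : ∀ x ∈ S, ∀ y ∈ S, ∀ z ∈ S, B x (y + z) = B x y + B x z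
  smul : ∀ x ∈ S, ∀ y ∈ S, ∀ c : ℂ, B x (c • y) = c * B x y
  pos : ∀ x ∈ S, x ≠ 0 → ∃ r : ℝ, 0 < r ∧ B x x = r
  stable : ∀ T : D.Fam, D.MotDer T → ∀ x ∈ S, T X x ∈ S
  adj : ∀ T : D.Fam, D.MotDer T → ∀ x ∈ S, ∀ y ∈ S, B (T X x) y = B x (P.sharp h T X y)

/-- polarizable subspaces -/
def Pol (h : P.HodgeAxioms) (X : V) (S : Submodule ℂ (D.H X)) : Prop := ∃ B, P.IsPol h S B

variable {P}

theorem hodge_ind (h : P.HodgeAxioms) {X : V} {p : D.H X → Prop}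
    (h0 : ∀ (r s : ℕ), ∀ a ∈ P.hodge X r s, p a) (h1 : ∀ a b, p a → p b → p (a + b))
    (a : D.H X) : p a := by
  have h2 : p 0 := h0 0 0 0 (zero_mem _)
  have h3 : a ∈ ⨆ pq : ℕ × ℕ, P.hodge X pq.1 pq.2 := by
    rw [(h.internal X).submodule_iSup_eq_top]
    exact Submodule.mem_top
  exact Submodule.iSup_induction (fun pq : ℕ × ℕ => P.hodge X pq.1 pq.2) (motive := p) h3
    (fun i x hx => h0 _ _ x hx) h2 h1

theorem hop_apply (h : P.HodgeAxioms) (φ : ℕ → ℕ → ℂ) {X : V} {p q : ℕ} {a : D.H X}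
    (ha : a ∈ P.hodge X p q) : P.hop h φ X a = φ p q • a := by
  have h1 : (LinearEquiv.ofBijective
      (DirectSum.coeLinearMap fun pq : ℕ × ℕ => P.hodge X pq.1 pq.2)
      (h.internal X)).symm a =
      DirectSum.lof ℂ (ℕ × ℕ) (fun pq : ℕ × ℕ => P.hodge X pq.1 pq.2) (p, q) ⟨a, ha⟩ := by
    rw [LinearEquiv.symm_apply_eq, LinearEquiv.ofBijective_apply, DirectSum.coeLinearMap_lof]
  change DirectSum.toModule ℂ (ℕ × ℕ) (D.H X)
      (fun pq => φ pq.1 pq.2 • (P.hodge X pq.1 pq.2).subtype) ((LinearEquiv.ofBijective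
      (DirectSum.coeLinearMap fun pq : ℕ × ℕ => P.hodge X pq.1 pq.2)
      (h.internal X)).symm a) = _
  rw [h1, DirectSum.toModule_lof]
  rfl

theorem hodgeOp_apply (h : P.HodgeAxioms) {X : V} {p q : ℕ} {a : D.H X}
    (ha : a ∈ P.hodge X p q) : P.hodgeOp h X a = ((p : ℂ) - q) • a := hop_apply h _ ha

theorem weilOp_apply (h : P.HodgeAxioms) {X : V} {p q : ℕ} {a : D.H X}
    (ha : a ∈ P.hodge X p q) :
    P.weilOp h X a = (Complex.I ^ p * (-Complex.I) ^ q) • a := hop_apply h _ ha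

theorem weilInv_apply (h : P.HodgeAxioms) {X : V} {p q : ℕ} {a : D.H X}
    (ha : a ∈ P.hodge X p q) :
    P.weilInv h X a = ((-Complex.I) ^ p * Complex.I ^ q) • a := hop_apply h _ ha

end HodgeData

/-- BLOCK BAS: `blk_BAS (hD : D.IsWeil) : Stmt_BAS D`.
The Leibniz rule: `a b = δ^*(a × b)` for the diagonal map `δ = lift (𝟙 X) (𝟙 X)`.
`pf`: check on `a × b` (these span): `pf (T (a × b)) = ∫ T a • b + ∫ a • T b = ∫ a • T b`.
`act z a = pf (pr₁^* a * z)`. -/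
def Stmt_BAS (D : WeilData.{u, v, w, 0} V ℂ) : Prop :=
  D.MotDer 0 ∧
  (∀ T S : D.Fam, D.MotDer T → D.MotDer S → D.MotDer (T + S)) ∧
  (∀ (c : ℂ) (T : D.Fam), D.MotDer T → D.MotDer (c • T)) ∧
  (∀ T S : D.Fam, D.MotDer T → D.MotDer S → D.MotDer (T * S - S * T)) ∧
  (∀ T : D.Fam, D.MotDer T → ∀ (X : V) (a b : D.H X), T X (a * b) = T X a * b + a * T X b) ∧
  (∀ T : D.Fam, D.MotDer T → ∀ (X Y : V) (z : D.H (X ⊗ Y)),
    T Y (D.pf z) = D.pf (T (X ⊗ Y) z)) ∧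
  (∀ T : D.Fam, D.MotDer T → ∀ (X Y : V) (z : D.H (X ⊗ Y)) (a : D.H X), T (X ⊗ Y) z = 0 →
    T Y (D.act z a) = D.act z (T X a))

/-- BLOCK HPA: `blk_HPA (hD : D.IsWeil) (hc : P.ConjAxioms) (h : P.HodgeAxioms) :
Stmt_HPA P h`.
Tools: `hop_apply`, `hodge_ind` (proved above).  `D.deg X k` is spanned by the `H^{p,q}` with
`p + q = k` (decompose and take the part of degree `k`). -/
def Stmt_HPA {D : WeilData.{u, v, w, 0} V ℂ} (P : HodgeData D) (h : P.HodgeAxioms) : Prop :=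
  (∀ φ : ℕ → ℕ → ℂ, (∀ p q p' q', φ (p + p') (q + q') = φ p q * φ p' q') →
    ∀ (X : V) (a b : D.H X), P.hop h φ X (a * b) = P.hop h φ X a * P.hop h φ X b) ∧
  (∀ (φ : ℕ → ℕ → ℂ) (X Y : V) (f : X ⟶ Y) (a : D.H Y),
    P.hop h φ X (D.pb f a) = D.pb f (P.hop h φ Y a)) ∧
  (∀ (X : V) (k : ℕ) (p : D.H X → Prop),
    (∀ r s : ℕ, r + s = k → ∀ a ∈ P.hodge X r s, p a) → (∀ a b, p a → p b → p (a + b)) →
    p 0 → ∀ a ∈ D.deg X k, p a) ∧
  (∀ (φ : ℕ → ℕ → ℂ) (X : V) (k : ℕ), ∀ a ∈ D.deg X k, P.hop h φ X a ∈ D.deg X k) ∧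
  (∀ φ : ℕ → ℕ → ℂ, (∀ i, φ i i = 1) →
    ∀ (X : V) (a : D.H X), D.int (P.hop h φ X a) = D.int a) ∧
  (∀ (X : V) (k : ℕ), ∀ a ∈ D.deg X k, P.bar X a ∈ D.deg X k) ∧
  (∀ (X : V) (a : D.H X), P.weilInv h X (P.weilOp h X a) = a) ∧
  (∀ (X : V) (a : D.H X), P.weilOp h X (P.weilInv h X a) = a) ∧
  (∀ (X : V) (a : D.H X), P.bar X (P.weilOp h X a) = P.weilOp h X (P.bar X a)) ∧
  (∀ (X : V) (k : ℕ), ∀ a ∈ D.deg X k,
    P.weilOp h X (P.weilOp h X a) = (-1 : ℂ) ^ k • a) ∧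
  D.MotDer (P.hodgeOp h)

/-- BLOCK HPB: `blk_HPB (hD : D.IsWeil) (hc : P.ConjAxioms) (h : P.HodgeAxioms) :
Stmt_HPA P h → Stmt_HPB P h`.
`weilOp`, `weilInv` are multiplicative (`hop φ` with `φ` multiplicative and `φ i i = 1`), commute
with pull-backs, preserve degrees and traces and are the identity on `C X i` (type `(i, i)`);
`bar` is antilinear, multiplicative etc.; so conjugation by them preserves `MotDer`. -/
def Stmt_HPB {D : WeilData.{u, v, w, 0} V ℂ} (P : HodgeData D) (h : P.HodgeAxioms) : Prop :=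
  (∀ T : D.Fam, D.MotDer T → D.MotDer (P.cbar T)) ∧
  (∀ T : D.Fam, D.MotDer T → D.MotDer (P.sharp h T)) ∧
  (∀ (d : ℕ) (Y : V) (T : D.Fam), (∀ x ∈ D.deg Y d, T Y x = 0) →
    ∀ x ∈ D.deg Y d, P.sharp h T Y x = 0)

/-- BLOCK PRM: `blk_PRM (hD : D.IsWeil) (hc : P.ConjAxioms) (h : P.HodgeAxioms)
(hL : P.LefschetzAxioms) : Stmt_BAS D → Stmt_HPA P h → Stmt_HPB P h → Stmt_PRM P h`.
`B x y = (-1)^(k(k-1)/2) ∫ ξ^j (C y) \bar x` on the primitive part of `H^k(X)`, `k + j = n`.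
`T ξ = 0`, so `T` commutes with multiplication by `ξ`; `Q(T x, y) + Q(x, T y) = 0` for
`Q(x, y) = ∫ ξ^j x y` and all `T` in `MotDer`, in particular for `\bar T`, and
`C T^# = - \bar T C`.  Positivity: the components of type `(p, q)` of a primitive class are
primitive, `riemann`, and different types are orthogonal.  Symmetry: for `x, y` of type `(p, q)`,
`C x = i^(p-q) x`, `C \bar y = i^(q-p) \bar y`, `ξ^j \bar y x = (-1)^k ξ^j x \bar y`. -/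
def Stmt_PRM {D : WeilData.{u, v, w, 0} V ℂ} (P : HodgeData D) (h : P.HodgeAxioms) : Prop :=
  ∀ (X : V) (k j : ℕ), k + j = D.dim X → P.Pol h X (P.prim X k j)

/-- BLOCK PSM: `blk_PSM (h : P.HodgeAxioms) : Stmt_HPB P h → Stmt_PSM P h`.
(1) transport of structure; (2) `B x y = B₁ x₁ y₁ + B₂ x₂ y₂`; (3) from (2) by induction;
(4) `InnerProductSpace.Core` from `Pol ⊤`. -/
def Stmt_PSM {D : WeilData.{u, v, w, 0} V ℂ} (P : HodgeData D) (h : P.HodgeAxioms) : Prop :=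
  (∀ (X : V) (S : Submodule ℂ (D.H X)) (ψ : Module.End ℂ (D.H X)),
    (∀ T : D.Fam, D.MotDer T → ∀ x ∈ S, T X (ψ x) = ψ (T X x)) → (∀ x ∈ S, ψ x = 0 → x = 0) →
    P.Pol h X S → P.Pol h X (S.map ψ)) ∧
  (∀ (X : V) (S₁ S₂ : Submodule ℂ (D.H X)), Disjoint S₁ S₂ → P.Pol h X S₁ → P.Pol h X S₂ →
    P.Pol h X (S₁ ⊔ S₂)) ∧
  (∀ (X : V) (S : ℕ → Submodule ℂ (D.H X)) (N : ℕ), iSupIndep S → (∀ k, P.Pol h X (S k)) →
    (⨆ k ∈ Finset.range N, S k) = ⊤ → P.Pol h X ⊤) ∧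
  (∀ X : V, P.Pol h X ⊤ → ∃ c : InnerProductSpace.Core ℂ (D.H X), ∀ T : D.Fam, D.MotDer T →
    ∀ x y : D.H X, c.inner (T X x) y = c.inner x (P.sharp h T X y))

/-- BLOCK MET: `blk_MET (hD : D.IsWeil) (h : P.HodgeAxioms) (hL : P.LefschetzAxioms) :
Stmt_BAS D → Stmt_HPB P h → Stmt_PRM P h → Stmt_PSM P h → Stmt_MET P h`.
`H^k = P^k ⊕ ξ H^(k-2)` for `k ≤ n` (hard Lefschetz: for `x ∈ H^k`, `ξ^(n-k+1) x =
ξ^(n-k+2) y`, so `x - ξ y ∈ P^k`), `ξ : H^(k-2) → ξ H^(k-2)` is injective and commutes with all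
`T` (`T ξ = 0`); so `H^k` is polarizable by induction; for `k > n` use
`ξ^(k-n) : H^(2n-k) ≅ H^k`; `H^k = 0` for `k > 2n`; then PSM (3), (4). -/
def Stmt_MET {D : WeilData.{u, v, w, 0} V ℂ} (P : HodgeData D) (h : P.HodgeAxioms) : Prop :=
  ∀ X : V, ∃ c : InnerProductSpace.Core ℂ (D.H X), ∀ T : D.Fam, D.MotDer T →
    ∀ x y : D.H X, c.inner (T X x) y = c.inner x (P.sharp h T X y)

/-- BLOCK NDG: `blk_NDG (hD : D.IsWeil) (h : P.HodgeAxioms) (d : ℕ) (Y : V) :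
Stmt_BAS D → Stmt_HPB P h → Stmt_MET P h → Stmt_NDG P h d Y`.
`tr (K X * (K^#) X) = tr (K X * (K X)^*) > 0` unless `K X = 0`, and `K^#` is in `Kil` if `K` is.
(1) take `K^#`; (2) the trace form is nondegenerate on the finite-dimensional space
`{K X : K ∈ Kil}`; (3) `tr ([T, S] K) = tr (T [S, K])` and `[S, K]` is in `Kil`;
(4) `tr (T^# K) = conj (tr (K^# T))`; (5) `T X` is self-adjoint for the hermitian form. -/
def Stmt_NDG {D : WeilData.{u, v, w, 0} V ℂ} (P : HodgeData D) (h : P.HodgeAxioms) (d : ℕ)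
    (Y : V) : Prop :=
  (∀ (X : V) (K : D.Fam), D.Kil d Y K → D.Adp d Y X K → K X = 0) ∧
  (∀ (X : V) (T : D.Fam), D.MotDer T → ∃ K : D.Fam, D.Kil d Y K ∧ D.Adp d Y X (T - K)) ∧
  (∀ (X : V) (T S : D.Fam), D.MotDer T → D.MotDer S → D.Adp d Y X T →
    D.Adp d Y X (T * S - S * T)) ∧
  (∀ (X : V) (T : D.Fam), D.MotDer T → D.Adp d Y X T → D.Adp d Y X (P.sharp h T)) ∧
  (∀ (X : V) (T : D.Fam), D.MotDer T → P.sharp h T X = T X →
    (⨆ μ : ℂ, Module.End.eigenspace (T X) μ) = ⊤)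

/-- BLOCK LFT: `blk_LFT (hD : D.IsWeil) (h : P.HodgeAxioms) (d : ℕ) (hd : Odd d) (Y : V)
(hY : P.Big d Y) : Stmt_BAS D → Stmt_NDG P h d Y → Stmt_LFT D d Y`.
Write `t_{u,v} x = Q(u, x) v + Q(v, x) u`, `τ_w x = Q(w, x) w` on `H^d(Y)` (`τ_w = t_{w,w} / 2`,
and `Q` is alternating, `d` odd).  For `w ≠ 0` there is `u ∈ H^d(Y)` with `Q(u, w) = 1` (Poincare
duality) and `[t_{u,w}, τ_w] = 2 τ_w`.  For varieties `X₁, X₂, X₃`: let `A₁`, `A₂` be in `MotDer`,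
restricting to `t_{u,w}` on `H^d(Y)`, adapted to `X₁`, `X₂` (NDG (2)), `A₃` restricting to `τ_w`
and adapted to `X₃`; then `[A₁, [A₂, A₃]] / 4` restricts to `τ_w` and is adapted to all three
(NDG (3)).  The value `T X` of a family `T` restricting to `τ_w` and adapted to `X` does not depend
on `T` (NDG (1)); so `X ↦ T X` (choose `T` depending on `X`) is in `MotDer`: every condition
involves at most three varieties. -/
def Stmt_LFT (D : WeilData.{u, v, w, 0} V ℂ) (d : ℕ) (Y : V) : Prop :=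
  ∀ w ∈ D.deg Y d, ∃ T : D.Fam, D.MotDer T ∧ (∀ X : V, D.Adp d Y X T) ∧
    ∀ x ∈ D.deg Y d, T Y x = D.int (w * x) • w

/-- BLOCK LIN: `blk_LIN (hD : D.IsWeil) (hc : P.ConjAxioms) (h : P.HodgeAxioms) (d : ℕ)
(hd : Odd d) (Y : V) (hY : P.Big d Y) : Stmt_HPA P h → Stmt_LIN P h d Y`.
`H^d(Y) = ⊕_{p + q = d} H^{p,q}`, `Q` pairs `H^{p,q}` with `H^{q,p}` perfectly (Poincare duality,
`HodgeAxioms.int`) and `Q(x, y) = -Q(y, x)`.  `ω` spans `H^{d,0}`, `η ∈ H^{0,d}` with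
`Q(ω, η) = 1` (spans `H^{0,d}`: apply `bar`); `α i`: bases of the `H^{p,q}`, `p > q > 0`,
`p + q = d`, put together, `β i` the dual bases of the `H^{q,p}`, `c i = p - q`:
for `x ∈ H^{p,q}`: `x = -∑ Q(β i, x) α i`, for `x ∈ H^{q,p}`: `x = ∑ Q(α i, x) β i`.
Last part: `T` is `1` on `H^{d,0}`, `-1` on `H^{0,d}` and `0` on the other `H^{p,q}`, so
`T^#` is the same. -/
def Stmt_LIN {D : WeilData.{u, v, w, 0} V ℂ} (P : HodgeData D) (h : P.HodgeAxioms) (d : ℕ)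
    (Y : V) : Prop :=
  ∃ (ω η : D.H Y) (n : ℕ) (α β : Fin n → D.H Y) (c : Fin n → ℂ),
    ω ∈ D.deg Y d ∧ η ∈ D.deg Y d ∧ D.int (ω * η) = 1 ∧
    (∀ i, α i ∈ D.deg Y d ∧ β i ∈ D.deg Y d ∧ D.int (α i * β i) = 1 ∧
      D.int (ω * α i) = 0 ∧ D.int (ω * β i) = 0 ∧ D.int (η * α i) = 0 ∧
      D.int (η * β i) = 0) ∧
    (∀ x ∈ D.deg Y d, P.hodgeOp h Y x =
      -((d : ℂ) • (D.int (ω * x) • η + D.int (η * x) • ω)) -
        ∑ i, c i • (D.int (β i * x) • α i + D.int (α i * x) • β i)) ∧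
    ∀ T : D.Fam, (∀ x ∈ D.deg Y d, T Y x = -(D.int (ω * x) • η + D.int (η * x) • ω)) →
      ∀ x ∈ D.deg Y d, P.sharp h T Y x = T Y x

/-- BLOCK EIG: `blk_EIG (hD : D.IsWeil) (h : P.HodgeAxioms) : Stmt_HPA P h → Stmt_EIG P h`.
Eigenvectors of `hodgeOp` in `H^k(X)`: a nonzero component in `H^{p,q}`, `p + q = k`, gives
`μ = p - q`; `p, q ≤ n` by Poincare duality and `HodgeAxioms.int` (`a b` of type `(p', q')` with
`p' > n` has trace zero). -/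
def Stmt_EIG {D : WeilData.{u, v, w, 0} V ℂ} (P : HodgeData D) (h : P.HodgeAxioms) : Prop :=
  ∀ (X : V) (k : ℕ), ∀ a ∈ D.deg X k, a ≠ 0 → ∀ μ : ℂ, P.hodgeOp h X a = μ • a →
    |μ.re| ≤ k ∧ |μ.re| ≤ 2 * D.dim X - k

/-- BLOCK SLB: `blk_SLB : Stmt_SLB`.
Let `v ≠ 0`, `h v = μ v`; take `j` maximal with `e^j v ≠ 0`: `e^j v` is primitive, so
`μ + 2 j = m` is a natural number (`IsSl2Triple.HasPrimitiveVectorWith`).
`E = {x : e x = 0, h x = m x}` is stable under `P` and all `a i`, `b i`; choose an eigenvalue `δ`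
of `P` on `E` and `E' = {x ∈ E : P x = δ x} ≠ 0`; the trace of `z = ∑ c i [a i, b i]` on `E'` is
zero, so `z` has an eigenvalue `ζ` on `E'` with `Re ζ ≥ 0`, and `N` has the eigenvalue
`d m + ζ + δ`: `d m + Re δ ≤ κ`.  `f^m` maps `E'` injectively to
`E'' = {x : f x = 0, h x = -m x, P x = δ x}` (or drop `f x = 0`), so `-d m + Re δ ≥ -κ` in the
same way.  So `d m ≤ κ`, and `μ ≤ m`.  By symmetry (`e ↔ f`, `h ↔ -h`) `-d μ ≤ κ`. -/
def Stmt_SLB : Prop := ∀ (W : Type w) [AddCommGroup W] [Module ℂ W] [FiniteDimensional ℂ W]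
    (e f h N P : Module.End ℂ W) (n : ℕ) (a b : Fin n → Module.End ℂ W) (c : Fin n → ℂ)
    (d : ℕ) (κ : ℝ), e * f - f * e = h → h * e - e * h = 2 • e → h * f - f * h = -(2 • f) →
    (∀ i, a i * e = e * a i ∧ a i * f = f * a i ∧ b i * e = e * b i ∧ b i * f = f * b i ∧
      a i * P = P * a i ∧ b i * P = P * b i) →
    e * P = P * e → f * P = P * f →
    N = (d : ℂ) • h + ∑ i, c i • (a i * b i - b i * a i) + P →
    (∀ (μ : ℂ) (v : W), v ≠ 0 → N v = μ • v → |μ.re| ≤ κ) →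
    ∀ (μ : ℂ) (v : W), v ≠ 0 → h v = μ • v → ∃ m : ℤ, μ = m ∧ (d : ℝ) * |(m : ℝ)| ≤ κ

/-- BLOCK GRA: `blk_GRA (hD : D.IsWeil) : Stmt_BAS D → Stmt_GRA D`.
`N X = k + 2 (T X)` on `H^k(X)` is diagonalizable (`T X` is and preserves the `H^k(X)`), with
eigenvalues in `{0, ..., 2 n}` (`Small`, `d ≥ 3`); `rdeg T X j` is its eigenspace for `j`.  `N` is a
derivation, `N 1 = 0`.  Commutativity on the generators: `a ∈ H^k`, `b ∈ H^l` nonzero with
`k ≡ i`, `l ≡ j` mod 2. -/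
def Stmt_GRA (D : WeilData.{u, v, w, 0} V ℂ) : Prop :=
  ∀ (d : ℕ) (T : D.Fam), 3 ≤ d → D.MotDer T → D.Diag T → D.Small d T →
    ∃ g : D.Regrading, ∀ (X : V) (j : ℕ), g.deg X j = D.rdeg T X j

/-- BLOCK REG: `blk_REG (hD : D.IsWeil) (hcon : D.Connected) : Stmt_BAS D → Stmt_REG D`.
Check on the generators `a ∈ H^k(X)`, `a ≠ 0`, `T a = m a`, `j = k + 2 m`, `d |m| ≤ k`,
`d |m| ≤ 2 n - k`, `d ≥ 3`: `k = 2n` forces `j = 2n`; `j = 0` forces `k = 0`; `j + 2 < d` forces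
`k = j`, `m = 0`.  Conversely, for `j + 2 < d` all eigenvalues of `T` on `H^j(X)` are `0`, so
`T = 0` on `H^j(X)` (`Diag`). -/
def Stmt_REG (D : WeilData.{u, v, w, 0} V ℂ) : Prop :=
  ∀ (d : ℕ) (T : D.Fam) (g : D.Regrading), 3 ≤ d → D.MotDer T → D.Diag T → D.Small d T →
    (∀ (X : V) (j : ℕ), g.deg X j = D.rdeg T X j) →
    (D.regrade g).IsWeil ∧ (D.regrade g).Connected ∧
      ∀ (X : V) (j : ℕ), j + 2 < d → g.deg X j = D.deg X j

/-- BLOCK NC: `blk_NC (hD : D.IsWeil) : Stmt_BAS D → Stmt_NC D`.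
`conjC_iff'` and `WeilTheory.conjC_iff` for `D.regrade g`: the projector `p` onto the part of
degree `i` is `act z` with `z ∈ C`; `T z = 0`, so `T` commutes with `p` (BAS (7));
`ω = T η = T (p η) = p (T η) = p ω = 0`. -/
def Stmt_NC (D : WeilData.{u, v, w, 0} V ℂ) : Prop :=
  ∀ (g : D.Regrading) (Y : V) (T : D.Fam) (η ω : D.H Y) (i j : ℕ), (D.regrade g).IsWeil →
    D.MotDer T → η ∈ g.deg Y i → ω ∈ g.deg Y j → i ≠ j → ω ≠ 0 → T Y η = ω →
    ¬ (D.regrade g).ConjC Y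

end Pool.KC
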